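import Pool.Agent.Helper546_reg.Push

set_option linter.unusedSectionVars false
set_option linter.unusedSimpArgs false

namespace Pool.Agent.Helper546Reg

open Finset

universe u

/-- `M` has a representation by vectors in a set of the class `RegSet`. -/
def HasReg {α : Type u} (M : Matroid α) : Prop :=
  M.E.Finite ∧ ∃ (Ω : Type u) (_ : AddCommGroup Ω) (_ : Module (ZMod 2) Ω) (x : α → Ω)
    (A : Set Ω), RegSet A ∧ (∀ e ∈ M.E, x e ≠ 0 → x e ∈ A) ∧ Rep M x

theorem rep_lift {α : Type u} {M : Matroid α} {Ω Ω' : Type*} [AddCommGroup Ω] [Module (ZMod 2) Ω]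
    [AddCommGroup Ω'] [Module (ZMod 2) Ω'] (x : α → Ω) (φ : Ω ≃+ Ω')
    (h : ∀ I ⊆ M.E, (M.Indep I ↔ LinearIndepOn (ZMod 2) (fun e => φ (x e)) I)) : Rep M x := by
  intro I hI
  rw [h I hI, linIndepOn_iff_sum]
  have : ∀ S : Finset α, ∑ e ∈ S, φ (x e) = 0 ↔ ∑ e ∈ S, x e = 0 := by
    intro S
    rw [← map_sum]
    exact map_eq_zero_iff φ φ.injective
  simp only [this]

theorem hasReg_graphic {α : Type u} (M : Matroid α) (hfin : M.E.Finite) (h : IsGraphic M) :
    HasReg M := by
  classical
  obtain ⟨W, a, b, h⟩ := h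
  refine ⟨hfin, ULift.{u} (W →₀ ZMod 2), inferInstance, inferInstance,
    fun e => ULift.up (Finsupp.single (a e) 1 + Finsupp.single (b e) 1),
    Set.range (fun e => ULift.up (Finsupp.single (a e) 1 + Finsupp.single (b e) 1)), ?_,
    fun e _ _ => ⟨e, rfl⟩, ?_⟩
  · refine RegSet.graphic _ W AddEquiv.ulift.toAddMonoidHom ?_ ?_
    · intro x _ hx
      exact AddEquiv.ulift.injective (by rw [map_zero]; exact hx)
    · rintro _ ⟨e, rfl⟩
      change (Finsupp.single (a e) 1 + Finsupp.single (b e) 1 : W →₀ ZMod 2).support.card ≤ 2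
      refine (Finset.card_le_card Finsupp.support_add).trans ((Finset.card_union_le _ _).trans ?_)
      have h1 := Finset.card_le_card (Finsupp.support_single_subset (a := a e) (b := (1 : ZMod 2)))
      have h2 := Finset.card_le_card (Finsupp.support_single_subset (a := b e) (b := (1 : ZMod 2)))
      rw [Finset.card_singleton] at h1 h2
      omega
  · exact rep_lift _ (AddEquiv.ulift : ULift.{u} (W →₀ ZMod 2) ≃+ (W →₀ ZMod 2)) h

theorem hasReg_rankFive {α : Type u} (M : Matroid α) (hfin : M.E.Finite)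
    (x : α → (Fin 5 → ZMod 2))
    (h : ∀ I ⊆ M.E, (M.Indep I ↔ LinearIndepOn (ZMod 2) x I)) : HasReg M := by
  classical
  refine ⟨hfin, ULift.{u} (Fin 5 → ZMod 2), inferInstance, inferInstance,
    fun e => ULift.up (x e), Set.univ, ?_, fun e _ _ => Set.mem_univ _, ?_⟩
  · refine RegSet.small _ Finset.univ ?_ (fun y _ => Finset.mem_univ y)
    rw [Finset.card_univ, Fintype.card_ulift, Fintype.card_fun, ZMod.card, Fintype.card_fin]
    norm_num
  · exact rep_lift _ (AddEquiv.ulift : ULift.{u} (Fin 5 → ZMod 2) ≃+ (Fin 5 → ZMod 2)) h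

section cographic

/-- the edge cut of a vertex set -/
def cutSet {α : Type u} {W : Type} (E : Set α) (a b : α → W) (U : Set W) : Set α :=
  {e | e ∈ E ∧ ¬ (a e ∈ U ↔ b e ∈ U)}

/-- independence in the dual of a graphic matroid: no nonempty edge cut -/
theorem dual_graphic_indep {α : Type u} {W : Type} (M : Matroid α) (a b : α → W)
    (h : ∀ I ⊆ M✶.E, (M✶.Indep I ↔
      LinearIndepOn (ZMod 2)
        (fun e => (Finsupp.single (a e) 1 + Finsupp.single (b e) 1 : W →₀ ZMod 2)) I))
    (I : Set α) (hI : I ⊆ M.E) :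
    M.Indep I ↔ ∀ U : Set W, cutSet M.E a b U ⊆ I → cutSet M.E a b U = ∅ := by
  classical
  set d : α → (W →₀ ZMod 2) := fun e => Finsupp.single (a e) 1 + Finsupp.single (b e) 1 with hd
  have hE : M✶.E = M.E := rfl
  rw [← Matroid.dual_coindep_iff, Matroid.coindep_iff_exists (by rw [hE]; exact hI)]
  constructor
  · rintro ⟨B, hB, hBI⟩ U hU
    rw [hE] at hBI
    by_contra hne
    obtain ⟨e, he⟩ := Set.nonempty_iff_ne_empty.mpr hne
    have heI := hU he
    have heB : e ∉ B := fun h' => (hBI h').2 heI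
    have hdep := hB.insert_dep ⟨he.1, heB⟩
    have hni : ¬ LinearIndepOn (ZMod 2) d (insert e B) := by
      rw [← h _ hdep.subset_ground]; exact hdep.not_indep
    rw [linIndepOn_iff_sum] at hni
    push Not at hni
    obtain ⟨S, hS, hsum, hSne⟩ := hni
    have hBind : LinearIndepOn (ZMod 2) d B := (h _ hB.subset_ground).mp hB.indep
    have heS : e ∈ S := by
      by_contra heS
      have h1 : (S : Set α) ⊆ B := by
        intro s hs
        rcases hS hs with h2 | h2
        · exact absurd (h2 ▸ hs) heS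
        · exact h2
      exact absurd ((linIndepOn_iff_sum d B).mp hBind S h1 hsum)
        (Finset.nonempty_iff_ne_empty.mp hSne)
    set f : (W →₀ ZMod 2) →ₗ[ZMod 2] ZMod 2 :=
      Finsupp.linearCombination (ZMod 2) (fun k => if k ∈ U then (1 : ZMod 2) else 0) with hf
    have hfd : ∀ s, f (d s) = (if a s ∈ U then 1 else 0) + (if b s ∈ U then 1 else 0) := by
      intro s
      simp only [hf, hd, map_add, Finsupp.linearCombination_single, one_smul]
    have hfs : ∀ s ∈ S, s ≠ e → f (d s) = 0 := by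
      intro s hs hse
      have hsB : s ∈ B := by
        rcases hS hs with h2 | h2
        · exact absurd h2 hse
        · exact h2
      have hs2 := hBI hsB
      have h3 : (a s ∈ U ↔ b s ∈ U) := by
        by_contra h4
        exact hs2.2 (hU ⟨hs2.1, h4⟩)
      rw [hfd]
      by_cases h5 : a s ∈ U
      · rw [if_pos h5, if_pos (h3.mp h5)]; decide
      · rw [if_neg h5, if_neg (fun h6 => h5 (h3.mpr h6))]; decide
    have hfe : f (d e) = 1 := by
      have h3 := he.2
      rw [hfd]
      by_cases h5 : a e ∈ U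
      · by_cases h6 : b e ∈ U
        · exact absurd ⟨fun _ => h6, fun _ => h5⟩ h3
        · rw [if_pos h5, if_neg h6]; decide
      · by_cases h6 : b e ∈ U
        · rw [if_neg h5, if_pos h6]; decide
        · exact absurd ⟨fun h' => absurd h' h5, fun h' => absurd h' h6⟩ h3
    have h7 : f (∑ s ∈ S, d s) = 1 := by
      rw [map_sum, Finset.sum_eq_single e hfs (fun h8 => absurd heS h8), hfe]
    rw [hsum, map_zero] at h7
    exact absurd h7 (by decide)
  · intro hcut
    obtain ⟨B, hB⟩ := M✶.exists_isBasis (M.E \ I) (by rw [hE]; exact Set.sdiff_subset)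
    have hBind : LinearIndepOn (ZMod 2) d B := (h _ hB.indep.subset_ground).mp hB.indep
    refine ⟨B, ?_, by rw [hE]; exact hB.subset⟩
    apply hB.indep.isBase_of_forall_insert
    intro e he hins
    rw [hE] at he
    have heB : e ∉ B := he.2
    have heI : e ∈ I := by
      by_contra heI
      exact heB (hB.mem_of_insert_indep ⟨he.1, heI⟩ hins)
    have hlin : LinearIndepOn (ZMod 2) d (insert e B) := (h _ hins.subset_ground).mp hins
    rw [linearIndepOn_insert heB] at hlin
    obtain ⟨f, hfe, hker⟩ := Submodule.exists_le_ker_of_notMem hlin.2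
    have hspan : ∀ s ∈ M.E \ I, f (d s) = 0 := by
      intro s hs
      have h1 : d s ∈ Submodule.span (ZMod 2) (d '' B) := by
        by_cases hsB : s ∈ B
        · exact Submodule.subset_span ⟨s, hsB, rfl⟩
        · by_contra h2
          have h3 : LinearIndepOn (ZMod 2) d (insert s B) := by
            rw [linearIndepOn_insert hsB]; exact ⟨hBind, h2⟩
          have h4 : M✶.Indep (insert s B) := by
            rw [h]
            · exact h3
            · rw [hE]
              exact Set.insert_subset hs.1 (hB.subset.trans Set.sdiff_subset)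
          exact hsB (hB.mem_of_insert_indep hs h4)
      exact LinearMap.mem_ker.mp (hker h1)
    set U : Set W := {k | f (Finsupp.single k 1) = 1} with hU
    have hzo : ∀ c : ZMod 2, c ≠ 1 → c = 0 := by decide
    have hfd : ∀ s, f (d s) ≠ 0 ↔ ¬ (a s ∈ U ↔ b s ∈ U) := by
      intro s
      simp only [hd, map_add, hU, Set.mem_ofPred_eq]
      have key : ∀ c c' : ZMod 2, c + c' ≠ 0 ↔ ¬ (c = 1 ↔ c' = 1) := by decide
      exact key _ _
    have hsub : cutSet M.E a b U ⊆ I := by
      intro s hs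
      by_contra hsI
      exact ((hfd s).mpr hs.2) (hspan s ⟨hs.1, hsI⟩)
    have h8 := hcut U hsub
    have h9 : e ∈ cutSet M.E a b U := ⟨he.1, (hfd e).mp hfe⟩
    rw [h8] at h9
    exact h9

/-- A family whose zero-sum sets are the cuts of a graph spans a set of the class. -/
theorem regSet_of_cuts {α : Type u} {Ω : Type u} [AddCommGroup Ω] [Module (ZMod 2) Ω]
    {W : Type} (E : Finset α) (x : α → Ω) (a b : α → W)
    (h : ∀ S ⊆ E, ∑ e ∈ S, x e = 0 ↔ ∃ U : Set W, ∀ e ∈ E, (e ∈ S ↔ ¬ (a e ∈ U ↔ b e ∈ U))) :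
    ∃ A : Set Ω, RegSet A ∧ ∀ e ∈ E, x e ≠ 0 → x e ∈ A := by
  classical
  rcases E.eq_empty_or_nonempty with rfl | ⟨e₀, he₀⟩
  · refine ⟨((∅ : Finset Ω) : Set Ω), RegSet.cographic ∅ Unit (fun _ => ()) (fun _ => ()) ?_, ?_⟩
    · intro X hX
      have : X = ∅ := Finset.subset_empty.mp hX
      subst this
      simp
    · intro e he; exact absurd he (Finset.notMem_empty e)
  set A : Finset Ω := (E.image x).erase 0 with hA
  have hex : ∀ y : Ω, ∃ e : α, y ∈ A → (e ∈ E ∧ x e = y) := by
    intro y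
    by_cases hy : y ∈ A
    · have h1 := Finset.mem_of_mem_erase hy
      obtain ⟨e, he, hxe⟩ := Finset.mem_image.mp h1
      exact ⟨e, fun _ => ⟨he, hxe⟩⟩
    · exact ⟨e₀, fun h' => absurd h' hy⟩
  choose rep hrep using hex
  set E' : Finset α := A.image rep with hE'
  have hE'E : E' ⊆ E := by
    intro e he
    obtain ⟨y, hy, rfl⟩ := Finset.mem_image.mp he
    exact (hrep y hy).1
  have hrepinj : ∀ y ∈ A, ∀ z ∈ A, rep y = rep z → y = z := by
    intro y hy z hz hyz
    rw [← (hrep y hy).2, ← (hrep z hz).2, hyz]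
  set r : W → W → Prop := fun k k' => ∃ e ∈ E, e ∉ E' ∧ a e = k ∧ b e = k' with hr
  refine ⟨(A : Set Ω), RegSet.cographic A (Quot r) (fun y => Quot.mk r (a (rep y)))
    (fun y => Quot.mk r (b (rep y))) ?_, ?_⟩
  · intro X hX
    have hsum : ∑ y ∈ X, y = ∑ e ∈ X.image rep, x e := by
      rw [Finset.sum_image (fun y hy z hz hyz => hrepinj y (hX hy) z (hX hz) hyz)]
      exact Finset.sum_congr rfl fun y hy => ((hrep y (hX hy)).2).symm
    have hXE' : X.image rep ⊆ E' := Finset.image_subset_image hX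
    have hmem : ∀ y ∈ A, (y ∈ X ↔ rep y ∈ X.image rep) := by
      intro y hy
      constructor
      · exact fun hyX => Finset.mem_image_of_mem _ hyX
      · intro hy2
        obtain ⟨z, hz, hzy⟩ := Finset.mem_image.mp hy2
        rw [← hrepinj z (hX hz) y hy hzy]; exact hz
    rw [hsum, h _ (hXE'.trans hE'E)]
    constructor
    · rintro ⟨U, hU⟩
      refine ⟨{q | Quot.lift (fun k => k ∈ U) ?_ q}, ?_⟩
      · rintro k k' ⟨e, he, he', rfl, rfl⟩
        have h1 : e ∉ X.image rep := fun hx => he' (hXE' hx)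
        have h2 := hU e he
        apply propext
        by_contra h3
        exact h1 (h2.mpr h3)
      · intro y hy
        rw [hmem y hy]
        exact hU (rep y) (hrep y hy).1
    · rintro ⟨U, hU⟩
      refine ⟨{k | Quot.mk r k ∈ U}, ?_⟩
      intro e he
      by_cases he' : e ∈ E'
      · obtain ⟨y, hy, rfl⟩ := Finset.mem_image.mp he'
        rw [← hmem y hy]
        exact hU y hy
      · constructor
        · intro hx
          exact absurd (hXE' hx) he'
        · intro hn
          exfalso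
          apply hn
          have h3 : Quot.mk r (a e) = Quot.mk r (b e) := Quot.sound ⟨e, he, he', rfl, rfl⟩
          simp only [Set.mem_ofPred_eq]
          rw [h3]
  · intro e he hne
    rw [Finset.mem_coe, hA, Finset.mem_erase]
    exact ⟨hne, Finset.mem_image_of_mem _ he⟩

/-- the cut space as a subspace of `α →₀ ZMod 2` -/
def cutSub {α : Type u} {W : Type} (E : Set α) (a b : α → W) :
    Submodule (ZMod 2) (α →₀ ZMod 2) where
  carrier := {f | ∃ U : Set W, ∀ e, (f e ≠ 0 ↔ (e ∈ E ∧ ¬ (a e ∈ U ↔ b e ∈ U)))}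
  zero_mem' := ⟨∅, fun e => by simp⟩
  add_mem' := by
    rintro f g ⟨U, hU⟩ ⟨U', hU'⟩
    refine ⟨symmDiff U U', fun e => ?_⟩
    have key : ∀ c c' : ZMod 2, c + c' ≠ 0 ↔ ¬ (c ≠ 0 ↔ c' ≠ 0) := by decide
    rw [Finsupp.add_apply, key, hU e, hU' e]
    simp only [Set.mem_symmDiff]
    tauto
  smul_mem' := by
    rintro c f ⟨U, hU⟩
    rcases zmod_cases c with rfl | rfl
    · exact ⟨∅, fun e => by simp⟩
    · exact ⟨U, fun e => by rw [one_smul]; exact hU e⟩

theorem hasReg_cographic {α : Type u} (M : Matroid α) (hfin : M.E.Finite) (h : IsGraphic M✶) :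
    HasReg M := by
  classical
  obtain ⟨W, a, b, h⟩ := h
  have hind := dual_graphic_indep M a b h
  set x : α → ((α →₀ ZMod 2) ⧸ cutSub M.E a b) :=
    fun e => (cutSub M.E a b).mkQ (Finsupp.single e 1) with hx
  have hsum : ∀ S : Finset α, ∑ e ∈ S, x e = 0 ↔
      ∃ U : Set W, ∀ e, (e ∈ S ↔ (e ∈ M.E ∧ ¬ (a e ∈ U ↔ b e ∈ U))) := by
    intro S
    have h1 : ∑ e ∈ S, x e = (cutSub M.E a b).mkQ (∑ e ∈ S, Finsupp.single e 1) := by
      rw [map_sum]
    rw [h1, Submodule.mkQ_apply, Submodule.Quotient.mk_eq_zero]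
    have h2 : ∀ e, ((∑ e ∈ S, Finsupp.single e 1 : α →₀ ZMod 2) e ≠ 0 ↔ e ∈ S) := by
      intro e
      rw [Finsupp.finsetSum_apply]
      by_cases he : e ∈ S
      · simp [Finsupp.single_apply, he]
      · simp [Finsupp.single_apply, he]
    constructor
    · rintro ⟨U, hU⟩
      exact ⟨U, fun e => by rw [← h2 e]; exact hU e⟩
    · rintro ⟨U, hU⟩
      exact ⟨U, fun e => by rw [h2 e]; exact hU e⟩
  have hE : ∀ e, e ∈ hfin.toFinset ↔ e ∈ M.E := fun e => hfin.mem_toFinset
  obtain ⟨A, hA, hxA⟩ := regSet_of_cuts hfin.toFinset x a b (by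
    intro S hS
    rw [hsum S]
    constructor
    · rintro ⟨U, hU⟩
      refine ⟨U, fun e he => ?_⟩
      rw [hU e]
      exact ⟨fun h' => h'.2, fun h' => ⟨(hE e).mp he, h'⟩⟩
    · rintro ⟨U, hU⟩
      refine ⟨U, fun e => ?_⟩
      constructor
      · intro he
        exact ⟨(hE e).mp (hS he), (hU e (hS he)).mp he⟩
      · rintro ⟨he, he2⟩
        exact (hU e ((hE e).mpr he)).mpr he2)
  refine ⟨hfin, _, inferInstance, inferInstance, x, A, hA,
    fun e he hne => hxA e ((hE e).mpr he) hne, ?_⟩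
  intro I hI
  rw [hind I hI]
  constructor
  · intro hcut S hS hS0
    obtain ⟨U, hU⟩ := (hsum S).mp hS0
    have h1 : cutSet M.E a b U = (S : Set α) := by
      ext e
      rw [Finset.mem_coe, hU e]; rfl
    have h2 := hcut U (by rw [h1]; exact hS)
    rw [h1] at h2
    exact_mod_cast h2
  · intro hz U hU
    have hcf : (cutSet M.E a b U).Finite := hfin.subset fun e he => he.1
    have h1 := hz hcf.toFinset (by rw [hcf.coe_toFinset]; exact hU) (by
      rw [hsum]
      exact ⟨U, fun e => by rw [hcf.mem_toFinset]; rfl⟩)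
    rw [← hcf.coe_toFinset, h1, Finset.coe_empty]

end cographic

end Pool.Agent.Helper546Reg
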