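import Mathlib

/-!
# The class of matroids in Seymour's decomposition theorem

`SeymourClass M` says that the finite matroid `M` can be built from graphic matroids, duals of
graphic matroids and binary matroids of rank at most five (for example `R10`) by 1-sums, 2-sums
and 3-sums in the sense of Seymour, up to isomorphism.
-/

namespace Pool.Agent.Helper546Reg

universe u

/-- The cycles of `M`: finite disjoint unions of circuits of `M`. -/
inductive IsCycleSet {α : Type u} (M : Matroid α) : Set α → Prop
  | empty : IsCycleSet M ∅
  | union (C D : Set α) (hC : IsCycleSet M C) (hD : M.IsCircuit D) (hCD : Disjoint C D) :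
      IsCycleSet M (C ∪ D)

/-- Graphic matroids: the element `e` is an edge with ends `a e` and `b e`, and a set of edges
is independent exactly when the corresponding columns of the vertex-edge incidence matrix over
the field with two elements are linearly independent. -/
def IsGraphic {α : Type u} (M : Matroid α) : Prop :=
  ∃ (W : Type) (a b : α → W), ∀ I ⊆ M.E, (M.Indep I ↔
    LinearIndepOn (ZMod 2)
      (fun e => (Finsupp.single (a e) 1 + Finsupp.single (b e) 1 : W →₀ ZMod 2)) I)

/-- The finite matroids which can be built from graphic matroids, cographic matroids (duals of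
graphic ones) and binary matroids of rank at most five by Seymour's 1-, 2- and 3-sums. In the
rule `sum` the matroid `M` lives on the symmetric difference of the ground sets of `M₁` and `M₂`,
its cycles are the sets `C₁ ∆ C₂` contained in this ground set, with `Cᵢ` a cycle of `Mᵢ`, and
the two ground sets meet in nothing, or in one element which is a loop of neither, or in a
three-element circuit of both. -/
inductive SeymourClass : {α : Type u} → Matroid α → Prop
  | graphic {α : Type u} (M : Matroid α) (hfin : M.E.Finite) (h : IsGraphic M) : SeymourClass M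
  | cographic {α : Type u} (M : Matroid α) (hfin : M.E.Finite) (h : IsGraphic M✶) :
      SeymourClass M
  | rankFive {α : Type u} (M : Matroid α) (hfin : M.E.Finite) (x : α → (Fin 5 → ZMod 2))
      (h : ∀ I ⊆ M.E, (M.Indep I ↔ LinearIndepOn (ZMod 2) x I)) : SeymourClass M
  | sum {α : Type u} (M M₁ M₂ : Matroid α) (h₁ : SeymourClass M₁) (h₂ : SeymourClass M₂)
      (hE : M.E = symmDiff M₁.E M₂.E)
      (hT : M₁.E ∩ M₂.E = ∅ ∨
        (∃ p, M₁.E ∩ M₂.E = {p} ∧ M₁.IsNonloop p ∧ M₂.IsNonloop p) ∨
        (M₁.IsCircuit (M₁.E ∩ M₂.E) ∧ M₂.IsCircuit (M₁.E ∩ M₂.E) ∧ (M₁.E ∩ M₂.E).ncard = 3))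
      (hC : ∀ C ⊆ M.E, (IsCycleSet M C ↔
        ∃ C₁ C₂, IsCycleSet M₁ C₁ ∧ IsCycleSet M₂ C₂ ∧ C = symmDiff C₁ C₂)) :
      SeymourClass M
  | iso {α β : Type u} (M : Matroid α) (N : Matroid β) (f : α → β)
      (hf : Set.BijOn f M.E N.E) (hI : ∀ I ⊆ M.E, (M.Indep I ↔ N.Indep (f '' I)))
      (h : SeymourClass M) : SeymourClass N

end Pool.Agent.Helper546Reg
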