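import Pool.Agent.Helper546_reg.Small

set_option linter.unusedSectionVars false
set_option linter.unusedSimpArgs false

namespace Pool.Agent.Helper546Reg

open Finset

universe u v

variable {Ω : Type u} [AddCommGroup Ω] [Module (ZMod 2) Ω]
variable {ι : Type v} [Fintype ι]

/-- The vectors in `A` are the edges of a graph on `K`, and zero-sum subsets are the cuts. -/
def IsCog (A : Finset Ω) {K : Type} (e1 e2 : Ω → K) : Prop :=
  ∀ X : Finset Ω, X ⊆ A → (∑ a ∈ X, a = 0 ↔
    ∃ U : Set K, ∀ a ∈ A, (a ∈ X ↔ ¬ (e1 a ∈ U ↔ e2 a ∈ U)))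

/-- Deleting elements: contract the unused edges. -/
theorem IsCog.restrict {A : Finset Ω} {K : Type} {e1 e2 : Ω → K} (h : IsCog A e1 e2)
    {A' : Finset Ω} (hA' : A' ⊆ A) :
    IsCog A' (fun x => Quot.mk (fun k k' => ∃ a ∈ A, a ∉ A' ∧ e1 a = k ∧ e2 a = k') (e1 x))
      (fun x => Quot.mk (fun k k' => ∃ a ∈ A, a ∉ A' ∧ e1 a = k ∧ e2 a = k') (e2 x)) := by
  intro X hX
  rw [h X (hX.trans hA')]
  constructor
  · rintro ⟨U, hU⟩
    refine ⟨{q | Quot.lift (fun k => k ∈ U) ?_ q}, ?_⟩
    · rintro k k' ⟨a, ha, ha', rfl, rfl⟩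
      have h1 : a ∉ X := fun hx => ha' (hX hx)
      have h2 := hU a ha
      apply propext
      by_contra h3
      exact h1 (h2.mpr h3)
    · intro a ha
      exact hU a (hA' ha)
  · rintro ⟨U, hU⟩
    refine ⟨{k | Quot.mk _ k ∈ U}, ?_⟩
    intro a ha
    by_cases ha' : a ∈ A'
    · exact hU a ha'
    · constructor
      · intro hx
        exact absurd (hX hx) ha'
      · intro hn
        exfalso
        apply hn
        have : Quot.mk (fun k k' => ∃ a ∈ A, a ∉ A' ∧ e1 a = k ∧ e2 a = k') (e1 a) =
            Quot.mk (fun k k' => ∃ a ∈ A, a ∉ A' ∧ e1 a = k ∧ e2 a = k') (e2 a) :=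
          Quot.sound ⟨a, ha, ha', rfl, rfl⟩
        simp only [Set.mem_ofPred_eq]
        rw [this]

/-- Splitting the weight of a port into its maximal proper subports. -/
theorem port_split [DecidableEq Ω] {P : Finset Ω} (h0 : (0 : Ω) ∈ P) (hadd : ∀ s ∈ P, ∀ t ∈ P, s + t ∈ P)
    (hcard : P.card ≤ 4) (w : Ω → ℕ) (w0 : w 0 = 0)
    (ww : ∀ s ∈ P, ∀ t ∈ P, w (s + t) ≤ w s + w t) :
    ∃ (H : Fin 3 → Finset Ω) (π : Fin 3 → ℕ),
      (∀ j, H j ⊆ P ∧ (0 : Ω) ∈ H j ∧ (∀ s ∈ H j, ∀ t ∈ H j, s + t ∈ H j) ∧
        (π j ≠ 0 → ∃ t ∈ P, t ∉ H j)) ∧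
      (∀ t ∈ P, ∑ j, (if t ∈ H j then 0 else π j) = 2 * w t) ∧
      ∑ t ∈ P, w t ≤ ∑ j, π j := by
  by_cases h1 : ∀ t ∈ P, t = 0
  · -- trivial port
    have hP : P = {0} := by
      ext t; simp only [Finset.mem_singleton]
      exact ⟨h1 t, fun h => h ▸ h0⟩
    refine ⟨fun _ => P, fun _ => 0, ?_, ?_, ?_⟩
    · intro j
      exact ⟨Finset.Subset.refl _, h0, hadd, fun h => absurd rfl h⟩
    · intro t ht
      rw [h1 t ht, w0]; simp
    · rw [hP]; simp [w0]
  push Not at h1
  obtain ⟨a, ha, ha0⟩ := h1
  have wa : w (a + a) = 0 := by rw [add_self', w0]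
  by_cases h2 : ∀ t ∈ P, t = 0 ∨ t = a
  · have hP : P = {0, a} := by
      ext t; simp only [Finset.mem_insert, Finset.mem_singleton]
      constructor
      · exact h2 t
      · rintro (h | h)
        · exact h ▸ h0
        · exact h ▸ ha
    refine ⟨![{0}, P, P], ![2 * w a, 0, 0], ?_, ?_, ?_⟩
    · intro j
      fin_cases j
      · refine ⟨?_, ?_, ?_, ?_⟩
        · intro t ht
          have : t = 0 := by simpa using ht
          exact this ▸ h0
        · simp
        · intro s hs t ht
          have e1 : s = 0 := by simpa using hs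
          have e2 : t = 0 := by simpa using ht
          rw [e1, e2]; simp
        · intro _
          exact ⟨a, ha, by simpa using ha0⟩
      · exact ⟨Finset.Subset.refl _, h0, hadd, fun h => absurd rfl h⟩
      · exact ⟨Finset.Subset.refl _, h0, hadd, fun h => absurd rfl h⟩
    · intro t ht
      rw [Fin.sum_univ_three]
      simp only [Matrix.cons_val_zero, Matrix.cons_val_one, Matrix.cons_val_two,
        Matrix.tail_cons, Matrix.head_cons, Matrix.cons_val]
      rcases h2 t ht with rfl | rfl
      · simp [w0, h0]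
      · simp [ha0, ha]
    · rw [Fin.sum_univ_three, hP, Finset.sum_pair (Ne.symm ha0), w0]
      simp only [Matrix.cons_val_zero, Matrix.cons_val_one, Matrix.cons_val_two,
        Matrix.tail_cons, Matrix.head_cons, Matrix.cons_val]
      omega
  push Not at h2
  obtain ⟨b, hb, hb0, hba⟩ := h2
  have hc : a + b ∈ P := hadd a ha b hb
  have hc0 : a + b ≠ 0 := fun h => hba (eq_of_add_eq_zero' h).symm
  have hca : a + b ≠ a := fun h => hb0 (by simpa using h)
  have hcb : a + b ≠ b := fun h => ha0 (by simpa using h)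
  have hP : P = {0, a, b, a + b} := by
    symm
    apply Finset.eq_of_subset_of_card_le
    · intro t ht
      simp only [Finset.mem_insert, Finset.mem_singleton] at ht
      rcases ht with rfl | rfl | rfl | rfl
      · exact h0
      · exact ha
      · exact hb
      · exact hc
    · have : ({0, a, b, a + b} : Finset Ω).card = 4 := by
        rw [Finset.card_insert_of_notMem, Finset.card_insert_of_notMem,
          Finset.card_insert_of_notMem, Finset.card_singleton]
        · simpa using hcb.symm
        · simp only [Finset.mem_insert, Finset.mem_singleton, not_or]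
          exact ⟨hba.symm, hca.symm⟩
        · simp only [Finset.mem_insert, Finset.mem_singleton, not_or]
          exact ⟨ha0.symm, hb0.symm, hc0.symm⟩
      omega
  have ab1 : a + (a + b) = b := by rw [← add_assoc, add_self', zero_add]
  have ab2 : b + (a + b) = a := by rw [add_comm a b, ← add_assoc, add_self', zero_add]
  have t1 : w (a + b) ≤ w a + w b := ww a ha b hb
  have t2 : w b ≤ w a + w (a + b) := by
    have := ww a ha _ hc
    rwa [ab1] at this
  have t3 : w a ≤ w b + w (a + b) := by
    have := ww b hb _ hc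
    rwa [ab2] at this
  have sub2 : ∀ x ∈ P, (∀ s ∈ ({0, x} : Finset Ω), ∀ t ∈ ({0, x} : Finset Ω),
      s + t ∈ ({0, x} : Finset Ω)) := by
    intro x _ s hs t ht
    simp only [Finset.mem_insert, Finset.mem_singleton] at hs ht ⊢
    rcases hs with rfl | rfl <;> rcases ht with rfl | rfl <;> simp [add_self']
  have sub1 : ∀ x ∈ P, ({0, x} : Finset Ω) ⊆ P := by
    intro x hx t ht
    simp only [Finset.mem_insert, Finset.mem_singleton] at ht
    rcases ht with rfl | rfl
    · exact h0
    · exact hx
  refine ⟨![{0, a}, {0, b}, {0, a + b}],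
    ![w b + w (a + b) - w a, w a + w (a + b) - w b, w a + w b - w (a + b)], ?_, ?_, ?_⟩
  · intro j
    fin_cases j
    · exact ⟨sub1 a ha, by simp, sub2 a ha, fun _ => ⟨b, hb, by simp [hb0, hba]⟩⟩
    · exact ⟨sub1 b hb, by simp, sub2 b hb, fun _ => ⟨a, ha, by simp [ha0, hba.symm]⟩⟩
    · refine ⟨sub1 _ hc, by simp, sub2 _ hc, fun _ => ⟨a, ha, ?_⟩⟩
      change a ∉ ({0, a + b} : Finset Ω)
      simp only [Finset.mem_insert, Finset.mem_singleton, not_or]
      exact ⟨ha0, hca.symm⟩
  · intro t ht
    rw [Fin.sum_univ_three]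
    simp only [Matrix.cons_val_zero, Matrix.cons_val_one, Matrix.cons_val_two,
      Matrix.tail_cons, Matrix.head_cons, Matrix.cons_val, Finset.mem_insert,
      Finset.mem_singleton]
    rw [hP] at ht
    simp only [Finset.mem_insert, Finset.mem_singleton] at ht
    rcases ht with rfl | rfl | rfl | rfl
    · simp [w0]
    · simp only [ha0, hba.symm, hca.symm, false_or, or_true, if_true, if_false, or_false]
      omega
    · simp only [hb0, hba, hcb.symm, false_or, or_true, if_true, if_false, or_false]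
      omega
    · simp only [hc0, hca, hcb, false_or, or_true, if_true, if_false, or_false]
      omega
  · rw [Fin.sum_univ_three, hP, Finset.sum_insert, Finset.sum_insert, Finset.sum_insert,
      Finset.sum_singleton, w0]
    · simp only [Matrix.cons_val_zero, Matrix.cons_val_one, Matrix.cons_val_two,
        Matrix.tail_cons, Matrix.head_cons, Matrix.cons_val]
      omega
    · simpa using hcb.symm
    · simp only [Finset.mem_insert, Finset.mem_singleton, not_or]
      exact ⟨hba.symm, hca.symm⟩
    · simp only [Finset.mem_insert, Finset.mem_singleton, not_or]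
      exact ⟨ha0.symm, hb0.symm, hc0.symm⟩

/-- Counting a set spanned by a finite family. -/
theorem card_le_of_span {I M : Type*} [AddCommMonoid M] [DecidableEq M] (S : Finset I)
    (f : I → M) (V : Set M) (hV : ∀ y ∈ V, ∃ T ⊆ S, y = ∑ i ∈ T, f i) :
    V.ncard ≤ 2 ^ (S.filter (fun i => f i ≠ 0)).card := by
  classical
  have hsub : V ⊆ ↑(((S.filter (fun i => f i ≠ 0)).powerset).image (fun T => ∑ i ∈ T, f i)) := by
    intro y hy
    obtain ⟨T, hT, rfl⟩ := hV y hy
    rw [Finset.mem_coe, Finset.mem_image]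
    refine ⟨T.filter (fun i => f i ≠ 0), ?_, ?_⟩
    · rw [Finset.mem_powerset]
      exact Finset.filter_subset_filter _ hT
    · exact Finset.sum_filter_ne_zero _
  refine (Set.ncard_le_ncard hsub (Finset.finite_toSet _)).trans ?_
  rw [Set.ncard_coe_finset]
  refine Finset.card_image_le.trans ?_
  rw [Finset.card_powerset]

theorem nsmul_parity {M : Type*} [AddCommGroup M] [Module (ZMod 2) M] (n : ℕ) (x : M) :
    n • x = if Odd n then x else 0 := by
  rcases Nat.even_or_odd' n with ⟨k, rfl | rfl⟩
  · have : ¬ Odd (2 * k) := by simp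
    rw [if_neg this, mul_nsmul, two_nsmul]
    rw [ZModModule.add_self]
    simp
  · rw [if_pos ⟨k, rfl⟩, add_nsmul, mul_nsmul, two_nsmul, one_nsmul]
    rw [ZModModule.add_self]
    simp

/-- Parity lemma. -/
theorem sum_parity {M : Type*} [AddCommGroup M] [Module (ZMod 2) M] [DecidableEq Ω]
    (A : Finset Ω) (y : ι → Ω) (hy : ∀ i, y i ≠ 0 → y i ∈ A) (hA0 : (0 : Ω) ∉ A)
    (h : Ω → M) (h0 : h 0 = 0) :
    ∑ i, h (y i) = ∑ a ∈ A.filter (fun a => Odd (univ.filter (fun i => y i = a)).card), h a := by
  have e1 : ∑ i, h (y i) = ∑ a ∈ insert 0 A, ∑ i ∈ univ.filter (fun i => y i = a), h (y i) := by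
    rw [Finset.sum_fiberwise_of_maps_to]
    intro i _
    rw [Finset.mem_insert]
    by_cases h0 : y i = 0
    · exact Or.inl h0
    · exact Or.inr (hy i h0)
  rw [e1, Finset.sum_insert hA0]
  have e2 : ∑ i ∈ univ.filter (fun i => y i = 0), h (y i) = 0 := by
    apply Finset.sum_eq_zero
    intro i hi
    rw [(Finset.mem_filter.mp hi).2, h0]
  rw [e2, zero_add, Finset.sum_filter]
  apply Finset.sum_congr rfl
  intro a _
  have e3 : ∑ i ∈ univ.filter (fun i => y i = a), h (y i) =
      (univ.filter (fun i => y i = a)).card • h a := by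
    rw [← Finset.sum_const]
    apply Finset.sum_congr rfl
    intro i hi
    rw [(Finset.mem_filter.mp hi).2]
  rw [e3, nsmul_parity]

/-- Cuts are sums of stars. -/
theorem cut_sum {M : Type*} [AddCommGroup M] [Module (ZMod 2) M] {K : Type} [DecidableEq K]
    (A : Finset Ω) (e1 e2 : Ω → K) (g : Ω → M) (U : Finset K) :
    ∑ a ∈ A, (if (e1 a ∈ U ↔ e2 a ∈ U) then 0 else g a) =
      ∑ k ∈ U, ∑ a ∈ A, (if (e1 a = k ↔ e2 a = k) then 0 else g a) := by
  classical
  induction U using Finset.induction_on with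
  | empty => simp
  | insert k U hk ih =>
    rw [Finset.sum_insert hk, ← ih, ← Finset.sum_add_distrib]
    apply Finset.sum_congr rfl
    intro a _
    have gg : g a + g a = 0 := ZModModule.add_self _
    by_cases h1 : e1 a = k
    · by_cases h2 : e2 a = k
      · simp [h1, h2]
      · by_cases h3 : e2 a ∈ U
        · simp [h1, h2, h3, hk, gg]
        · simp [h1, h2, h3, hk]
    · by_cases h2 : e2 a = k
      · by_cases h3 : e1 a ∈ U
        · simp [h1, h2, h3, hk, gg]
        · simp [h1, h2, h3, hk]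
      · simp [h1, h2]

end Pool.Agent.Helper546Reg
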