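import Pool.Agent.Helper546_reg.Cog1

set_option linter.unusedSectionVars false
set_option linter.unusedSimpArgs false

namespace Pool.Agent.Helper546Reg

open Finset

universe u v

variable {Ω : Type u} [AddCommGroup Ω] [Module (ZMod 2) Ω]
variable {ι : Type v} [Fintype ι]

theorem weight_sum_le {L : ι → Finset Ω} (zero : ∀ i, (0 : Ω) ∈ L i)
    (add : ∀ i, ∀ s ∈ L i, ∀ t ∈ L i, s + t ∈ L i)
    {w : ι → Ω → ℕ} (w0 : ∀ i, w i 0 = 0)
    (ww : ∀ i, ∀ s ∈ L i, ∀ t ∈ L i, w i (s + t) ≤ w i s + w i t)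
    {I : Type*} (S : Finset I) (f : I → ι → Ω) (hf : ∀ s ∈ S, ∀ i, f s i ∈ L i) :
    ∑ i, w i ((∑ s ∈ S, f s) i) ≤ ∑ s ∈ S, ∑ i, w i (f s i) := by
  refine Finset.le_sum_of_subadditive_on_pred (fun x : ι → Ω => ∑ i, w i (x i))
    (fun x => ∀ i, x i ∈ L i) ?_ ?_ ?_ f hf
  · exact (Finset.sum_eq_zero fun i _ => w0 i).le
  · intro x y hx hy
    rw [← Finset.sum_add_distrib]
    exact Finset.sum_le_sum fun i _ => ww i _ (hx i) _ (hy i)
  · intro x y hx hy i
    exact add i _ (hx i) _ (hy i)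

theorem box_sum {L : ι → Finset Ω} (zero : ∀ i, (0 : Ω) ∈ L i)
    (add : ∀ i, ∀ s ∈ L i, ∀ t ∈ L i, s + t ∈ L i)
    {I : Type*} (S : Finset I) (f : I → ι → Ω) (hf : ∀ s ∈ S, ∀ i, f s i ∈ L i) (i : ι) :
    (∑ s ∈ S, f s) i ∈ L i := by
  classical
  induction S using Finset.induction_on with
  | empty => simpa using zero i
  | insert a S ha ih =>
    rw [Finset.sum_insert ha]
    exact add i _ (hf a (Finset.mem_insert_self _ _) i) _
      (ih fun s hs => hf s (Finset.mem_insert_of_mem hs))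

open Classical in
theorem single_box {L : ι → Finset Ω} (zero : ∀ i, (0 : Ω) ∈ L i) {j : ι} {a : Ω}
    (ha : a ∈ L j) (i : ι) : (Pi.single j a : ι → Ω) i ∈ L i := by
  by_cases h : i = j
  · subst h; simpa using ha
  · rw [Pi.single_eq_of_ne h]; exact zero i

open Classical in
theorem weight_single {w : ι → Ω → ℕ} (w0 : ∀ i, w i 0 = 0) (j : ι) (a : Ω) :
    ∑ i, w i ((Pi.single j a : ι → Ω) i) = w j a := by
  rw [Finset.sum_eq_single j]
  · simp
  · intro i _ hij
    rw [Pi.single_eq_of_ne hij, w0]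
  · intro h; exact absurd (Finset.mem_univ _) h

/-- Dimension bound. -/
theorem dim_le (A : Finset Ω) {K : Type} (e1 e2 : Ω → K) (hc : IsCog A e1 e2)
    (L : ι → Finset Ω) (hL : ∀ i, IsPort (A : Set Ω) (L i))
    (hA : ∀ a ∈ A, a ≠ 0 ∧ ∃ i, a ∈ L i)
    (w : ι → Ω → ℕ) (l : ℕ) (w0 : ∀ i, w i 0 = 0)
    (ww : ∀ i, ∀ s ∈ L i, ∀ t ∈ L i, w i (s + t) ≤ w i s + w i t)
    (girth : ∀ y ∈ Sol L, y ≠ 0 → l ≤ ∑ i, w i (y i)) :
    ∃ n : ℕ, (Sol L).ncard ≤ 2 ^ n ∧ n * l ≤ 2 * ∑ i, ∑ a ∈ L i, w i a := by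
  classical
  set V0 : Finset K := A.image e1 ∪ A.image e2 with hV0
  have hV1 : ∀ a ∈ A, e1 a ∈ V0 := fun a ha =>
    Finset.mem_union_left _ (Finset.mem_image_of_mem _ ha)
  have hV2 : ∀ a ∈ A, e2 a ∈ V0 := fun a ha =>
    Finset.mem_union_right _ (Finset.mem_image_of_mem _ ha)
  have zero : ∀ i, (0 : Ω) ∈ L i := fun i => (hL i).zero_mem
  have add : ∀ i, ∀ s ∈ L i, ∀ t ∈ L i, s + t ∈ L i := fun i => (hL i).add_mem
  rcases isEmpty_or_nonempty ι with he | hne
  · refine ⟨0, ?_, by simp⟩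
    rw [pow_zero, Set.ncard_le_one (finite_sol L)]
    intro x _ y _
    funext i
    exact he.elim i
  have hex : ∀ a : Ω, ∃ i0 : ι, a ∈ A → (a ∈ L i0 ∧ ∀ i, a ∈ L i → w i0 a ≤ w i a) := by
    intro a
    by_cases ha : a ∈ A
    · obtain ⟨j, hj⟩ := (hA a ha).2
      obtain ⟨i0, hi0, hmin⟩ := Finset.exists_min_image (univ.filter (fun i => a ∈ L i))
        (fun i => w i a) ⟨j, by simp [hj]⟩
      refine ⟨i0, fun _ => ⟨by simpa using hi0, fun i hi => hmin i (by simp [hi])⟩⟩
    · exact ⟨Classical.arbitrary ι, fun h => absurd h ha⟩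
  choose i0 hi0 using hex
  have hA0 : (0 : Ω) ∉ A := fun h => (hA 0 h).1 rfl
  set g : Ω → (ι → Ω) := fun a => Pi.single (i0 a) a with hg
  have g0 : g 0 = 0 := by simp [hg]
  have gbox : ∀ a ∈ A, ∀ i, g a i ∈ L i := fun a ha i => single_box zero (hi0 a ha).1 i
  have gsum : ∀ a, ∑ i, g a i = a := fun a => by simp [hg]
  set f : ((_ : ι) × Ω) ⊕ K → (ι → Ω) := fun s => Sum.elim
    (fun q => Pi.single q.1 q.2 + g q.2)
    (fun k => ∑ a ∈ A, (if (e1 a = k ↔ e2 a = k) then 0 else g a)) s with hf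
  set S : Finset (((_ : ι) × Ω) ⊕ K) := (univ.sigma L).disjSum V0 with hS
  -- spanning
  have hspan : ∀ y ∈ Sol L, ∃ T ⊆ S, y = ∑ s ∈ T, f s := by
    intro y hy
    have hyA : ∀ i, y i ≠ 0 → y i ∈ A := fun i hi => by
      have := (hL i).mem_of_ne _ (hy.1 i) hi
      exact_mod_cast this
    set X := A.filter (fun a => Odd (univ.filter (fun i => y i = a)).card) with hX
    have hXsum : ∑ a ∈ X, a = 0 := by
      have := sum_parity A y hyA hA0 (fun a => a) rfl
      rw [← this]; exact hy.2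
    obtain ⟨U, hU⟩ := (hc X (Finset.filter_subset _ _)).mp hXsum
    set U' : Finset K := V0.filter (fun k => k ∈ U) with hU'
    refine ⟨(univ.image (fun i => (⟨i, y i⟩ : (_ : ι) × Ω))).disjSum U', ?_, ?_⟩
    · rw [hS]
      apply Finset.disjSum_mono
      · intro q hq
        rw [Finset.mem_image] at hq
        obtain ⟨i, _, rfl⟩ := hq
        rw [Finset.mem_sigma]
        exact ⟨Finset.mem_univ _, hy.1 i⟩
      · exact Finset.filter_subset _ _
    · rw [Finset.sum_disjSum, Finset.sum_image]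
      · have h1 : ∑ i, f (Sum.inl ⟨i, y i⟩) = y + ∑ a ∈ X, g a := by
          simp only [hf, Sum.elim_inl]
          rw [Finset.sum_add_distrib, Finset.univ_sum_single,
            sum_parity A y hyA hA0 g g0]
        have h2 : ∑ k ∈ U', f (Sum.inr k) = ∑ a ∈ X, g a := by
          simp only [hf, Sum.elim_inr]
          rw [← cut_sum A e1 e2 g U']
          rw [← Finset.sum_filter_add_sum_filter_not A (fun a => a ∈ X)]
          have h3 : ∑ a ∈ A.filter (fun a => a ∉ X),
              (if (e1 a ∈ U' ↔ e2 a ∈ U') then 0 else g a) = 0 := by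
            apply Finset.sum_eq_zero
            intro a ha
            rw [Finset.mem_filter] at ha
            have h4 := hU a ha.1
            have h5 : (e1 a ∈ U' ↔ e2 a ∈ U') := by
              simp only [hU', Finset.mem_filter, hV1 a ha.1, hV2 a ha.1, true_and]
              by_contra h6
              exact ha.2 (h4.mpr h6)
            rw [if_pos h5]
          rw [h3, add_zero]
          have h6 : A.filter (fun a => a ∈ X) = X := by
            ext a
            rw [Finset.mem_filter]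
            exact ⟨fun h => h.2, fun h => ⟨Finset.filter_subset _ _ h, h⟩⟩
          rw [h6]
          apply Finset.sum_congr rfl
          intro a ha
          have h4 := (hU a (Finset.filter_subset _ _ ha)).mp ha
          have h5 : ¬ (e1 a ∈ U' ↔ e2 a ∈ U') := by
            have haA : a ∈ A := Finset.filter_subset _ _ ha
            simp only [hU', Finset.mem_filter, hV1 a haA, hV2 a haA, true_and]
            exact h4
          rw [if_neg h5]
        rw [h1, h2, fun_add_cancel]
      · intro i _ j _ hij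
        exact congrArg Sigma.fst hij
  -- membership
  have hfbox : ∀ s ∈ S, ∀ i, f s i ∈ L i := by
    intro s hs i
    rw [hS, Finset.mem_disjSum] at hs
    rcases hs with ⟨q, hq, rfl⟩ | ⟨k, _, rfl⟩
    · rw [Finset.mem_sigma] at hq
      simp only [hf, Sum.elim_inl]
      by_cases h0 : q.2 = 0
      · rw [h0, g0]; simpa using zero i
      · have hqA : q.2 ∈ A := by
          have := (hL q.1).mem_of_ne _ hq.2 h0
          exact_mod_cast this
        exact add i _ (single_box zero hq.2 i) _ (gbox _ hqA i)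
    · simp only [hf, Sum.elim_inr]
      apply box_sum zero add
      intro a ha i
      split_ifs
      · exact zero i
      · exact gbox a ha i
  have hfsol : ∀ s ∈ S, f s ∈ Sol L := by
    intro s hs
    refine ⟨hfbox s hs, ?_⟩
    rw [hS, Finset.mem_disjSum] at hs
    rcases hs with ⟨q, hq, rfl⟩ | ⟨k, _, rfl⟩
    · simp only [hf, Sum.elim_inl, Pi.add_apply, Finset.sum_add_distrib, gsum]
      have : ∑ i, (Pi.single q.1 q.2 : ι → Ω) i = q.2 := by simp
      rw [this]; exact add_self' _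
    · simp only [hf, Sum.elim_inr, Finset.sum_apply]
      rw [Finset.sum_comm]
      have h1 : ∀ a ∈ A, ∑ i, ((if (e1 a = k ↔ e2 a = k) then (0 : ι → Ω) else g a) i) =
          if ¬ (e1 a = k ↔ e2 a = k) then a else 0 := by
        intro a _
        by_cases h : (e1 a = k ↔ e2 a = k)
        · simp [h]
        · rw [if_neg h, if_pos h]; exact gsum a
      rw [Finset.sum_congr rfl h1, ← Finset.sum_filter]
      refine (hc _ (Finset.filter_subset _ _)).mpr ⟨{k}, ?_⟩
      intro a ha
      simp [ha]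
  -- total weight
  set Wt : (ι → Ω) → ℕ := fun x => ∑ i, w i (x i) with hWt
  have Wzero : Wt 0 = 0 := Finset.sum_eq_zero fun i _ => w0 i
  have hbound1 : ∀ q ∈ univ.sigma L, Wt (f (Sum.inl q)) ≤
      if q.1 = i0 q.2 then 0 else 2 * w q.1 q.2 := by
    intro q hq
    rw [Finset.mem_sigma] at hq
    simp only [hf, Sum.elim_inl]
    split_ifs with h
    · have : (Pi.single q.1 q.2 : ι → Ω) + g q.2 = 0 := by
        simp only [hg]; rw [← h]; exact fun_add_self _
      rw [this, Wzero]
    · by_cases h0 : q.2 = 0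
      · rw [h0, g0]
        have : (Pi.single q.1 (0 : Ω) : ι → Ω) + 0 = 0 := by simp
        rw [this, Wzero]; exact Nat.zero_le _
      · have hqA : q.2 ∈ A := by
          have := (hL q.1).mem_of_ne _ hq.2 h0
          exact_mod_cast this
        have h1 : Wt ((Pi.single q.1 q.2 : ι → Ω) + g q.2) ≤
            Wt (Pi.single q.1 q.2 : ι → Ω) + Wt (g q.2) := by
          simp only [hWt]
          rw [← Finset.sum_add_distrib]
          exact Finset.sum_le_sum fun i _ => ww i _ (single_box zero hq.2 i) _ (gbox _ hqA i)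
        have h2 : Wt (Pi.single q.1 q.2 : ι → Ω) = w q.1 q.2 := weight_single w0 _ _
        have h3 : Wt (g q.2) = w (i0 q.2) q.2 := weight_single w0 _ _
        have h4 := (hi0 _ hqA).2 q.1 hq.2
        omega
  have hbound2 : ∑ k ∈ V0, Wt (f (Sum.inr k)) ≤ 2 * ∑ a ∈ A, w (i0 a) a := by
    have h1 : ∀ k, Wt (f (Sum.inr k)) ≤
        ∑ a ∈ A, (if (e1 a = k ↔ e2 a = k) then 0 else w (i0 a) a) := by
      intro k
      simp only [hf, Sum.elim_inr]
      refine (weight_sum_le zero add w0 ww A _ ?_).trans ?_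
      · intro a ha i
        split_ifs
        · exact zero i
        · exact gbox a ha i
      · apply Finset.sum_le_sum
        intro a _
        split_ifs
        · exact (Wzero).le
        · exact (weight_single w0 _ _).le
    refine (Finset.sum_le_sum fun k _ => h1 k).trans ?_
    rw [Finset.sum_comm, Finset.mul_sum]
    apply Finset.sum_le_sum
    intro a ha
    calc ∑ k ∈ V0, (if (e1 a = k ↔ e2 a = k) then 0 else w (i0 a) a)
        ≤ ∑ k ∈ V0, ((if e1 a = k then w (i0 a) a else 0) +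
            (if e2 a = k then w (i0 a) a else 0)) := by
          apply Finset.sum_le_sum
          intro k _
          by_cases h1 : e1 a = k <;> by_cases h2 : e2 a = k <;> simp [h1, h2]
      _ = 2 * w (i0 a) a := by
          rw [Finset.sum_add_distrib, Finset.sum_ite_eq, Finset.sum_ite_eq,
            if_pos (hV1 a ha), if_pos (hV2 a ha)]
          ring
  have hbound3 : ∑ a ∈ A, w (i0 a) a ≤
      ∑ q ∈ univ.sigma L, (if q.1 = i0 q.2 then w q.1 q.2 else 0) := by
    have h1 : ∑ a ∈ A, w (i0 a) a =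
        ∑ q ∈ A.image (fun a => (⟨i0 a, a⟩ : (_ : ι) × Ω)),
          (if q.1 = i0 q.2 then w q.1 q.2 else 0) := by
      rw [Finset.sum_image]
      · simp
      · intro a _ b _ hab
        exact (Sigma.mk.inj_iff.mp hab).2 |> eq_of_heq
    rw [h1]
    apply Finset.sum_le_sum_of_subset
    intro q hq
    rw [Finset.mem_image] at hq
    obtain ⟨a, ha, rfl⟩ := hq
    rw [Finset.mem_sigma]
    exact ⟨Finset.mem_univ _, (hi0 a ha).1⟩
  refine ⟨(S.filter (fun s => f s ≠ 0)).card, card_le_of_span S f _ hspan, ?_⟩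
  have h1 : (S.filter (fun s => f s ≠ 0)).card * l ≤ ∑ s ∈ S.filter (fun s => f s ≠ 0), Wt (f s) := by
    rw [← smul_eq_mul]
    apply Finset.card_nsmul_le_sum
    intro s hs
    rw [Finset.mem_filter] at hs
    exact girth _ (hfsol s hs.1) hs.2
  refine h1.trans ?_
  refine (Finset.sum_le_sum_of_subset (Finset.filter_subset _ _)).trans ?_
  rw [hS, Finset.sum_disjSum]
  have h2 : ∑ q ∈ univ.sigma L, Wt (f (Sum.inl q)) ≤
      ∑ q ∈ univ.sigma L, (if q.1 = i0 q.2 then 0 else 2 * w q.1 q.2) :=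
    Finset.sum_le_sum hbound1
  have h3 : ∑ q ∈ univ.sigma L, (if q.1 = i0 q.2 then 0 else 2 * w q.1 q.2) +
      2 * ∑ q ∈ univ.sigma L, (if q.1 = i0 q.2 then w q.1 q.2 else 0) =
      2 * ∑ q ∈ univ.sigma L, w q.1 q.2 := by
    rw [Finset.mul_sum, Finset.mul_sum, ← Finset.sum_add_distrib]
    apply Finset.sum_congr rfl
    intro q _
    split_ifs <;> simp
  have h4 : ∑ q ∈ univ.sigma L, w q.1 q.2 = ∑ i, ∑ a ∈ L i, w i a := by
    rw [Finset.sum_sigma]
  rw [h4] at h3
  omega

end Pool.Agent.Helper546Reg
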