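import Pool.Agent.Helper546_reg.Cog2

set_option linter.unusedSectionVars false
set_option linter.unusedSimpArgs false

namespace Pool.Agent.Helper546Reg

open Finset

universe u v

variable {Ω : Type u} [AddCommGroup Ω] [Module (ZMod 2) Ω]
variable {ι : Type v} [Fintype ι]

theorem box_card (L : ι → Finset Ω) (hcard : ∀ i, (L i).card ≤ 4) :
    {x : ι → Ω | ∀ i, x i ∈ L i}.ncard ≤ 4 ^ Fintype.card ι := by
  classical
  have : {x : ι → Ω | ∀ i, x i ∈ L i} = ↑(Fintype.piFinset L) := by
    ext x; simp
  rw [this, Set.ncard_coe_finset, Fintype.card_piFinset]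
  refine (Finset.prod_le_pow_card _ _ 4 fun i _ => hcard i).trans ?_
  rw [Finset.card_univ]

theorem choose_bound (n q : ℕ) : (n + q).choose q ≤ (n + 1) ^ q := by
  induction q with
  | zero => simp
  | succ q ih =>
    have h1 := Nat.add_one_mul_choose_eq (n + q) q
    -- (n + q + 1) * (n+q).choose q = (n+q+1).choose (q+1) * (q+1)
    have h2 : n + q + 1 ≤ (n + 1) * (q + 1) := by nlinarith
    have h3 : (n + (q + 1)).choose (q + 1) * (q + 1) ≤ (n + 1) ^ (q + 1) * (q + 1) := by
      have e : n + (q + 1) = n + q + 1 := rfl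
      rw [e, ← h1]
      calc (n + q + 1) * (n + q).choose q ≤ ((n + 1) * (q + 1)) * (n + 1) ^ q :=
            Nat.mul_le_mul h2 ih
        _ = (n + 1) ^ (q + 1) * (q + 1) := by ring
    exact Nat.le_of_mul_le_mul_right h3 (Nat.succ_pos q)

/-- Karger-type recursion. -/
theorem cog_count (A : Finset Ω) {K : Type} (e1 e2 : Ω → K) (hc : IsCog A e1 e2)
    (w : ι → Ω → ℕ) (l : ℕ) (w0 : ∀ i, w i 0 = 0) (p : ℕ) (d : ℕ) :
    ∀ L : ι → Finset Ω, (∀ i, IsPort (A : Set Ω) (L i)) →
      (∀ i, ∀ s ∈ L i, ∀ t ∈ L i, w i (s + t) ≤ w i s + w i t) →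
      (∀ y ∈ Sol L, y ≠ 0 → l ≤ ∑ i, w i (y i)) →
      (Sol L).ncard ≤ 2 ^ ((2 * p + 4) + d) →
      {y | y ∈ Sol L ∧ 2 * ∑ i, w i (y i) < (p + 2) * l}.ncard ≤
        2 ^ (2 * p + 4) * (d + (2 * p + 4)).choose (2 * p + 4) := by
  classical
  induction d with
  | zero =>
    intro L _ _ _ hcard
    refine (Set.ncard_le_ncard (fun y hy => hy.1) (finite_sol L)).trans ?_
    simpa using hcard
  | succ d ih =>
    intro L hL ww girth hcard
    set q := 2 * p + 4 with hq
    by_cases hsmall : (Sol L).ncard ≤ 2 ^ (q + d)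
    · refine (ih L hL ww girth hsmall).trans ?_
      apply Nat.mul_le_mul_left
      exact Nat.choose_le_choose _ (by omega)
    push Not at hsmall
    -- reduce the ports
    set L' : ι → Finset Ω := fun i => (L i).filter (fun a => ∃ y ∈ Sol L, y i = a) with hL'def
    have zero : ∀ i, (0 : Ω) ∈ L i := fun i => (hL i).zero_mem
    have add : ∀ i, ∀ s ∈ L i, ∀ t ∈ L i, s + t ∈ L i := fun i => (hL i).add_mem
    have hsub : ∀ i, L' i ⊆ L i := fun i => Finset.filter_subset _ _
    have hSol : Sol L' = Sol L := by
      ext y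
      constructor
      · intro hy
        exact ⟨fun i => hsub i (hy.1 i), hy.2⟩
      · intro hy
        refine ⟨fun i => ?_, hy.2⟩
        rw [hL'def, Finset.mem_filter]
        exact ⟨hy.1 i, y, hy, rfl⟩
    have hred : ∀ i, ∀ a ∈ L' i, ∃ y ∈ Sol L', y i = a := by
      intro i a ha
      rw [hL'def, Finset.mem_filter] at ha
      rw [hSol]; exact ha.2
    set A' : Finset Ω := A.filter (fun a => a ≠ 0 ∧ ∃ i, a ∈ L' i) with hA'
    have hport : ∀ i, IsPort (A' : Set Ω) (L' i) := by
      intro i
      refine ⟨?_, ?_, ?_, ?_⟩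
      · rw [hL'def, Finset.mem_filter]
        exact ⟨zero i, 0, zero_mem_sol zero, rfl⟩
      · intro s hs t ht
        rw [hL'def, Finset.mem_filter] at hs ht ⊢
        obtain ⟨hs1, y, hy, hys⟩ := hs
        obtain ⟨ht1, z, hz, hzt⟩ := ht
        refine ⟨add i _ hs1 _ ht1, y + z, add_mem_sol add hy hz, ?_⟩
        rw [Pi.add_apply, hys, hzt]
      · intro s hs hs0
        rw [hA', Finset.mem_coe, Finset.mem_filter]
        have h1 := (hL i).mem_of_ne _ (hsub i hs) hs0
        exact ⟨by exact_mod_cast h1, hs0, i, hs⟩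
      · exact (Finset.card_le_card (hsub i)).trans (hL i).card_le
    have zero' : ∀ i, (0 : Ω) ∈ L' i := fun i => (hport i).zero_mem
    have add' : ∀ i, ∀ s ∈ L' i, ∀ t ∈ L' i, s + t ∈ L' i := fun i => (hport i).add_mem
    have ww' : ∀ i, ∀ s ∈ L' i, ∀ t ∈ L' i, w i (s + t) ≤ w i s + w i t :=
      fun i s hs t ht => ww i s (hsub i hs) t (hsub i ht)
    have girth' : ∀ y ∈ Sol L', y ≠ 0 → l ≤ ∑ i, w i (y i) := by rw [hSol]; exact girth
    obtain ⟨n, hn1, hn2⟩ := dim_le A' _ _ (hc.restrict (Finset.filter_subset _ _)) L' hport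
      (fun a ha => (Finset.mem_filter.mp ha).2) w l w0 ww' girth'
    have hnq : q + d + 1 ≤ n := by
      by_contra hlt
      push Not at hlt
      have h1 : n ≤ q + d := by omega
      have h2 := Nat.pow_le_pow_right (n := 2) (by norm_num) h1
      rw [hSol] at hn1
      omega
    -- split the ports
    have hsplit : ∀ i, ∃ (H : Fin 3 → Finset Ω) (π : Fin 3 → ℕ),
        (∀ j, H j ⊆ L' i ∧ (0 : Ω) ∈ H j ∧ (∀ s ∈ H j, ∀ t ∈ H j, s + t ∈ H j) ∧
          (π j ≠ 0 → ∃ t ∈ L' i, t ∉ H j)) ∧
        (∀ t ∈ L' i, ∑ j, (if t ∈ H j then 0 else π j) = 2 * w i t) ∧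
        ∑ t ∈ L' i, w i t ≤ ∑ j, π j := fun i =>
      port_split (zero' i) (add' i) (hport i).card_le (w i) (w0 i) (ww' i)
    choose H π hH hπ hTot using hsplit
    set Tot := ∑ i, ∑ j, π i j with hTotdef
    have hTot1 : (q + d + 1) * l ≤ 2 * Tot := by
      refine (Nat.mul_le_mul_right l hnq).trans (hn2.trans ?_)
      apply Nat.mul_le_mul_left
      exact Finset.sum_le_sum fun i _ => hTot i
    set B := 2 ^ q * (d + q).choose q with hB
    set Sset := {y | y ∈ Sol L ∧ 2 * ∑ i, w i (y i) < (p + 2) * l} with hSset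
    have finS : Sset.Finite := finite_filter L _
    set S := finS.toFinset with hS
    have cardS : Sset.ncard = S.card := Set.ncard_eq_toFinset_card _ finS
    -- counts of subsystems
    have hcount : ∀ i j, π i j ≠ 0 → (S.filter (fun y => y i ∈ H i j)).card ≤ B := by
      intro i j hπij
      obtain ⟨hH1, hH2, hH3, hH4⟩ := hH i j
      obtain ⟨t, ht, htH⟩ := hH4 hπij
      obtain ⟨y0, hy0, hy0t⟩ := hred i t ht
      set M : ι → Finset Ω := fun k => if k = i then H i j else L' k with hM
      have hMi : M i = H i j := by simp [hM]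
      have hMk : ∀ k, k ≠ i → M k = L' k := fun k hk => by simp [hM, hk]
      have hMsub : ∀ k, M k ⊆ L' k := by
        intro k
        by_cases hk : k = i
        · subst hk; rw [hMi]; exact hH1
        · rw [hMk k hk]
      have hMport : ∀ k, IsPort (A : Set Ω) (M k) := by
        intro k
        have base : IsPort (A : Set Ω) (L' k) :=
          ⟨zero' k, add' k, fun s hs hs0 => (hL k).mem_of_ne _ (hsub k hs) hs0,
            (hport k).card_le⟩
        by_cases hk : k = i
        · subst hk
          rw [hMi]
          exact ⟨hH2, hH3, fun s hs hs0 => base.mem_of_ne s (hH1 hs) hs0,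
            (Finset.card_le_card hH1).trans base.card_le⟩
        · rw [hMk k hk]; exact base
      have hMsol : Sol M ⊆ Sol L' := fun y hy => ⟨fun k => hMsub k (hy.1 k), hy.2⟩
      have hMcard : (Sol M).ncard ≤ 2 ^ (q + d) := by
        -- translate by y0
        have h1 : (fun y => y + y0) '' Sol M ⊆ Sol L' \ Sol M := by
          rintro _ ⟨y, hy, rfl⟩
          refine ⟨add_mem_sol add' (hMsol hy) hy0, ?_⟩
          intro hmem
          have h2 := hmem.1 i
          have h3 := hy.1 i
          rw [hMi] at h2 h3
          have h4 := hH3 _ h3 _ h2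
          have h5 : y i + (y i + y0 i) = t := by
            rw [← add_assoc, add_self', zero_add, hy0t]
          exact htH (h5 ▸ h4)
        have h2 : ((fun y => y + y0) '' Sol M).ncard = (Sol M).ncard :=
          Set.ncard_image_of_injective _ (fun a b hab => add_right_cancel hab)
        have h3 := Set.ncard_le_ncard h1 ((finite_sol L').subset fun _ h => h.1)
        have h4 := Set.ncard_sdiff_add_ncard_of_subset hMsol (finite_sol L')
        rw [hSol] at h4 h3
        have h5 : 2 ^ (q + (d + 1)) = 2 * 2 ^ (q + d) := by ring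
        omega
      have := ih M hMport (fun k s hs t ht => ww' k s (hMsub k hs) t (hMsub k ht))
        (fun y hy hy0 => girth' y (hMsol hy) hy0) hMcard
      refine le_trans ?_ this
      rw [← Set.ncard_coe_finset]
      refine Set.ncard_le_ncard ?_ (finite_filter M _)
      intro y hy
      rw [Finset.mem_coe, Finset.mem_filter, hS, Set.Finite.mem_toFinset] at hy
      refine ⟨⟨fun k => ?_, hy.1.1.2⟩, hy.1.2⟩
      by_cases hk : k = i
      · subst hk; rw [hMi]; exact hy.2
      · rw [hMk k hk]
        have : y ∈ Sol L' := by rw [hSol]; exact hy.1.1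
        exact this.1 k
    -- double counting
    have hdc : S.card * Tot ≤ Tot * B + S.card * ((p + 2) * l) := by
      have h1 : ∀ y ∈ S, Tot ≤ ∑ i, ∑ j, (if y i ∈ H i j then π i j else 0) + (p + 2) * l := by
        intro y hy
        rw [hS, Set.Finite.mem_toFinset] at hy
        have hyL : y ∈ Sol L' := by rw [hSol]; exact hy.1
        have h2 : Tot = ∑ i, ∑ j, (if y i ∈ H i j then π i j else 0) +
            ∑ i, ∑ j, (if y i ∈ H i j then 0 else π i j) := by
          rw [hTotdef, ← Finset.sum_add_distrib]
          apply Finset.sum_congr rfl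
          intro i _
          rw [← Finset.sum_add_distrib]
          apply Finset.sum_congr rfl
          intro j _
          split_ifs <;> simp
        have h3 : ∑ i, ∑ j, (if y i ∈ H i j then 0 else π i j) = 2 * ∑ i, w i (y i) := by
          rw [Finset.mul_sum]
          exact Finset.sum_congr rfl fun i _ => hπ i (y i) (hyL.1 i)
        have h4 := hy.2
        omega
      calc S.card * Tot = ∑ _y ∈ S, Tot := by rw [Finset.sum_const, smul_eq_mul]
        _ ≤ ∑ y ∈ S, (∑ i, ∑ j, (if y i ∈ H i j then π i j else 0) + (p + 2) * l) :=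
            Finset.sum_le_sum h1
        _ = ∑ y ∈ S, ∑ i, ∑ j, (if y i ∈ H i j then π i j else 0) + S.card * ((p + 2) * l) := by
            rw [Finset.sum_add_distrib, Finset.sum_const, smul_eq_mul]
        _ = ∑ i, ∑ j, π i j * (S.filter (fun y => y i ∈ H i j)).card +
              S.card * ((p + 2) * l) := by
            congr 1
            rw [Finset.sum_comm]
            apply Finset.sum_congr rfl
            intro i _
            rw [Finset.sum_comm]
            apply Finset.sum_congr rfl
            intro j _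
            rw [← Finset.sum_filter, Finset.sum_const, smul_eq_mul, mul_comm]
        _ ≤ ∑ i, ∑ j, π i j * B + S.card * ((p + 2) * l) := by
            apply Nat.add_le_add_right
            apply Finset.sum_le_sum
            intro i _
            apply Finset.sum_le_sum
            intro j _
            by_cases h0 : π i j = 0
            · rw [h0]; simp
            · exact Nat.mul_le_mul_left _ (hcount i j h0)
        _ = Tot * B + S.card * ((p + 2) * l) := by
            rw [hTotdef, Finset.sum_mul]
            congr 1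
            apply Finset.sum_congr rfl
            intro i _
            rw [Finset.sum_mul]
    rw [cardS]
    rcases Nat.eq_zero_or_pos l with hl | hl
    · have : S.card = 0 := by
        rw [← cardS]
        have : Sset = ∅ := by
          rw [Set.eq_empty_iff_forall_notMem]
          rintro y ⟨_, hy⟩
          rw [hl] at hy; simp at hy
        rw [this]; simp
      rw [this]; exact Nat.zero_le _
    · have hTotpos : 0 < Tot := by
        have : 0 < (q + d + 1) * l := Nat.mul_pos (by omega) hl
        omega
      -- S.card * (d+1) ≤ B * (q+d+1)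
      have hfin : S.card * (d + 1) ≤ B * (q + d + 1) := by
        have e1 : 2 * (S.card * ((p + 2) * l)) = S.card * (q * l) := by rw [hq]; ring
        have h2 : S.card * (2 * Tot) ≤ 2 * Tot * B + S.card * (q * l) := by
          rw [← e1]; nlinarith
        have h3 : (q + d + 1) * (S.card * (2 * Tot)) ≤
            (q + d + 1) * (2 * Tot * B) + S.card * q * (2 * Tot) := by
          calc (q + d + 1) * (S.card * (2 * Tot))
              ≤ (q + d + 1) * (2 * Tot * B + S.card * (q * l)) := Nat.mul_le_mul_left _ h2
            _ = (q + d + 1) * (2 * Tot * B) + S.card * q * ((q + d + 1) * l) := by ring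
            _ ≤ _ := Nat.add_le_add_left (Nat.mul_le_mul_left _ hTot1) _
        have h4 : (2 * Tot) * (S.card * (d + 1)) ≤ (2 * Tot) * (B * (q + d + 1)) := by
          have e2 : (q + d + 1) * (S.card * (2 * Tot)) =
              (2 * Tot) * (S.card * (d + 1)) + S.card * q * (2 * Tot) := by ring
          have e3 : (q + d + 1) * (2 * Tot * B) = (2 * Tot) * (B * (q + d + 1)) := by ring
          omega
        exact Nat.le_of_mul_le_mul_left h4 (by omega)
      have hch : (d + 1 + q).choose q * (d + 1) = (d + q).choose q * (q + d + 1) := by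
        have h1 := Nat.choose_mul_succ_eq (d + q) q
        have e1 : d + q + 1 - q = d + 1 := by omega
        rw [e1] at h1
        have e2 : d + 1 + q = d + q + 1 := by omega
        have e3 : q + d + 1 = d + q + 1 := by omega
        rw [e2, e3]; exact h1.symm
      have h5 : S.card * (d + 1) ≤ (2 ^ q * (d + 1 + q).choose q) * (d + 1) := by
        rw [mul_assoc, hch, ← mul_assoc]; exact hfin
      exact Nat.le_of_mul_le_mul_right h5 (Nat.succ_pos d)

theorem good_cog (A : Finset Ω) {K : Type} (e1 e2 : Ω → K) (hc : IsCog A e1 e2)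
    {L : ι → Finset Ω} (h : ∀ i, IsPort (A : Set Ω) (L i)) :
    Good (FB (Fintype.card ι)) L := by
  have h1 : Good ((4 * Fintype.card ι + 2) ^ 6) L := by
    refine good_of_weight (fun i => (h i).add_mem) ?_
    intro w l w0 ww girth p hp
    have hcard : (Sol L).ncard ≤ 2 ^ ((2 * p + 4) + 2 * Fintype.card ι) := by
      refine (Set.ncard_le_ncard (fun y hy => hy.1) (finite_box L)).trans ?_
      refine (box_card L fun i => (h i).card_le).trans ?_
      have : (4 : ℕ) ^ Fintype.card ι = 2 ^ (2 * Fintype.card ι) := by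
        rw [pow_mul]; norm_num
      rw [this]
      exact Nat.pow_le_pow_right (by norm_num) (by omega)
    refine (cog_count A e1 e2 hc w l w0 p (2 * Fintype.card ι) L h ww girth hcard).trans ?_
    set N := Fintype.card ι
    calc 2 ^ (2 * p + 4) * (2 * N + (2 * p + 4)).choose (2 * p + 4)
        ≤ 2 ^ (2 * p + 4) * (2 * N + 1) ^ (2 * p + 4) :=
          Nat.mul_le_mul_left _ (choose_bound _ _)
      _ = (4 * N + 2) ^ (2 * p + 4) := by
          rw [← mul_pow]; congr 1; ring
      _ ≤ (4 * N + 2) ^ (6 * p) := Nat.pow_le_pow_right (by omega) (by omega)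
      _ = ((4 * N + 2) ^ 6) ^ p := by rw [pow_mul]
  refine h1.mono ?_
  unfold FB
  set N := Fintype.card ι
  have h2 : 4 * N + 2 ≤ 800 * max 1 (N - 2) := by omega
  calc (4 * N + 2) ^ 6 ≤ (800 * max 1 (N - 2)) ^ 6 := Nat.pow_le_pow_left h2 6
    _ ≤ _ := Nat.pow_le_pow_right (by omega) (by norm_num)

end Pool.Agent.Helper546Reg
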