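import Pool.Agent.Helper546_reg.Main

set_option linter.unusedSectionVars false
set_option linter.unusedSimpArgs false

namespace Pool.Agent.Helper546Reg

open Finset

universe u v

variable {Ω : Type u} [AddCommGroup Ω] [Module (ZMod 2) Ω]

theorem FB_le_pow {m : ℕ} (hm : 2 ≤ m) : FB m ≤ m ^ 165 := by
  unfold FB
  have h1 : 800 ≤ m ^ 10 := by
    calc 800 ≤ 2 ^ 10 := by norm_num
      _ ≤ m ^ 10 := Nat.pow_le_pow_left hm 10
  have h2 : max 1 (m - 2) ≤ m := by omega
  calc (800 * max 1 (m - 2)) ^ 15 ≤ (m ^ 10 * m) ^ 15 :=
        Nat.pow_le_pow_left (Nat.mul_le_mul h1 h2) 15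
    _ = m ^ 165 := by rw [← pow_succ, ← pow_mul]

/-- The number of zero-sum subfamilies of size at most `a` times the girth. -/
theorem count_zero_sum {E : Type v} [Fintype E] (x : E → Ω) (A : Set Ω) (hA : RegSet A)
    (hx : ∀ e, x e ≠ 0 → x e ∈ A) (hm : 2 ≤ Fintype.card E) (l : ℕ) (hl : 0 < l)
    (hgirth : ∀ X : Finset E, X.Nonempty → ∑ e ∈ X, x e = 0 → l ≤ X.card) (a : ℕ)
    (ha : 1 ≤ a) :
    {X : Finset E | ∑ e ∈ X, x e = 0 ∧ X.card ≤ a * l}.ncard ≤ Fintype.card E ^ (660 * a) := by
  classical
  set m := Fintype.card E with hmdef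
  by_cases hloop : ∃ e, x e = 0
  · obtain ⟨e, he⟩ := hloop
    have hl1 : l ≤ 1 := by
      have := hgirth {e} (Finset.singleton_nonempty e) (by simpa using he)
      simpa using this
    have hl' : l = 1 := by omega
    subst hl'
    have hsub : {X : Finset E | ∑ e ∈ X, x e = 0 ∧ X.card ≤ a * 1} ⊆
        ↑((univ : Finset E).powerset.filter (fun T => T.card ≤ a)) := by
      rintro X ⟨_, hX⟩
      rw [Finset.mem_coe, Finset.mem_filter, Finset.mem_powerset]
      exact ⟨Finset.subset_univ _, by omega⟩
    refine (Set.ncard_le_ncard hsub (Finset.finite_toSet _)).trans ?_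
    rw [Set.ncard_coe_finset]
    refine (card_small_subsets _ _).trans ?_
    rw [Finset.card_univ]
    calc (m + 1) ^ a ≤ (m ^ 2) ^ a := Nat.pow_le_pow_left (by nlinarith) a
      _ = m ^ (2 * a) := by rw [← pow_mul]
      _ ≤ m ^ (660 * a) := Nat.pow_le_pow_right (by omega) (by omega)
  · push Not at hloop
    set L : E → Finset Ω := fun e => {0, x e} with hL
    have hport : ∀ e, IsPort A (L e) := by
      intro e
      refine ⟨by simp [hL], ?_, ?_, ?_⟩
      · intro s hs t ht
        simp only [hL, Finset.mem_insert, Finset.mem_singleton] at hs ht ⊢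
        rcases hs with rfl | rfl <;> rcases ht with rfl | rfl <;> simp [add_self']
      · intro s hs hs0
        simp only [hL, Finset.mem_insert, Finset.mem_singleton] at hs
        rcases hs with rfl | rfl
        · exact absurd rfl hs0
        · exact hx e (hloop e)
      · exact (Finset.card_le_two).trans (by norm_num)
    set w : E → Ω → ℕ := fun _ t => if t = 0 then 0 else 1 with hw
    have hw0 : ∀ e, w e 0 = 0 := fun e => by simp [hw]
    have hww : ∀ e, ∀ s ∈ L e, ∀ t ∈ L e, w e (s + t) ≤ w e s + w e t := by
      intro e s _ t _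
      simp only [hw]
      by_cases hs : s = 0
      · simp [hs]
      · by_cases ht : t = 0
        · simp [ht]
        · by_cases hst : s + t = 0 <;> simp [hs, ht, hst]
    -- weight is the size of the support
    have hweight : ∀ y : E → Ω, ∑ e, w e (y e) = (univ.filter (fun e => y e ≠ 0)).card := by
      intro y
      rw [Finset.card_filter]
      apply Finset.sum_congr rfl
      intro e _
      by_cases h : y e = 0 <;> simp [hw, h]
    have hv : Valid L w w l :=
      { w0 := hw0
        ww := hww
        wc := hww
        girth := by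
          intro y hy hy0
          rw [hweight]
          apply hgirth
          · obtain ⟨e, he⟩ := Function.ne_iff.mp hy0
            exact ⟨e, by simpa using he⟩
          · have h1 : ∀ e ∈ univ.filter (fun e => y e ≠ 0), x e = y e := by
              intro e he
              have h2 := hy.1 e
              simp only [hL, Finset.mem_insert, Finset.mem_singleton] at h2
              rcases h2 with h2 | h2
              · exact absurd h2 (Finset.mem_filter.mp he).2
              · exact h2.symm
            rw [Finset.sum_congr rfl h1, Finset.sum_filter_ne_zero]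
            exact hy.2 }
    have H := hA.good E L hport w w l hv (4 * a - 1)
    refine le_trans (Set.ncard_le_ncard_of_injOn (fun X e => if e ∈ X then x e else 0) ?_ ?_
      (finite_filter L _)) (H.trans ?_)
    · rintro X ⟨hX0, hXc⟩
      refine ⟨⟨?_, ?_⟩, ?_⟩
      · intro e
        simp only [hL, Finset.mem_insert, Finset.mem_singleton]
        split_ifs
        · exact Or.inr rfl
        · exact Or.inl rfl
      · simp only
        rw [Finset.sum_ite_mem, Finset.univ_inter]
        exact hX0
      · rw [hweight]
        have : univ.filter (fun e => (if e ∈ X then x e else 0) ≠ 0) = X := by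
          ext e
          simp only [Finset.mem_filter, Finset.mem_univ, true_and]
          by_cases h : e ∈ X
          · simp [h, hloop e]
          · simp [h]
        rw [this]
        have e1 : 4 * a - 1 + 2 = 4 * a + 1 := by omega
        rw [e1]
        nlinarith
    · intro X _ Y _ hXY
      ext e
      have h1 := congrFun hXY e
      simp only at h1
      by_cases h2 : e ∈ X <;> by_cases h3 : e ∈ Y
      · simp [h2, h3]
      · rw [if_pos h2, if_neg h3] at h1; exact absurd h1 (hloop e)
      · rw [if_neg h2, if_pos h3] at h1; exact absurd h1.symm (hloop e)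
      · simp [h2, h3]
    · calc FB m ^ (4 * a - 1) ≤ (m ^ 165) ^ (4 * a - 1) := Nat.pow_le_pow_left (FB_le_pow hm) _
        _ = m ^ (165 * (4 * a - 1)) := by rw [← pow_mul]
        _ ≤ m ^ (660 * a) := Nat.pow_le_pow_right (by omega) (by omega)

end Pool.Agent.Helper546Reg
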