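import Mathlib

/-!
Ports, systems of ports, weights and the counting property `Good`.
-/

set_option linter.unusedSectionVars false

namespace Pool.Agent.Helper546Reg

open Finset

universe u v

variable {Ω : Type u} [AddCommGroup Ω] [Module (ZMod 2) Ω]

/-- A port of `A`: a subgroup (as a finset) of order at most four with nonzero elements in `A`. -/
structure IsPort (A : Set Ω) (P : Finset Ω) : Prop where
  zero_mem : (0 : Ω) ∈ P
  add_mem : ∀ s ∈ P, ∀ t ∈ P, s + t ∈ P
  mem_of_ne : ∀ s ∈ P, s ≠ 0 → s ∈ A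
  card_le : P.card ≤ 4

/-- Solutions of a system: `x i ∈ L i` with total sum zero. -/
def Sol {ι : Type v} [Fintype ι] (L : ι → Finset Ω) : Set (ι → Ω) :=
  {x | (∀ i, x i ∈ L i) ∧ ∑ i, x i = 0}

/-- A pair (costs `c`, weights `w`) which is admissible for the system. -/
structure Valid {ι : Type v} [Fintype ι] (L : ι → Finset Ω) (c w : ι → Ω → ℕ) (l : ℕ) : Prop where
  w0 : ∀ i, w i 0 = 0
  ww : ∀ i, ∀ s ∈ L i, ∀ t ∈ L i, w i (s + t) ≤ w i s + w i t
  wc : ∀ i, ∀ s ∈ L i, ∀ t ∈ L i, w i (s + t) ≤ c i s + c i t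
  girth : ∀ y ∈ Sol L, y ≠ 0 → l ≤ ∑ i, w i (y i)

/-- The counting property. -/
def Good {ι : Type v} [Fintype ι] (μ : ℕ) (L : ι → Finset Ω) : Prop :=
  ∀ (c w : ι → Ω → ℕ) (l : ℕ), Valid L c w l →
    ∀ p : ℕ, {x | x ∈ Sol L ∧ 4 * ∑ i, c i (x i) < (p + 2) * l}.ncard ≤ μ ^ p

section basics

variable {ι : Type v} [Fintype ι] {L : ι → Finset Ω}

theorem add_self' (x : Ω) : x + x = 0 := ZModModule.add_self x

theorem add_add_cancel' (x y : Ω) : x + y + y = x := by
  rw [add_assoc, add_self', add_zero]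

theorem eq_of_add_eq_zero' {x y : Ω} (h : x + y = 0) : x = y := by
  have : x + y + y = 0 + y := by rw [h]
  rwa [add_add_cancel', zero_add] at this

theorem finite_box (L : ι → Finset Ω) : {x : ι → Ω | ∀ i, x i ∈ L i}.Finite := by
  classical
  have : {x : ι → Ω | ∀ i, x i ∈ L i} = ↑(Fintype.piFinset L) := by
    ext x; simp
  rw [this]; exact Finset.finite_toSet _

theorem finite_sol (L : ι → Finset Ω) : (Sol L).Finite :=
  (finite_box L).subset fun _ hx => hx.1

theorem finite_filter (L : ι → Finset Ω) (P : (ι → Ω) → Prop) :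
    {x | x ∈ Sol L ∧ P x}.Finite :=
  (finite_sol L).subset fun _ hx => hx.1

theorem zero_mem_sol (h0 : ∀ i, (0 : Ω) ∈ L i) : (0 : ι → Ω) ∈ Sol L :=
  ⟨fun i => h0 i, by simp⟩

theorem add_mem_sol (h : ∀ i, ∀ s ∈ L i, ∀ t ∈ L i, s + t ∈ L i) {x y : ι → Ω}
    (hx : x ∈ Sol L) (hy : y ∈ Sol L) : x + y ∈ Sol L := by
  refine ⟨fun i => h i _ (hx.1 i) _ (hy.1 i), ?_⟩
  simp only [Pi.add_apply, Finset.sum_add_distrib, hx.2, hy.2, add_zero]

theorem fun_add_self (x : ι → Ω) : x + x = 0 := by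
  funext i; exact add_self' _

theorem fun_add_cancel (x y : ι → Ω) : x + y + y = x := by
  funext i; exact add_add_cancel' _ _

theorem fun_eq_of_add {x y : ι → Ω} (h : x + y = 0) : x = y := by
  funext i; exact eq_of_add_eq_zero' (congrFun h i)

/-- Uniqueness of very light solutions. -/
theorem card_zero (h : ∀ i, ∀ s ∈ L i, ∀ t ∈ L i, s + t ∈ L i) {c w : ι → Ω → ℕ} {l : ℕ}
    (hv : Valid L c w l) :
    {x | x ∈ Sol L ∧ 4 * ∑ i, c i (x i) < 2 * l}.ncard ≤ 1 := by
  rw [Set.ncard_le_one (finite_filter L _)]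
  rintro x ⟨hx, hxc⟩ y ⟨hy, hyc⟩
  by_contra hne
  have hz : x + y ≠ 0 := fun h0 => hne (fun_eq_of_add h0)
  have h1 := hv.girth _ (add_mem_sol h hx hy) hz
  have h2 : ∑ i, w i ((x + y) i) ≤ ∑ i, (c i (x i) + c i (y i)) :=
    Finset.sum_le_sum fun i _ => hv.wc i _ (hx.1 i) _ (hy.1 i)
  rw [Finset.sum_add_distrib] at h2
  omega

/-- It is enough to count solutions of small weight. -/
theorem good_of_weight {μ : ℕ} (h : ∀ i, ∀ s ∈ L i, ∀ t ∈ L i, s + t ∈ L i)
    (H : ∀ (w : ι → Ω → ℕ) (l : ℕ), (∀ i, w i 0 = 0) →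
      (∀ i, ∀ s ∈ L i, ∀ t ∈ L i, w i (s + t) ≤ w i s + w i t) →
      (∀ y ∈ Sol L, y ≠ 0 → l ≤ ∑ i, w i (y i)) →
      ∀ p : ℕ, 1 ≤ p → {y | y ∈ Sol L ∧ 2 * ∑ i, w i (y i) < (p + 2) * l}.ncard ≤ μ ^ p) :
    Good μ L := by
  intro c w l hv p
  rcases Nat.eq_zero_or_pos p with rfl | hp
  · simpa using card_zero h hv
  · have H1 := H w l hv.w0 hv.ww hv.girth p hp
    set S := {x | x ∈ Sol L ∧ 4 * ∑ i, c i (x i) < (p + 2) * l} with hS
    rcases S.eq_empty_or_nonempty with he | hne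
    · rw [he]; simp
    · obtain ⟨x0, hx0, hmin⟩ := Set.exists_min_image S (fun x => ∑ i, c i (x i))
        (finite_filter L _) hne
      refine le_trans (Set.ncard_le_ncard_of_injOn (fun x => x + x0) ?_ ?_
        (finite_filter L _)) H1
      · intro x hx
        refine ⟨add_mem_sol h hx.1 hx0.1, ?_⟩
        have h1 : ∑ i, w i ((x + x0) i) ≤ ∑ i, (c i (x i) + c i (x0 i)) :=
          Finset.sum_le_sum fun i _ => hv.wc i _ (hx.1.1 i) _ (hx0.1.1 i)
        rw [Finset.sum_add_distrib] at h1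
        have h2 := hmin x hx
        have h3 := hx.2
        omega
      · intro x _ y _ hxy
        exact add_right_cancel hxy

/-- Replacing the ports by smaller ones that carry the same solutions. -/
theorem good_of_shrink {μ : ℕ} {L' : ι → Finset Ω} (hsub : ∀ i, L' i ⊆ L i)
    (hsol : ∀ x ∈ Sol L, ∀ i, x i ∈ L' i) (hg : Good μ L') : Good μ L := by
  intro c w l hv p
  have hv' : Valid L' c w l :=
    { w0 := hv.w0
      ww := fun i s hs t ht => hv.ww i s (hsub i hs) t (hsub i ht)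
      wc := fun i s hs t ht => hv.wc i s (hsub i hs) t (hsub i ht)
      girth := fun y hy hy0 => hv.girth y ⟨fun i => hsub i (hy.1 i), hy.2⟩ hy0 }
  refine le_trans (Set.ncard_le_ncard ?_ (finite_filter L' _)) (hg c w l hv' p)
  rintro x ⟨hx, hxc⟩
  exact ⟨⟨hsol x hx, hx.2⟩, hxc⟩

theorem Good.mono {μ μ' : ℕ} (h : Good μ L) (hμ : μ ≤ μ') : Good μ' L :=
  fun c w l hv p => (h c w l hv p).trans (Nat.pow_le_pow_left hμ p)

/-- Transport along an equivalence of index types. -/
theorem good_equiv {κ : Type v} [Fintype κ] (e : κ ≃ ι) {μ : ℕ}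
    (hg : Good μ (fun k => L (e k))) : Good μ L := by
  intro c w l hv p
  have key : ∀ (g : ι → Ω → ℕ) (x : ι → Ω), ∑ k, g (e k) (x (e k)) = ∑ i, g i (x i) :=
    fun g x => e.sum_comp (fun i => g i (x i))
  have hsum : ∀ x : ι → Ω, ∑ k, x (e k) = ∑ i, x i := fun x => e.sum_comp x
  have hback : ∀ y : κ → Ω, y ∈ Sol (fun k => L (e k)) → (fun i => y (e.symm i)) ∈ Sol L := by
    intro y hy
    refine ⟨fun i => ?_, ?_⟩
    · have := hy.1 (e.symm i)
      simpa using this
    · rw [← hy.2]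
      exact e.symm.sum_comp y
  have hv' : Valid (fun k => L (e k)) (fun k => c (e k)) (fun k => w (e k)) l :=
    { w0 := fun k => hv.w0 _
      ww := fun k => hv.ww _
      wc := fun k => hv.wc _
      girth := by
        intro y hy hy0
        have h1 := hv.girth _ (hback y hy) (by
          intro h0
          apply hy0
          funext k
          have := congrFun h0 (e k)
          simpa using this)
        have h2 := key w (fun i => y (e.symm i))
        simp only [Equiv.symm_apply_apply] at h2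
        rw [← h2] at h1
        exact h1 }
  refine le_trans (Set.ncard_le_ncard_of_injOn (fun x k => x (e k)) ?_ ?_
    (finite_filter _ _)) (hg _ _ l hv' p)
  · intro x hx
    refine ⟨⟨fun k => hx.1.1 (e k), ?_⟩, ?_⟩
    · rw [hsum]; exact hx.1.2
    · have := key c x
      simp only
      rw [this]; exact hx.2
  · intro x _ y _ hxy
    funext i
    have := congrFun hxy (e.symm i)
    simpa using this

end basics

end Pool.Agent.Helper546Reg
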