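import Pool.Agent.Helper546_reg.Defs

set_option linter.unusedSectionVars false

namespace Pool.Agent.Helper546Reg

open Finset

universe u v

variable {Ω : Type u} [AddCommGroup Ω] [Module (ZMod 2) Ω]

/-- the system with one extra port -/
def extL {ι : Type v} (P : Finset Ω) (L : ι → Finset Ω) : Option ι → Finset Ω :=
  fun o => o.elim P L

/-- the function with one extra coordinate -/
def extF {ι : Type v} {β : Type*} (a : β) (x : ι → β) : Option ι → β := fun o => o.elim a x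

section one

variable {ι : Type v} [Fintype ι] {L : ι → Finset Ω}

/-- Counting in a fiber system with an additional port. -/
theorem count_ext {P : Finset Ω} {μ : ℕ} (hg : Good μ (extL P L))
    (cs ws : Ω → ℕ) (c w : ι → Ω → ℕ) (l : ℕ)
    (hws0 : ws 0 = 0) (hww : ∀ s ∈ P, ∀ t ∈ P, ws (s + t) ≤ ws s + ws t)
    (hwc : ∀ s ∈ P, ∀ t ∈ P, ws (s + t) ≤ cs s + cs t)
    (w0 : ∀ i, w i 0 = 0)
    (ww : ∀ i, ∀ s ∈ L i, ∀ t ∈ L i, w i (s + t) ≤ w i s + w i t)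
    (wc : ∀ i, ∀ s ∈ L i, ∀ t ∈ L i, w i (s + t) ≤ c i s + c i t)
    (girth : ∀ x : ι → Ω, (∀ i, x i ∈ L i) → ∑ i, x i ∈ P → x ≠ 0 →
      l ≤ ws (∑ i, x i) + ∑ i, w i (x i)) (p : ℕ) :
    {x : ι → Ω | (∀ i, x i ∈ L i) ∧ ∑ i, x i ∈ P ∧
      4 * (cs (∑ i, x i) + ∑ i, c i (x i)) < (p + 2) * l}.ncard ≤ μ ^ p := by
  have hv : Valid (extL P L) (extF cs c) (extF ws w) l :=
    { w0 := by
        intro o
        cases o with
        | none => exact hws0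
        | some i => exact w0 i
      ww := by
        intro o
        cases o with
        | none => exact hww
        | some i => exact ww i
      wc := by
        intro o
        cases o with
        | none => exact hwc
        | some i => exact wc i
      girth := by
        intro y hy hy0
        have hsum : y none + ∑ i, y (some i) = 0 := by
          have := hy.2
          rwa [Fintype.sum_option] at this
        have hs : y none = ∑ i, y (some i) := eq_of_add_eq_zero' hsum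
        have h1 := girth (fun i => y (some i)) (fun i => hy.1 (some i))
          (by rw [← hs]; exact hy.1 none) (by
            intro h0
            apply hy0
            have h2 : ∀ i, y (some i) = 0 := fun i => congrFun h0 i
            funext o
            cases o with
            | none => rw [hs]; simp [h2]
            | some i => exact h2 i)
        rw [Fintype.sum_option]
        rw [← hs] at h1
        exact h1 }
  refine le_trans (Set.ncard_le_ncard_of_injOn (fun x => extF (∑ i, x i) x) ?_ ?_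
    (finite_filter _ _)) (hg _ _ l hv p)
  · rintro x ⟨hx, hxP, hxc⟩
    refine ⟨⟨?_, ?_⟩, ?_⟩
    · intro o
      cases o with
      | none => exact hxP
      | some i => exact hx i
    · rw [Fintype.sum_option]
      exact add_self' _
    · rw [Fintype.sum_option]
      exact hxc
  · intro x _ y _ hxy
    funext i
    exact congrFun hxy (some i)

theorem exists_argmin (L : ι → Finset Ω) (g : (ι → Ω) → ℕ) :
    ∃ D : Ω → ι → Ω, ∀ (s : Ω) (x : ι → Ω), (∀ i, x i ∈ L i) → ∑ i, x i = s →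
      (∀ i, D s i ∈ L i) ∧ ∑ i, D s i = s ∧ g (D s) ≤ g x := by
  classical
  have : ∀ s : Ω, ∃ d : ι → Ω, ∀ x : ι → Ω, (∀ i, x i ∈ L i) → ∑ i, x i = s →
      (∀ i, d i ∈ L i) ∧ ∑ i, d i = s ∧ g d ≤ g x := by
    intro s
    by_cases h : ∃ x : ι → Ω, (∀ i, x i ∈ L i) ∧ ∑ i, x i = s
    · obtain ⟨d, hd, hmin⟩ := Set.exists_min_image
        {x : ι → Ω | (∀ i, x i ∈ L i) ∧ ∑ i, x i = s} g
        ((finite_box L).subset fun _ hx => hx.1) h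
      exact ⟨d, fun x hx hxs => ⟨hd.1, hd.2, hmin x ⟨hx, hxs⟩⟩⟩
    · exact ⟨0, fun x hx hxs => absurd ⟨x, hx, hxs⟩ h⟩
  choose D hD using this
  exact ⟨D, hD⟩

/-- Fiber count: number of light vectors with prescribed sum `s`. -/
theorem count_fiber {P : Finset Ω} {μ : ℕ} (hg : Good μ (extL P L))
    (c w : ι → Ω → ℕ) (l : ℕ)
    (w0 : ∀ i, w i 0 = 0)
    (ww : ∀ i, ∀ s ∈ L i, ∀ t ∈ L i, w i (s + t) ≤ w i s + w i t)
    (wc : ∀ i, ∀ s ∈ L i, ∀ t ∈ L i, w i (s + t) ≤ c i s + c i t)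
    (girth : ∀ y ∈ Sol L, y ≠ 0 → l ≤ ∑ i, w i (y i)) {s : Ω} (hs : s ∈ P) (p : ℕ) :
    {x : ι → Ω | (∀ i, x i ∈ L i) ∧ ∑ i, x i = s ∧
      4 * ∑ i, c i (x i) < (p + 2) * l}.ncard ≤ μ ^ p := by
  classical
  have H := count_ext hg (fun t => if t = s then 0 else l) (fun t => if t = 0 then 0 else l)
    c w l (by simp) ?_ ?_ w0 ww wc ?_ p
  · refine le_trans (Set.ncard_le_ncard ?_ ((finite_box L).subset fun _ hx => hx.1)) H
    rintro x ⟨hx, hxs, hxc⟩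
    refine ⟨hx, by rw [hxs]; exact hs, ?_⟩
    simp only [hxs, if_true, zero_add]
    exact hxc
  · intro a _ b _
    by_cases ha : a = 0
    · simp [ha]
    · by_cases hab : a + b = 0
      · simp [hab]
      · simp [ha, hab]
  · intro a _ b _
    by_cases hab : a + b = 0
    · simp [hab]
    · by_cases ha : a = s
      · by_cases hb : b = s
        · exact absurd (by rw [ha, hb]; exact add_self' s) hab
        · simp [hab, hb]
      · simp [ha, hab]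
  · intro x hx _ hx0
    by_cases h0 : ∑ i, x i = 0
    · have := girth x ⟨hx, h0⟩ hx0
      simp only [h0, if_true, zero_add]
      exact this
    · simp [h0]

end one

section two

variable {ι₁ ι₂ : Type v} [Fintype ι₁] [Fintype ι₂]
  {L₁ : ι₁ → Finset Ω} {L₂ : ι₂ → Finset Ω}

/-- Half of the count: the second component is the cheapest one in its fiber. -/
theorem count_half (zero2 : ∀ i, (0 : Ω) ∈ L₂ i)
    (add2 : ∀ i, ∀ s ∈ L₂ i, ∀ t ∈ L₂ i, s + t ∈ L₂ i)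
    (P0 : Finset Ω) (hP0 : (0 : Ω) ∈ P0) (hPadd : ∀ s ∈ P0, ∀ t ∈ P0, s + t ∈ P0)
    (hsep : ∀ x₁ : ι₁ → Ω, (∀ i, x₁ i ∈ L₁ i) → ∀ x₂ : ι₂ → Ω, (∀ i, x₂ i ∈ L₂ i) →
      ∑ i, x₁ i = ∑ i, x₂ i → ∑ i, x₁ i ∈ P0)
    {μ : ℕ} (hg : ∀ P : Finset Ω, P ⊆ P0 → (0 : Ω) ∈ P → (∀ s ∈ P, ∀ t ∈ P, s + t ∈ P) →
      Good μ (extL P L₁))
    (c₁ w₁ : ι₁ → Ω → ℕ) (c₂ w₂ : ι₂ → Ω → ℕ) (l : ℕ)
    (w0 : ∀ i, w₁ i 0 = 0)
    (ww : ∀ i, ∀ s ∈ L₁ i, ∀ t ∈ L₁ i, w₁ i (s + t) ≤ w₁ i s + w₁ i t)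
    (wc : ∀ i, ∀ s ∈ L₁ i, ∀ t ∈ L₁ i, w₁ i (s + t) ≤ c₁ i s + c₁ i t)
    (w0' : ∀ i, w₂ i 0 = 0)
    (ww' : ∀ i, ∀ s ∈ L₂ i, ∀ t ∈ L₂ i, w₂ i (s + t) ≤ w₂ i s + w₂ i t)
    (wc' : ∀ i, ∀ s ∈ L₂ i, ∀ t ∈ L₂ i, w₂ i (s + t) ≤ c₂ i s + c₂ i t)
    (girth : ∀ x₁ : ι₁ → Ω, (∀ i, x₁ i ∈ L₁ i) → ∀ x₂ : ι₂ → Ω, (∀ i, x₂ i ∈ L₂ i) →
      ∑ i, x₁ i = ∑ i, x₂ i → (x₁ ≠ 0 ∨ x₂ ≠ 0) → l ≤ ∑ i, w₁ i (x₁ i) + ∑ i, w₂ i (x₂ i))
    (D : Ω → ι₂ → Ω)
    (hD : ∀ (s : Ω) (x : ι₂ → Ω), (∀ i, x i ∈ L₂ i) → ∑ i, x i = s →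
      (∀ i, D s i ∈ L₂ i) ∧ ∑ i, D s i = s ∧ ∑ i, c₂ i (D s i) ≤ ∑ i, c₂ i (x i)) (p : ℕ) :
    {x : ι₁ → Ω | (∀ i, x i ∈ L₁ i) ∧ (∃ y : ι₂ → Ω, (∀ i, y i ∈ L₂ i) ∧ ∑ i, y i = ∑ i, x i) ∧
      4 * (∑ i, c₂ i (D (∑ i, x i) i) + ∑ i, c₁ i (x i)) < (p + 2) * l}.ncard ≤ μ ^ p := by
  classical
  obtain ⟨E, hE⟩ := exists_argmin L₂ (fun y => ∑ i, w₂ i (y i))
  set P : Finset Ω := P0.filter (fun s => ∃ y : ι₂ → Ω, (∀ i, y i ∈ L₂ i) ∧ ∑ i, y i = s)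
    with hP
  have hwsum : ∀ y z : ι₂ → Ω, (∀ i, y i ∈ L₂ i) → (∀ i, z i ∈ L₂ i) →
      ∑ i, w₂ i (E (∑ i, y i + ∑ i, z i) i) ≤ ∑ i, w₂ i (y i + z i) := by
    intro y z hy hz
    have := (hE (∑ i, y i + ∑ i, z i) (y + z) (fun i => add2 i _ (hy i) _ (hz i))
      (by simp [Finset.sum_add_distrib])).2.2
    simpa using this
  have H := count_ext (hg P (Finset.filter_subset _ _) ?_ ?_)
    (fun s => ∑ i, c₂ i (D s i)) (fun s => ∑ i, w₂ i (E s i)) c₁ w₁ l ?_ ?_ ?_ w0 ww wc ?_ p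
  · refine le_trans (Set.ncard_le_ncard ?_ ((finite_box L₁).subset fun _ hx => hx.1)) H
    rintro x ⟨hx, ⟨y, hy, hyx⟩, hxc⟩
    refine ⟨hx, ?_, hxc⟩
    rw [hP, Finset.mem_filter]
    exact ⟨hsep x hx y hy hyx.symm, y, hy, hyx⟩
  · rw [hP, Finset.mem_filter]
    exact ⟨hP0, 0, fun i => zero2 i, by simp⟩
  · intro s hs t ht
    rw [hP, Finset.mem_filter] at hs ht ⊢
    obtain ⟨hs1, y, hy, hys⟩ := hs
    obtain ⟨ht1, z, hz, hzt⟩ := ht
    refine ⟨hPadd s hs1 t ht1, y + z, fun i => add2 i _ (hy i) _ (hz i), ?_⟩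
    simp [Finset.sum_add_distrib, hys, hzt]
  · have h1 := (hE 0 0 (fun i => zero2 i) (by simp)).2.2
    have h2 : ∑ i, w₂ i ((0 : ι₂ → Ω) i) = 0 := Finset.sum_eq_zero fun i _ => w0' i
    rw [h2] at h1
    exact Nat.le_zero.mp h1
  · intro s hs t ht
    rw [hP, Finset.mem_filter] at hs ht
    obtain ⟨_, y, hy, hys⟩ := hs
    obtain ⟨_, z, hz, hzt⟩ := ht
    have a1 := hE s y hy hys
    have a2 := hE t z hz hzt
    have a3 := hwsum (E s) (E t) a1.1 a2.1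
    rw [a1.2.1, a2.2.1] at a3
    refine a3.trans ?_
    rw [← Finset.sum_add_distrib]
    exact Finset.sum_le_sum fun i _ => ww' i _ (a1.1 i) _ (a2.1 i)
  · intro s hs t ht
    rw [hP, Finset.mem_filter] at hs ht
    obtain ⟨_, y, hy, hys⟩ := hs
    obtain ⟨_, z, hz, hzt⟩ := ht
    have a1 := hD s y hy hys
    have a2 := hD t z hz hzt
    have a3 := hwsum (D s) (D t) a1.1 a2.1
    rw [a1.2.1, a2.2.1] at a3
    refine a3.trans ?_
    rw [← Finset.sum_add_distrib]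
    exact Finset.sum_le_sum fun i _ => wc' i _ (a1.1 i) _ (a2.1 i)
  · intro x hx hxP hx0
    rw [hP, Finset.mem_filter] at hxP
    obtain ⟨_, y, hy, hys⟩ := hxP
    have a1 := hE _ y hy hys
    have := girth x hx _ a1.1 a1.2.1.symm (Or.inl hx0)
    rw [add_comm]
    exact this

theorem arith_four {x y : ℕ} (hx : 4 ≤ x) (hy : 4 ≤ y) (n : ℕ) :
    x ^ (n + 2) + y ^ (n + 2) + 4 * (x + y) ^ (n + 1) ≤ (x + y) ^ (n + 2) := by
  induction n with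
  | zero =>
    have h1 : 4 * x ≤ y * x := Nat.mul_le_mul_right x hy
    have h2 : 4 * y ≤ x * y := Nat.mul_le_mul_right y hx
    have e : (x + y) ^ (0 + 2) = x ^ (0 + 2) + y ^ (0 + 2) + (y * x + x * y) := by ring
    have e2 : (x + y) ^ (0 + 1) = x + y := by ring
    rw [e, e2]
    omega
  | succ n ih =>
    have h1 : (x + y) ^ (n + 1 + 2) = (x + y) ^ (n + 2) * (x + y) := pow_succ _ _
    have h2 : (x + y) ^ (n + 1 + 1) = (x + y) ^ (n + 1) * (x + y) := pow_succ _ _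
    have h3 : x ^ (n + 1 + 2) = x ^ (n + 2) * x := pow_succ _ _
    have h4 : y ^ (n + 1 + 2) = y ^ (n + 2) * y := pow_succ _ _
    rw [h1, h2, h3, h4]
    have h5 := Nat.mul_le_mul_right (x + y) ih
    have h6 : 0 ≤ x ^ (n + 2) * y := Nat.zero_le _
    have h7 : 0 ≤ y ^ (n + 2) * x := Nat.zero_le _
    nlinarith

theorem sum_antidiagonal_le (x y n : ℕ) :
    ∑ m ∈ antidiagonal n, x ^ m.1 * y ^ m.2 ≤ (x + y) ^ n := by
  rw [(Commute.all x y).add_pow']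
  refine Finset.sum_le_sum fun m hm => ?_
  have : 0 < n.choose m.1 := Nat.choose_pos (by
    have := HasAntidiagonal.mem_antidiagonal.mp hm; omega)
  rw [smul_eq_mul]
  exact Nat.le_mul_of_pos_left _ this

/-- The fiber lemma. -/
theorem good_sum
    (zero1 : ∀ i, (0 : Ω) ∈ L₁ i) (add1 : ∀ i, ∀ s ∈ L₁ i, ∀ t ∈ L₁ i, s + t ∈ L₁ i)
    (zero2 : ∀ i, (0 : Ω) ∈ L₂ i) (add2 : ∀ i, ∀ s ∈ L₂ i, ∀ t ∈ L₂ i, s + t ∈ L₂ i)
    (P0 : Finset Ω) (hP0 : (0 : Ω) ∈ P0) (hPadd : ∀ s ∈ P0, ∀ t ∈ P0, s + t ∈ P0)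
    (hPcard : P0.card ≤ 4)
    (hsep : ∀ x₁ : ι₁ → Ω, (∀ i, x₁ i ∈ L₁ i) → ∀ x₂ : ι₂ → Ω, (∀ i, x₂ i ∈ L₂ i) →
      ∑ i, x₁ i = ∑ i, x₂ i → ∑ i, x₁ i ∈ P0)
    {μ₁ μ₂ : ℕ} (h4 : 4 ≤ μ₁) (h4' : 4 ≤ μ₂)
    (hg₁ : ∀ P : Finset Ω, P ⊆ P0 → (0 : Ω) ∈ P → (∀ s ∈ P, ∀ t ∈ P, s + t ∈ P) →
      Good μ₁ (extL P L₁))
    (hg₂ : ∀ P : Finset Ω, P ⊆ P0 → (0 : Ω) ∈ P → (∀ s ∈ P, ∀ t ∈ P, s + t ∈ P) →
      Good μ₂ (extL P L₂)) :
    Good (μ₁ + μ₂) (Sum.elim L₁ L₂) := by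
  classical
  intro c w l hv p
  have addS : ∀ i, ∀ s ∈ Sum.elim L₁ L₂ i, ∀ t ∈ Sum.elim L₁ L₂ i,
      s + t ∈ Sum.elim L₁ L₂ i := by
    intro i
    cases i with
    | inl i => exact add1 i
    | inr i => exact add2 i
  rcases Nat.eq_zero_or_pos p with rfl | hp
  · simpa using card_zero addS hv
  obtain ⟨n, rfl⟩ : ∃ n, p = n + 1 := ⟨p - 1, by omega⟩
  set c₁ : ι₁ → Ω → ℕ := fun i => c (Sum.inl i) with hc₁
  set c₂ : ι₂ → Ω → ℕ := fun i => c (Sum.inr i) with hc₂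
  set w₁ : ι₁ → Ω → ℕ := fun i => w (Sum.inl i) with hw₁
  set w₂ : ι₂ → Ω → ℕ := fun i => w (Sum.inr i) with hw₂
  have girth : ∀ x₁ : ι₁ → Ω, (∀ i, x₁ i ∈ L₁ i) → ∀ x₂ : ι₂ → Ω, (∀ i, x₂ i ∈ L₂ i) →
      ∑ i, x₁ i = ∑ i, x₂ i → (x₁ ≠ 0 ∨ x₂ ≠ 0) →
      l ≤ ∑ i, w₁ i (x₁ i) + ∑ i, w₂ i (x₂ i) := by
    intro x₁ hx₁ x₂ hx₂ he hne
    have := hv.girth (Sum.elim x₁ x₂) ⟨?_, ?_⟩ ?_
    · rw [Fintype.sum_sum_type] at this
      exact this
    · intro i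
      cases i with
      | inl i => exact hx₁ i
      | inr i => exact hx₂ i
    · rw [Fintype.sum_sum_type]
      simp only [Sum.elim_inl, Sum.elim_inr]
      rw [he]; exact add_self' _
    · intro h0
      rcases hne with hne | hne
      · apply hne; funext i; exact congrFun h0 (Sum.inl i)
      · apply hne; funext i; exact congrFun h0 (Sum.inr i)
  have girth' : ∀ x₂ : ι₂ → Ω, (∀ i, x₂ i ∈ L₂ i) → ∀ x₁ : ι₁ → Ω, (∀ i, x₁ i ∈ L₁ i) →
      ∑ i, x₂ i = ∑ i, x₁ i → (x₂ ≠ 0 ∨ x₁ ≠ 0) →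
      l ≤ ∑ i, w₂ i (x₂ i) + ∑ i, w₁ i (x₁ i) := by
    intro x₂ hx₂ x₁ hx₁ he hne
    have := girth x₁ hx₁ x₂ hx₂ he.symm hne.symm
    omega
  have g1 : ∀ y ∈ Sol L₁, y ≠ 0 → l ≤ ∑ i, w₁ i (y i) := by
    intro y hy hy0
    have := girth y hy.1 0 (fun i => zero2 i) (by rw [hy.2]; simp) (Or.inl hy0)
    have h2 : ∑ i, w₂ i ((0 : ι₂ → Ω) i) = 0 := Finset.sum_eq_zero fun i _ => hv.w0 _
    omega
  have g2 : ∀ y ∈ Sol L₂, y ≠ 0 → l ≤ ∑ i, w₂ i (y i) := by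
    intro y hy hy0
    have := girth 0 (fun i => zero1 i) y hy.1 (by rw [hy.2]; simp) (Or.inr hy0)
    have h2 : ∑ i, w₁ i ((0 : ι₁ → Ω) i) = 0 := Finset.sum_eq_zero fun i _ => hv.w0 _
    omega
  obtain ⟨D₁, hD₁⟩ := exists_argmin L₁ (fun y => ∑ i, c₁ i (y i))
  obtain ⟨D₂, hD₂⟩ := exists_argmin L₂ (fun y => ∑ i, c₂ i (y i))
  have half1 := count_half zero2 add2 P0 hP0 hPadd hsep hg₁ c₁ w₁ c₂ w₂ l
    (fun i => hv.w0 _) (fun i => hv.ww (Sum.inl i)) (fun i => hv.wc (Sum.inl i))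
    (fun i => hv.w0 _) (fun i => hv.ww (Sum.inr i)) (fun i => hv.wc (Sum.inr i))
    girth D₂ hD₂ (n + 1)
  have half2 := count_half zero1 add1 P0 hP0 hPadd
    (fun x₂ hx₂ x₁ hx₁ he => he ▸ hsep x₁ hx₁ x₂ hx₂ he.symm) hg₂ c₂ w₂ c₁ w₁ l
    (fun i => hv.w0 _) (fun i => hv.ww (Sum.inr i)) (fun i => hv.wc (Sum.inr i))
    (fun i => hv.w0 _) (fun i => hv.ww (Sum.inl i)) (fun i => hv.wc (Sum.inl i))
    girth' D₁ hD₁ (n + 1)
  set S := {x | x ∈ Sol (Sum.elim L₁ L₂) ∧ 4 * ∑ i, c i (x i) < (n + 1 + 2) * l} with hS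
  set res₁ : (ι₁ ⊕ ι₂ → Ω) → (ι₁ → Ω) := fun x i => x (Sum.inl i) with hres₁
  set res₂ : (ι₁ ⊕ ι₂ → Ω) → (ι₂ → Ω) := fun x i => x (Sum.inr i) with hres₂
  have facts : ∀ x ∈ S, (∀ i, res₁ x i ∈ L₁ i) ∧ (∀ i, res₂ x i ∈ L₂ i) ∧
      ∑ i, res₁ x i = ∑ i, res₂ x i ∧
      4 * (∑ i, c₁ i (res₁ x i) + ∑ i, c₂ i (res₂ x i)) < (n + 1 + 2) * l := by
    rintro x ⟨hx, hxc⟩
    refine ⟨fun i => hx.1 (Sum.inl i), fun i => hx.1 (Sum.inr i), ?_, ?_⟩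
    · have := hx.2
      rw [Fintype.sum_sum_type] at this
      exact eq_of_add_eq_zero' this
    · rw [Fintype.sum_sum_type] at hxc
      exact hxc
  have ext_res : ∀ x y : ι₁ ⊕ ι₂ → Ω, res₁ x = res₁ y → res₂ x = res₂ y → x = y := by
    intro x y h1 h2
    funext i
    cases i with
    | inl i => exact congrFun h1 i
    | inr i => exact congrFun h2 i
  have finS : S.Finite := finite_filter _ _
  set S₁ := {x ∈ S | res₂ x = D₂ (∑ i, res₂ x i)} with hS₁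
  set S₂ := {x ∈ S | res₁ x = D₁ (∑ i, res₁ x i)} with hS₂
  set S₃ := {x ∈ S | res₂ x ≠ D₂ (∑ i, res₂ x i) ∧ res₁ x ≠ D₁ (∑ i, res₁ x i)} with hS₃
  have hcover : S ⊆ S₁ ∪ (S₂ ∪ S₃) := by
    intro x hx
    by_cases h1 : res₂ x = D₂ (∑ i, res₂ x i)
    · exact Or.inl ⟨hx, h1⟩
    · by_cases h2 : res₁ x = D₁ (∑ i, res₁ x i)
      · exact Or.inr (Or.inl ⟨hx, h2⟩)
      · exact Or.inr (Or.inr ⟨hx, h1, h2⟩)
  have fin1 : S₁.Finite := finS.subset fun _ hx => hx.1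
  have fin2 : S₂.Finite := finS.subset fun _ hx => hx.1
  have fin3 : S₃.Finite := finS.subset fun _ hx => hx.1
  have cS : S.ncard ≤ S₁.ncard + (S₂.ncard + S₃.ncard) := by
    refine (Set.ncard_le_ncard hcover (fin1.union (fin2.union fin3))).trans ?_
    refine (Set.ncard_union_le _ _).trans ?_
    exact Nat.add_le_add_left (Set.ncard_union_le _ _) _
  have cS₁ : S₁.ncard ≤ μ₁ ^ (n + 1) := by
    refine le_trans (Set.ncard_le_ncard_of_injOn res₁ ?_ ?_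
      ((finite_box L₁).subset fun _ hx => hx.1)) half1
    · rintro x ⟨hxS, hx⟩
      obtain ⟨f1, f2, f3, f4⟩ := facts x hxS
      refine ⟨f1, ⟨res₂ x, f2, f3.symm⟩, ?_⟩
      have e : ∑ i, c₂ i (D₂ (∑ i, res₁ x i) i) = ∑ i, c₂ i (res₂ x i) := by
        rw [f3, ← hx]
      rw [e, add_comm (∑ i, c₂ i (res₂ x i))]
      exact f4
    · rintro x ⟨hxS, hx⟩ y ⟨hyS, hy⟩ hxy
      have hxy' : res₁ x = res₁ y := hxy
      refine ext_res x y hxy' ?_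
      rw [hx, hy, ← (facts x hxS).2.2.1, ← (facts y hyS).2.2.1, hxy']
  have cS₂ : S₂.ncard ≤ μ₂ ^ (n + 1) := by
    refine le_trans (Set.ncard_le_ncard_of_injOn res₂ ?_ ?_
      ((finite_box L₂).subset fun _ hx => hx.1)) half2
    · rintro x ⟨hxS, hx⟩
      obtain ⟨f1, f2, f3, f4⟩ := facts x hxS
      refine ⟨f2, ⟨res₁ x, f1, f3⟩, ?_⟩
      have e : ∑ i, c₁ i (D₁ (∑ i, res₂ x i) i) = ∑ i, c₁ i (res₁ x i) := by
        rw [← f3, ← hx]
      rw [e]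
      exact f4
    · rintro x ⟨hxS, hx⟩ y ⟨hyS, hy⟩ hxy
      have hxy' : res₂ x = res₂ y := hxy
      refine ext_res x y ?_ hxy'
      rw [hx, hy, (facts x hxS).2.2.1, (facts y hyS).2.2.1, hxy']
  -- the third part
  have half_cost₁ : ∀ x ∈ S₃, l ≤ 2 * ∑ i, c₁ i (res₁ x i) := by
    rintro x ⟨hxS, _, hx⟩
    obtain ⟨f1, f2, f3, f4⟩ := facts x hxS
    have d := hD₁ _ (res₁ x) f1 rfl
    have h1 := g1 (res₁ x + D₁ (∑ i, res₁ x i))
      ⟨fun i => add1 i _ (f1 i) _ (d.1 i), ?_⟩ (fun h0 => hx (fun_eq_of_add h0))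
    · have h2 : ∑ i, w₁ i ((res₁ x + D₁ (∑ i, res₁ x i)) i) ≤
          ∑ i, (c₁ i (res₁ x i) + c₁ i (D₁ (∑ i, res₁ x i) i)) :=
        Finset.sum_le_sum fun i _ => hv.wc (Sum.inl i) _ (f1 i) _ (d.1 i)
      rw [Finset.sum_add_distrib] at h2
      have h3 := d.2.2
      omega
    · simp only [Pi.add_apply, Finset.sum_add_distrib, d.2.1]
      exact add_self' _
  have half_cost₂ : ∀ x ∈ S₃, l ≤ 2 * ∑ i, c₂ i (res₂ x i) := by
    rintro x ⟨hxS, hx, _⟩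
    obtain ⟨f1, f2, f3, f4⟩ := facts x hxS
    have d := hD₂ _ (res₂ x) f2 rfl
    have h1 := g2 (res₂ x + D₂ (∑ i, res₂ x i))
      ⟨fun i => add2 i _ (f2 i) _ (d.1 i), ?_⟩ (fun h0 => hx (fun_eq_of_add h0))
    · have h2 : ∑ i, w₂ i ((res₂ x + D₂ (∑ i, res₂ x i)) i) ≤
          ∑ i, (c₂ i (res₂ x i) + c₂ i (D₂ (∑ i, res₂ x i) i)) :=
        Finset.sum_le_sum fun i _ => hv.wc (Sum.inr i) _ (f2 i) _ (d.1 i)
      rw [Finset.sum_add_distrib] at h2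
      have h3 := d.2.2
      omega
    · simp only [Pi.add_apply, Finset.sum_add_distrib, d.2.1]
      exact add_self' _
  rcases Nat.eq_zero_or_pos n with rfl | hn
  · -- `p = 1`: the third part is empty
    have hS₃e : S₃ = ∅ := by
      rw [Set.eq_empty_iff_forall_notMem]
      intro x hx
      have h1 := half_cost₁ x hx
      have h2 := half_cost₂ x hx
      have h3 := (facts x hx.1).2.2.2
      omega
    rw [hS₃e, Set.ncard_empty] at cS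
    simp only [zero_add, pow_one] at cS₁ cS₂ ⊢
    omega
  · obtain ⟨k, rfl⟩ : ∃ k, n = k + 1 := ⟨n - 1, by omega⟩
    set F₁ : Ω → ℕ → Set (ι₁ → Ω) := fun s j =>
      {x : ι₁ → Ω | (∀ i, x i ∈ L₁ i) ∧ ∑ i, x i = s ∧ 4 * ∑ i, c₁ i (x i) < (j + 2) * l}
      with hF₁
    set F₂ : Ω → ℕ → Set (ι₂ → Ω) := fun s j =>
      {x : ι₂ → Ω | (∀ i, x i ∈ L₂ i) ∧ ∑ i, x i = s ∧ 4 * ∑ i, c₂ i (x i) < (j + 2) * l}
      with hF₂
    have cF₁ : ∀ s ∈ P0, ∀ j, (F₁ s j).ncard ≤ μ₁ ^ j := fun s hs j =>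
      count_fiber (hg₁ P0 (Finset.Subset.refl _) hP0 hPadd) c₁ w₁ l (fun i => hv.w0 _)
        (fun i => hv.ww (Sum.inl i)) (fun i => hv.wc (Sum.inl i)) g1 hs j
    have cF₂ : ∀ s ∈ P0, ∀ j, (F₂ s j).ncard ≤ μ₂ ^ j := fun s hs j =>
      count_fiber (hg₂ P0 (Finset.Subset.refl _) hP0 hPadd) c₂ w₂ l (fun i => hv.w0 _)
        (fun i => hv.ww (Sum.inr i)) (fun i => hv.wc (Sum.inr i)) g2 hs j
    set G : Ω × (ℕ × ℕ) → Set (ι₁ ⊕ ι₂ → Ω) := fun q =>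
      {x | res₁ x ∈ F₁ q.1 q.2.1 ∧ res₂ x ∈ F₂ q.1 q.2.2} with hG
    have cG : ∀ q ∈ P0 ×ˢ antidiagonal (k + 1), (G q).ncard ≤ μ₁ ^ q.2.1 * μ₂ ^ q.2.2 := by
      intro q hq
      have hq1 := (Finset.mem_product.mp hq).1
      have f1 : (F₁ q.1 q.2.1).Finite := (finite_box L₁).subset fun _ hx => hx.1
      have f2 : (F₂ q.1 q.2.2).Finite := (finite_box L₂).subset fun _ hx => hx.1
      refine le_trans (Set.ncard_le_ncard_of_injOn (t := F₁ q.1 q.2.1 ×ˢ F₂ q.1 q.2.2)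
        (fun x => (res₁ x, res₂ x)) (fun x hx => ⟨hx.1, hx.2⟩) ?_ (f1.prod f2)) ?_
      · intro x _ y _ hxy
        have h := Prod.mk.inj hxy
        exact ext_res x y h.1 h.2
      · rw [Set.ncard_prod]
        exact Nat.mul_le_mul (cF₁ _ hq1 _) (cF₂ _ hq1 _)
    have hcov : S₃ ⊆ ⋃ q ∈ P0 ×ˢ antidiagonal (k + 1), G q := by
      intro x hx
      obtain ⟨f1, f2, f3, f4⟩ := facts x hx.1
      have h1 := half_cost₁ x hx
      have h2 := half_cost₂ x hx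
      have hl : 0 < l := by
        rcases Nat.eq_zero_or_pos l with h0 | h0
        · rw [h0] at f4; omega
        · exact h0
      set a := ∑ i, c₁ i (res₁ x i) with ha
      set b := ∑ i, c₂ i (res₂ x i) with hb
      obtain ⟨i, hi1, hi2⟩ : ∃ i, i * l ≤ 4 * a ∧ 4 * a < (i + 1) * l :=
        ⟨4 * a / l, Nat.div_mul_le_self _ _, by
          have := Nat.lt_div_mul_add (a := 4 * a) hl
          rw [add_mul, one_mul]; exact this⟩
      have hi3 : 2 ≤ i := by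
        by_contra hlt
        push Not at hlt
        have : (i + 1) * l ≤ 2 * l := Nat.mul_le_mul_right _ (by omega)
        omega
      obtain ⟨j, rfl⟩ : ∃ j, i = j + 1 := ⟨i - 1, by omega⟩
      have hi4 : j + 1 < k + 1 + 1 := by
        by_contra hge
        push Not at hge
        have h5 : (k + 1 + 1) * l ≤ (j + 1) * l := Nat.mul_le_mul_right _ hge
        have h6 : (k + 1 + 1 + 2) * l = (k + 1 + 1) * l + 2 * l := by ring
        omega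
      simp only [Set.mem_iUnion]
      refine ⟨(∑ i, res₁ x i, (j, k + 1 - j)), ?_, ?_⟩
      · rw [Finset.mem_product, HasAntidiagonal.mem_antidiagonal]
        exact ⟨hsep _ f1 _ f2 f3, by simp only; omega⟩
      · refine ⟨⟨f1, rfl, ?_⟩, ⟨f2, f3.symm, ?_⟩⟩
        · have : j + 1 + 1 = j + 2 := rfl
          rw [← this]; exact hi2
        · obtain ⟨m, hm⟩ : ∃ m, k + 1 = j + m := ⟨k + 1 - j, by omega⟩
          have hm' : k + 1 - j = m := by omega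
          change 4 * b < (k + 1 - j + 2) * l
          rw [hm']
          have h6 : (k + 1 + 1 + 2) * l = (m + 2) * l + (j + 1) * l := by
            rw [hm]; ring
          omega
    have cS₃ : S₃.ncard ≤ 4 * (μ₁ + μ₂) ^ (k + 1) := by
      have finU : (⋃ q ∈ P0 ×ˢ antidiagonal (k + 1), G q).Finite := by
        refine Set.Finite.subset (finite_box (Sum.elim L₁ L₂)) ?_
        intro x hx
        simp only [Set.mem_iUnion] at hx
        obtain ⟨q, _, hq⟩ := hx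
        intro i
        cases i with
        | inl i => exact hq.1.1 i
        | inr i => exact hq.2.1 i
      refine (Set.ncard_le_ncard hcov finU).trans ?_
      refine (Finset.set_ncard_biUnion_le _ _).trans ?_
      refine (Finset.sum_le_sum cG).trans ?_
      rw [Finset.sum_product]
      refine (Finset.sum_le_card_nsmul _ _ ((μ₁ + μ₂) ^ (k + 1)) fun s _ =>
        sum_antidiagonal_le μ₁ μ₂ (k + 1)).trans ?_
      rw [smul_eq_mul]
      exact Nat.mul_le_mul_right _ hPcard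
    have h5 := arith_four h4 h4' k
    have e1 : k + 1 + 1 = k + 2 := rfl
    rw [e1] at cS₁ cS₂ ⊢
    omega

end two

end Pool.Agent.Helper546Reg
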