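import Pool.Agent.Helper546_reg.BaseCases

set_option linter.unusedSectionVars false
set_option linter.unusedSimpArgs false

namespace Pool.Agent.Helper546Reg

open Finset

universe u

theorem Rep.circuit_subset_iff {α : Type u} {Ω : Type*} [AddCommGroup Ω] [Module (ZMod 2) Ω]
    {M : Matroid α} {x : α → Ω} (h : Rep M x) {D : Finset α}
    (hD : M.IsCircuit (D : Set α)) {S : Finset α} (hS : S ⊆ D) :
    ∑ e ∈ S, x e = 0 ↔ S = ∅ ∨ S = D := by
  constructor
  · intro hsum
    by_cases hne : S = ∅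
    · exact Or.inl hne
    · right
      have hSD : (S : Set α) ⊆ (D : Set α) := by exact_mod_cast hS
      have h2 : ¬ M.Indep (S : Set α) := by
        rw [h _ (hSD.trans hD.subset_ground)]
        intro h3
        exact hne (h3 S (subset_refl _) hsum)
      have h3 := hD.eq_of_not_indep_subset h2 hSD
      rwa [Finset.coe_inj] at h3
  · rintro (rfl | rfl)
    · simp
    · exact h.circuit_sum hD

theorem Rep.nonloop {α : Type u} {Ω : Type*} [AddCommGroup Ω] [Module (ZMod 2) Ω]
    {M : Matroid α} {x : α → Ω} (h : Rep M x) {p : α} (hp : M.IsNonloop p) : x p ≠ 0 := by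
  intro h0
  have h1 : M.Indep {p} := hp.indep
  rw [h _ h1.subset_ground] at h1
  have h2 := h1 {p} (by simp) (by simpa using h0)
  exact absurd h2 (Finset.singleton_ne_empty p)

theorem hasReg_sum {α : Type u} (M M₁ M₂ : Matroid α) (h₁ : HasReg M₁) (h₂ : HasReg M₂)
    (hE : M.E = symmDiff M₁.E M₂.E)
    (hT : M₁.E ∩ M₂.E = ∅ ∨
      (∃ p, M₁.E ∩ M₂.E = {p} ∧ M₁.IsNonloop p ∧ M₂.IsNonloop p) ∨
      (M₁.IsCircuit (M₁.E ∩ M₂.E) ∧ M₂.IsCircuit (M₁.E ∩ M₂.E) ∧ (M₁.E ∩ M₂.E).ncard = 3))
    (hC : ∀ C ⊆ M.E, (IsCycleSet M C ↔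
      ∃ C₁ C₂, IsCycleSet M₁ C₁ ∧ IsCycleSet M₂ C₂ ∧ C = symmDiff C₁ C₂)) : HasReg M := by
  classical
  obtain ⟨hfin₁, Ω₁, _, _, x₁, A₁, hA₁, hx₁, rep₁⟩ := h₁
  obtain ⟨hfin₂, Ω₂, _, _, x₂, A₂, hA₂, hx₂, rep₂⟩ := h₂
  have hTfin : (M₁.E ∩ M₂.E).Finite := hfin₁.subset Set.inter_subset_left
  set T : Finset α := hTfin.toFinset with hTdef
  have hTcoe : (T : Set α) = M₁.E ∩ M₂.E := hTfin.coe_toFinset
  have hT₁ : ∀ t ∈ T, t ∈ M₁.E := fun t ht => (hTfin.mem_toFinset.mp ht).1
  have hT₂ : ∀ t ∈ T, t ∈ M₂.E := fun t ht => (hTfin.mem_toFinset.mp ht).2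
  rw [← hTcoe] at hT
  have hcompat : Compat x₁ x₂ T := by
    intro S hS
    rcases hT with hT | ⟨p, hT, hp₁, hp₂⟩ | ⟨hT₁, hT₂, _⟩
    · have : T = ∅ := by exact_mod_cast hT
      rw [this] at hS
      have hS' : S = ∅ := Finset.subset_empty.mp hS
      rw [hS']; simp
    · have hTp : T = {p} := by exact_mod_cast hT
      rw [hTp] at hS
      rcases Finset.subset_singleton_iff.mp hS with rfl | rfl
      · simp
      · simp only [Finset.sum_singleton]
        exact ⟨fun h => absurd h (rep₁.nonloop hp₁), fun h => absurd h (rep₂.nonloop hp₂)⟩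
    · rw [rep₁.circuit_subset_iff hT₁ hS, rep₂.circuit_subset_iff hT₂ hS]
  have hcard : T.card ≤ 3 := by
    rcases hT with hT | ⟨p, hT, _, _⟩ | ⟨_, _, hT⟩
    · have : T = ∅ := by exact_mod_cast hT
      rw [this]; simp
    · have hTp : T = {p} := by exact_mod_cast hT
      rw [hTp]; simp
    · rw [Set.ncard_coe_finset] at hT
      omega
  have htri : ∀ s ∈ T, ∀ t ∈ T, s ≠ t → ∃ r ∈ T, x₁ s + x₁ t = x₁ r := by
    intro s hs t ht hst
    rcases hT with hT | ⟨p, hT, _, _⟩ | ⟨hT₁, _, hT⟩
    · have : T = ∅ := by exact_mod_cast hT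
      rw [this] at hs
      exact absurd hs (Finset.notMem_empty s)
    · have hTp : T = {p} := by exact_mod_cast hT
      rw [hTp, Finset.mem_singleton] at hs ht
      exact absurd (hs.trans ht.symm) hst
    · rw [Set.ncard_coe_finset] at hT
      have hts : t ∈ T.erase s := Finset.mem_erase.mpr ⟨hst.symm, ht⟩
      have hc : ((T.erase s).erase t).card = 1 := by
        rw [Finset.card_erase_of_mem hts, Finset.card_erase_of_mem hs]
        omega
      obtain ⟨r, hr⟩ := Finset.card_eq_one.mp hc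
      have hrT : r ∈ T := by
        have : r ∈ (T.erase s).erase t := by rw [hr]; exact Finset.mem_singleton_self r
        exact Finset.mem_of_mem_erase (Finset.mem_of_mem_erase this)
      refine ⟨r, hrT, ?_⟩
      have h1 : ∑ e ∈ T, x₁ e = 0 := rep₁.circuit_sum hT₁
      rw [← Finset.add_sum_erase T x₁ hs, ← Finset.add_sum_erase (T.erase s) x₁ hts, hr,
        Finset.sum_singleton, ← add_assoc] at h1
      exact eq_of_add_eq_zero' h1
  have hreg := RegSet.glue hA₁ hA₂ hcompat hcard (fun t ht => hx₁ t (hT₁ t ht))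
    (fun t ht => hx₂ t (hT₂ t ht)) htri
  set j₁ := inc₁ x₁ x₂ T with hj₁
  set j₂ := inc₂ x₁ x₂ T with hj₂
  set x : α → Glue x₁ x₂ T := fun e => if e ∈ M₁.E then j₁ (x₁ e) else j₂ (x₂ e) with hx
  have hxe₁ : ∀ e ∈ M₁.E, x e = j₁ (x₁ e) := fun e he => by simp [hx, he]
  have hxe₂ : ∀ e ∈ M₂.E, x e = j₂ (x₂ e) := by
    intro e he
    by_cases he1 : e ∈ M₁.E
    · rw [hxe₁ e he1]
      exact inc_eq_of_mem (hTfin.mem_toFinset.mpr ⟨he1, he⟩)
    · simp [hx, he1]
  have hsum₁ : ∀ F : Finset α, (F : Set α) ⊆ M₁.E → ∑ e ∈ F, x e = j₁ (∑ e ∈ F, x₁ e) := by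
    intro F hF
    rw [map_sum]
    exact Finset.sum_congr rfl fun e he => hxe₁ e (hF he)
  have hsum₂ : ∀ F : Finset α, (F : Set α) ⊆ M₂.E → ∑ e ∈ F, x e = j₂ (∑ e ∈ F, x₂ e) := by
    intro F hF
    rw [map_sum]
    exact Finset.sum_congr rfl fun e he => hxe₂ e (hF he)
  have hmemE : ∀ e ∈ M.E, (e ∈ M₁.E ∧ e ∉ M₂.E) ∨ (e ∈ M₂.E ∧ e ∉ M₁.E) := by
    intro e he
    rw [hE, Set.mem_symmDiff] at he
    exact he
  have hfin : M.E.Finite := (hfin₁.union hfin₂).subset (by
    intro e he
    rcases hmemE e he with h | h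
    · exact Or.inl h.1
    · exact Or.inr h.1)
  refine ⟨hfin, Glue x₁ x₂ T, inferInstance, inferInstance, x, _, hreg, ?_, ?_⟩
  · intro e he hne
    by_cases he1 : e ∈ M₁.E
    · rw [hxe₁ e he1] at hne ⊢
      left
      refine ⟨x₁ e, hx₁ e he1 ?_, rfl⟩
      intro h0; apply hne; rw [h0, map_zero]
    · have he2 : e ∈ M₂.E := by
        rcases hmemE e he with h | h
        · exact absurd h.1 he1
        · exact h.1
      rw [hxe₂ e he2] at hne ⊢
      right
      refine ⟨x₂ e, hx₂ e he2 ?_, rfl⟩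
      intro h0; apply hne; rw [h0, map_zero]
  · apply rep_of_cycle hfin
    intro C hCE
    rw [hC _ hCE]
    constructor
    · rintro ⟨C₁, C₂, hc₁, hc₂, hCC⟩
      have hf₁ : C₁.Finite := hfin₁.subset hc₁.subset_ground
      have hf₂ : C₂.Finite := hfin₂.subset hc₂.subset_ground
      have e₁ : (hf₁.toFinset : Set α) = C₁ := hf₁.coe_toFinset
      have e₂ : (hf₂.toFinset : Set α) = C₂ := hf₂.coe_toFinset
      have hCF : C = symmDiff hf₁.toFinset hf₂.toFinset := by
        rw [← Finset.coe_inj, Finset.coe_symmDiff, e₁, e₂]; exact hCC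
      rw [hCF, sum_symmDiff, hsum₁ _ (by rw [e₁]; exact hc₁.subset_ground),
        hsum₂ _ (by rw [e₂]; exact hc₂.subset_ground),
        (rep₁.cycle_iff _ (by rw [e₁]; exact hc₁.subset_ground)).mp (by rw [e₁]; exact hc₁),
        (rep₂.cycle_iff _ (by rw [e₂]; exact hc₂.subset_ground)).mp (by rw [e₂]; exact hc₂),
        map_zero, map_zero, add_zero]
    · intro hsum
      set C' := C.filter (fun e => e ∈ M₁.E) with hC'
      set C'' := C.filter (fun e => e ∉ M₁.E) with hC''
      have s₁ : (C' : Set α) ⊆ M₁.E := by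
        intro e he
        exact (Finset.mem_filter.mp (Finset.mem_coe.mp he)).2
      have s₂ : (C'' : Set α) ⊆ M₂.E := by
        intro e he
        have he' := Finset.mem_filter.mp (Finset.mem_coe.mp he)
        rcases hmemE e (hCE he'.1) with h | h
        · exact absurd h.1 he'.2
        · exact h.1
      rw [← Finset.sum_filter_add_sum_filter_not C (fun e => e ∈ M₁.E), hsum₁ _ s₁,
        hsum₂ _ s₂, hj₁, hj₂, inc_add_eq_zero] at hsum
      obtain ⟨S, hS, hS₁, hS₂⟩ := hsum
      have t₁ : ((symmDiff C' S : Finset α) : Set α) ⊆ M₁.E := by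
        intro e he
        rw [Finset.mem_coe, Finset.mem_symmDiff] at he
        rcases he with he | he
        · exact s₁ he.1
        · exact hT₁ e (hS he.1)
      have t₂ : ((symmDiff C'' S : Finset α) : Set α) ⊆ M₂.E := by
        intro e he
        rw [Finset.mem_coe, Finset.mem_symmDiff] at he
        rcases he with he | he
        · exact s₂ he.1
        · exact hT₂ e (hS he.1)
      refine ⟨((symmDiff C' S : Finset α) : Set α), ((symmDiff C'' S : Finset α) : Set α),
        (rep₁.cycle_iff _ t₁).mpr ?_, (rep₂.cycle_iff _ t₂).mpr ?_, ?_⟩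
      · rw [sum_symmDiff, hS₁, add_self']
      · rw [sum_symmDiff, hS₂, add_self']
      · rw [← Finset.coe_symmDiff, Finset.coe_inj]
        have h1 : symmDiff (symmDiff C' S) (symmDiff C'' S) = symmDiff C' C'' := by
          rw [symmDiff_comm C'' S, symmDiff_assoc, symmDiff_symmDiff_cancel_left]
        rw [h1]
        ext e
        simp only [Finset.mem_symmDiff, hC', hC'', Finset.mem_filter]
        tauto

theorem hasReg_iso {α β : Type u} (M : Matroid α) (N : Matroid β) (f : α → β)
    (hf : Set.BijOn f M.E N.E) (hI : ∀ I ⊆ M.E, (M.Indep I ↔ N.Indep (f '' I)))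
    (h : HasReg M) : HasReg N := by
  classical
  obtain ⟨hfin, Ω, _, _, x, A, hA, hx, rep⟩ := h
  set x' : β → Ω := fun y => if h : ∃ e, e ∈ M.E ∧ f e = y then x h.choose else 0 with hx'
  have hxf : ∀ e ∈ M.E, x' (f e) = x e := by
    intro e he
    have hex : ∃ e', e' ∈ M.E ∧ f e' = f e := ⟨e, he, rfl⟩
    simp only [hx', hex, dif_pos]
    have h1 := hex.choose_spec
    rw [hf.injOn h1.1 he h1.2]
  have hNfin : N.E.Finite := by
    rw [← hf.image_eq]; exact hfin.image f
  refine ⟨hNfin, Ω, inferInstance, inferInstance, x', A, hA, ?_, ?_⟩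
  · intro y hy hne
    obtain ⟨e, he, rfl⟩ := hf.surjOn hy
    rw [hxf e he] at hne ⊢
    exact hx e he hne
  · intro J hJ
    have hsub : M.E ∩ f ⁻¹' J ⊆ M.E := Set.inter_subset_left
    have himg : f '' (M.E ∩ f ⁻¹' J) = J := by
      ext y
      constructor
      · rintro ⟨e, he, rfl⟩
        exact he.2
      · intro hy
        obtain ⟨e, he, rfl⟩ := hf.surjOn (hJ hy)
        exact ⟨e, ⟨he, hy⟩, rfl⟩
    have h1 := hI _ hsub
    rw [himg] at h1
    rw [← h1, rep _ hsub]
    have himsum : ∀ S : Finset α, (S : Set α) ⊆ M.E →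
        ∑ y ∈ S.image f, x' y = ∑ e ∈ S, x e := by
      intro S hS
      rw [Finset.sum_image (fun a ha b hb hab => hf.injOn (hS ha) (hS hb) hab)]
      exact Finset.sum_congr rfl fun e he => hxf e (hS he)
    constructor
    · intro hz S' hS' hsum
      set S : Finset α := hfin.toFinset.filter (fun e => f e ∈ S') with hS
      have hSE : (S : Set α) ⊆ M.E := by
        intro e he
        exact hfin.mem_toFinset.mp (Finset.mem_filter.mp (Finset.mem_coe.mp he)).1
      have hSim : S.image f = S' := by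
        ext y
        rw [Finset.mem_image]
        constructor
        · rintro ⟨e, he, rfl⟩
          exact (Finset.mem_filter.mp he).2
        · intro hy
          obtain ⟨e, he, rfl⟩ := hf.surjOn (hJ (hS' hy))
          exact ⟨e, Finset.mem_filter.mpr ⟨hfin.mem_toFinset.mpr he, hy⟩, rfl⟩
      have h2 := hz S (fun e he => ⟨hSE he, hS' (by
        exact (Finset.mem_filter.mp (Finset.mem_coe.mp he)).2)⟩) (by
        rw [← himsum S hSE, hSim]; exact hsum)
      rw [← hSim, h2, Finset.image_empty]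
    · intro hz S hS hsum
      have hSE : (S : Set α) ⊆ M.E := hS.trans hsub
      have h2 := hz (S.image f) (by
        rw [Finset.coe_image]
        rintro _ ⟨e, he, rfl⟩
        exact (hS he).2) (by rw [himsum S hSE]; exact hsum)
      exact Finset.image_eq_empty.mp h2

theorem SeymourClass.hasReg {α : Type u} {M : Matroid α} (h : SeymourClass M) : HasReg M := by
  induction h with
  | graphic M hfin h => exact hasReg_graphic M hfin h
  | cographic M hfin h => exact hasReg_cographic M hfin h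
  | rankFive M hfin x h => exact hasReg_rankFive M hfin x h
  | sum M M₁ M₂ _ _ hE hT hC ih₁ ih₂ => exact hasReg_sum M M₁ M₂ ih₁ ih₂ hE hT hC
  | iso M N f hf hI _ ih => exact hasReg_iso M N f hf hI ih

/-- Counting circuits. -/
theorem count_circuits {α : Type u} (M : Matroid α) (h : SeymourClass M)
    (hm : 2 ≤ M.E.ncard) (l : ℕ) (hl : ∀ C, M.IsCircuit C → l ≤ C.ncard)
    (hl' : ∃ C, M.IsCircuit C ∧ C.ncard = l) (k : ℕ) (hk : 1 ≤ k) :
    {C | M.IsCircuit C ∧ C.ncard ≤ k * l}.ncard ≤ M.E.ncard ^ (660 * k) := by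
  classical
  obtain ⟨hfin, Ω, _, _, x, A, hA, hx, rep⟩ := h.hasReg
  have : Fintype M.E := hfin.fintype
  have hcardE : Fintype.card M.E = M.E.ncard := by
    rw [← Nat.card_eq_fintype_card]; rfl
  have hlpos : 0 < l := by
    obtain ⟨C, hC, rfl⟩ := hl'
    rw [Set.ncard_pos (hfin.subset hC.subset_ground)]
    exact hC.nonempty
  have hval : ∀ X : Finset M.E, ∑ e ∈ X.map ⟨Subtype.val, Subtype.val_injective⟩, x e =
      ∑ e ∈ X, x e.1 := fun X => by rw [Finset.sum_map]; rfl
  have hgirth : ∀ X : Finset M.E, X.Nonempty → ∑ e ∈ X, x e.1 = 0 → l ≤ X.card := by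
    intro X hX hsum
    rw [← hval] at hsum
    set Y := X.map ⟨Subtype.val, Subtype.val_injective⟩ with hY
    have hYE : (Y : Set α) ⊆ M.E := by
      intro e he
      obtain ⟨z, _, rfl⟩ := Finset.mem_map.mp (Finset.mem_coe.mp he)
      exact z.2
    have hYne : (Y : Set α).Nonempty := by
      rw [Finset.coe_nonempty, hY, Finset.map_nonempty]; exact hX
    obtain ⟨D, hDY, hD⟩ := ((rep.cycle_iff Y hYE).mpr hsum).exists_circuit hYne
    have h1 := hl D hD
    have h2 := Set.ncard_le_ncard hDY (Finset.finite_toSet Y)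
    rw [Set.ncard_coe_finset, hY, Finset.card_map] at h2
    omega
  have H := count_zero_sum (fun e : M.E => x e.1) A hA (fun e => hx e.1 e.2)
    (by rw [hcardE]; exact hm) l hlpos hgirth k hk
  rw [hcardE] at H
  refine le_trans (Set.ncard_le_ncard_of_injOn
    (fun C => (univ : Finset M.E).filter (fun e => e.1 ∈ C)) ?_ ?_ (Set.toFinite _)) H
  · rintro C ⟨hC, hCk⟩
    have hmap : ((((univ : Finset M.E).filter (fun e => e.1 ∈ C)).map
        ⟨Subtype.val, Subtype.val_injective⟩ : Finset α) : Set α) = C := by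
      ext e
      simp only [Finset.coe_map, Function.Embedding.coeFn_mk, Set.mem_image, Finset.mem_coe,
        Finset.mem_filter, Finset.mem_univ, true_and]
      constructor
      · rintro ⟨z, hz, rfl⟩
        exact hz
      · intro he
        exact ⟨⟨e, hC.subset_ground he⟩, he, rfl⟩
    refine ⟨?_, ?_⟩
    · rw [← hval]
      exact rep.circuit_sum (by rw [hmap]; exact hC)
    · have h1 : (((univ : Finset M.E).filter (fun e => e.1 ∈ C)).map
        ⟨Subtype.val, Subtype.val_injective⟩).card = C.ncard := by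
        rw [← Set.ncard_coe_finset, hmap]
      rw [Finset.card_map] at h1
      rw [h1]; exact hCk
  · rintro C ⟨hC, _⟩ C' ⟨hC', _⟩ hCC
    ext e
    constructor
    · intro he
      have h1 : (⟨e, hC.subset_ground he⟩ : M.E) ∈
          (univ : Finset M.E).filter (fun e => e.1 ∈ C) := by simpa using he
      have h2 : (univ : Finset M.E).filter (fun e => e.1 ∈ C) =
        (univ : Finset M.E).filter (fun e => e.1 ∈ C') := hCC
      rw [h2] at h1
      exact (Finset.mem_filter.mp h1).2
    · intro he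
      have h1 : (⟨e, hC'.subset_ground he⟩ : M.E) ∈
          (univ : Finset M.E).filter (fun e => e.1 ∈ C') := by simpa using he
      have h2 : (univ : Finset M.E).filter (fun e => e.1 ∈ C) =
        (univ : Finset M.E).filter (fun e => e.1 ∈ C') := hCC
      rw [← h2] at h1
      exact (Finset.mem_filter.mp h1).2

end Pool.Agent.Helper546Reg
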