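import Pool.Agent.Helper546_reg.Fiber
import Pool.Agent.Helper546_reg.Cog3

set_option linter.unusedSectionVars false
set_option linter.unusedSimpArgs false

namespace Pool.Agent.Helper546Reg

open Finset

universe u v

variable {Ω : Type u} [AddCommGroup Ω] [Module (ZMod 2) Ω]

/-- Sets of vectors over the field with two elements which are built from graphic sets,
cographic sets and sets of rank at most five by gluing along at most a line. -/
inductive RegSet : Set Ω → Prop
  | graphic (A : Set Ω) (W : Type) (φ : Ω →+ (W →₀ ZMod 2))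
      (hinj : ∀ x ∈ AddSubgroup.closure A, φ x = 0 → x = 0)
      (hA : ∀ a ∈ A, (φ a).support.card ≤ 2) : RegSet A
  | cographic (A : Finset Ω) (K : Type) (e1 e2 : Ω → K)
      (h : IsCog A e1 e2) : RegSet (A : Set Ω)
  | small (A : Set Ω) (T : Finset Ω) (hT : T.card ≤ 32)
      (h : ∀ x ∈ AddSubgroup.closure A, x ∈ T) : RegSet A
  | sum (A₁ A₂ : Set Ω) (P0 : Finset Ω) (h₁ : RegSet A₁) (h₂ : RegSet A₂)
      (h0 : (0 : Ω) ∈ P0) (hadd : ∀ s ∈ P0, ∀ t ∈ P0, s + t ∈ P0) (hcard : P0.card ≤ 4)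
      (hmem : ∀ s ∈ P0, s ≠ 0 → s ∈ A₁ ∧ s ∈ A₂)
      (hsep : ∀ x ∈ AddSubgroup.closure A₁, x ∈ AddSubgroup.closure A₂ → x ∈ P0) :
      RegSet (A₁ ∪ A₂)
  | subset (A B : Set Ω) (h : RegSet A) (hBA : B ⊆ A) : RegSet B

theorem IsPort.subset {A B : Set Ω} {P : Finset Ω} (h : IsPort B P) (hBA : B ⊆ A) :
    IsPort A P :=
  ⟨h.zero_mem, h.add_mem, fun s hs hs0 => hBA (h.mem_of_ne s hs hs0), h.card_le⟩

theorem port_or {A₁ A₂ : Set Ω} {P0 : Finset Ω}
    (hmem : ∀ s ∈ P0, s ≠ 0 → s ∈ A₁ ∧ s ∈ A₂)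
    (hsep : ∀ x ∈ AddSubgroup.closure A₁, x ∈ AddSubgroup.closure A₂ → x ∈ P0)
    {P : Finset Ω} (h : IsPort (A₁ ∪ A₂) P) : IsPort A₁ P ∨ IsPort A₂ P := by
  by_cases h1 : ∀ s ∈ P, s ≠ 0 → s ∈ A₁
  · exact Or.inl ⟨h.zero_mem, h.add_mem, h1, h.card_le⟩
  · right
    push Not at h1
    obtain ⟨a, ha, ha0, ha1⟩ := h1
    have ha2 : a ∈ A₂ := (h.mem_of_ne a ha ha0).resolve_left ha1
    refine ⟨h.zero_mem, h.add_mem, ?_, h.card_le⟩
    intro b hb hb0
    by_contra hb2
    have hb1 : b ∈ A₁ := (h.mem_of_ne b hb hb0).resolve_right hb2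
    have hab : a + b ≠ 0 := by
      intro h0
      have := eq_of_add_eq_zero' h0
      exact hb2 (this ▸ ha2)
    have hc1 : ∀ x ∈ A₁, x ∈ AddSubgroup.closure A₁ := fun x hx => AddSubgroup.subset_closure hx
    have hc2 : ∀ x ∈ A₂, x ∈ AddSubgroup.closure A₂ := fun x hx => AddSubgroup.subset_closure hx
    rcases h.mem_of_ne _ (h.add_mem a ha b hb) hab with hc | hc
    · have h3 : a ∈ AddSubgroup.closure A₁ := by
        have h4 : a + b + b ∈ AddSubgroup.closure A₁ := add_mem (hc1 _ hc) (hc1 _ hb1)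
        rwa [add_add_cancel'] at h4
      exact ha1 (hmem a (hsep a h3 (hc2 _ ha2)) ha0).1
    · have h3 : b ∈ AddSubgroup.closure A₂ := by
        have h4 : b + a + a ∈ AddSubgroup.closure A₂ :=
          add_mem (by rw [add_comm b a]; exact hc2 _ hc) (hc2 _ ha2)
        rwa [add_add_cancel'] at h4
      exact hb2 (hmem b (hsep b (hc1 _ hb1) h3) hb0).2

theorem FB_mono {m n : ℕ} (h : m ≤ n) : FB m ≤ FB n := by
  unfold FB
  apply Nat.pow_le_pow_left
  omega

theorem FB_four (n : ℕ) : 4 ≤ FB n := by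
  unfold FB
  calc 4 ≤ (4 : ℕ) ^ 15 := by norm_num
    _ ≤ _ := Nat.pow_le_pow_left (by omega) 15

theorem FB_add {m n : ℕ} (hm : 2 ≤ m) (hn : 2 ≤ n) : FB (m + 1) + FB (n + 1) ≤ FB (m + n) := by
  unfold FB
  have e1 : max 1 (m + 1 - 2) = m - 1 := by omega
  have e2 : max 1 (n + 1 - 2) = n - 1 := by omega
  have e3 : max 1 (m + n - 2) = (m - 1) + (n - 1) := by omega
  rw [e1, e2, e3, mul_add]
  exact pow_add_pow_le (Nat.zero_le _) (Nat.zero_le _) (by norm_num)

/-- If at most one port does not belong to `A₁`, it may be cut down. -/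
theorem good_one_side {ι : Type v} [Fintype ι] {A₁ A₂ : Set Ω} {P0 : Finset Ω}
    (h0 : (0 : Ω) ∈ P0) (hadd : ∀ s ∈ P0, ∀ t ∈ P0, s + t ∈ P0) (hcard : P0.card ≤ 4)
    (hmem : ∀ s ∈ P0, s ≠ 0 → s ∈ A₁)
    (hsep : ∀ x ∈ AddSubgroup.closure A₁, x ∈ AddSubgroup.closure A₂ → x ∈ P0)
    (L : ι → Finset Ω) (hL : ∀ i, IsPort A₁ (L i) ∨ IsPort A₂ (L i))
    (hone : ∀ i j, ¬ IsPort A₁ (L i) → ¬ IsPort A₁ (L j) → i = j) {μ : ℕ}
    (H : ∀ L' : ι → Finset Ω, (∀ i, IsPort A₁ (L' i)) → Good μ L') : Good μ L := by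
  classical
  set L' : ι → Finset Ω := fun i => if IsPort A₁ (L i) then L i else (L i).filter (fun s => s ∈ P0)
    with hL'
  have hsub : ∀ i, L' i ⊆ L i := by
    intro i
    simp only [hL']
    split_ifs
    · exact Finset.Subset.refl _
    · exact Finset.filter_subset _ _
  refine good_of_shrink hsub ?_ (H L' ?_)
  · intro x hx i
    simp only [hL']
    split_ifs with h
    · exact hx.1 i
    · rw [Finset.mem_filter]
      refine ⟨hx.1 i, ?_⟩
      have h2 : IsPort A₂ (L i) := (hL i).resolve_left h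
      apply hsep _ _ (port_mem_closure h2 (hx.1 i))
      have h3 : x i = ∑ j ∈ univ.erase i, x j := by
        have h4 := hx.2
        rw [← Finset.add_sum_erase _ _ (Finset.mem_univ i)] at h4
        exact eq_of_add_eq_zero' h4
      rw [h3]
      apply sum_mem
      intro j hj
      have hji : j ≠ i := Finset.ne_of_mem_erase hj
      have h5 : IsPort A₁ (L j) := by
        by_contra h6
        exact hji (hone j i h6 h)
      exact port_mem_closure h5 (hx.1 j)
  · intro i
    simp only [hL']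
    split_ifs with h
    · exact h
    · have h2 : IsPort A₂ (L i) := (hL i).resolve_left h
      refine ⟨?_, ?_, ?_, ?_⟩
      · rw [Finset.mem_filter]; exact ⟨h2.zero_mem, h0⟩
      · intro s hs t ht
        rw [Finset.mem_filter] at hs ht ⊢
        exact ⟨h2.add_mem s hs.1 t ht.1, hadd s hs.2 t ht.2⟩
      · intro s hs hs0
        rw [Finset.mem_filter] at hs
        exact hmem s hs.2 hs0
      · exact (Finset.card_le_card (Finset.filter_subset _ _)).trans h2.card_le

/-- The main counting theorem. -/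
theorem RegSet.good {A : Set Ω} (hA : RegSet A) :
    ∀ (ι : Type v) [Fintype ι] (L : ι → Finset Ω), (∀ i, IsPort A (L i)) →
      Good (FB (Fintype.card ι)) L := by
  classical
  induction hA with
  | graphic A W φ hinj hA =>
    intro ι _ L hL
    exact good_graphic φ hinj hA hL
  | cographic A K e1 e2 h =>
    intro ι _ L hL
    exact good_cog A e1 e2 h hL
  | small A T hT h =>
    intro ι _ L hL
    exact good_small T hT h hL
  | subset A B h hBA ih =>
    intro ι _ L hL
    exact ih ι L fun i => (hL i).subset hBA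
  | sum A₁ A₂ P0 h₁ h₂ h0 hadd hcard hmem hsep ih₁ ih₂ =>
    intro ι _ L hL
    have hor : ∀ i, IsPort A₁ (L i) ∨ IsPort A₂ (L i) := fun i => port_or hmem hsep (hL i)
    set p : ι → Prop := fun i => IsPort A₁ (L i) with hp
    set n₁ := Fintype.card {i // p i} with hn₁
    set n₂ := Fintype.card {i // ¬ p i} with hn₂
    have hn : n₁ + n₂ = Fintype.card ι := by
      rw [hn₁, hn₂, ← Fintype.card_sum]
      exact Fintype.card_congr (Equiv.sumCompl p)
    by_cases hsmall2 : n₂ ≤ 1
    · -- at most one port outside A₁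
      refine good_one_side (A₁ := A₁) (A₂ := A₂) h0 hadd hcard (fun s hs hs0 => (hmem s hs hs0).1)
        hsep L hor ?_ (fun L' hL' => ih₁ ι L' hL')
      intro i j hi hj
      have := Fintype.card_le_one_iff.mp hsmall2 ⟨i, hi⟩ ⟨j, hj⟩
      exact congrArg Subtype.val this
    by_cases hsmall1 : n₁ ≤ 1
    · refine good_one_side (A₁ := A₂) (A₂ := A₁) h0 hadd hcard (fun s hs hs0 => (hmem s hs hs0).2)
        (fun x hx hx' => hsep x hx' hx) L (fun i => (hor i).symm) ?_ (fun L' hL' => ih₂ ι L' hL')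
      intro i j hi hj
      have hi' : p i := (hor i).resolve_right hi
      have hj' : p j := (hor j).resolve_right hj
      have := Fintype.card_le_one_iff.mp hsmall1 ⟨i, hi'⟩ ⟨j, hj'⟩
      exact congrArg Subtype.val this
    push Not at hsmall1 hsmall2
    set L₁ : {i // p i} → Finset Ω := fun i => L i.1 with hL₁
    set L₂ : {i // ¬ p i} → Finset Ω := fun i => L i.1 with hL₂
    have port1 : ∀ i, IsPort A₁ (L₁ i) := fun i => i.2
    have port2 : ∀ i, IsPort A₂ (L₂ i) := fun i => (hor i.1).resolve_left i.2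
    have hsep' : ∀ x₁ : {i // p i} → Ω, (∀ i, x₁ i ∈ L₁ i) →
        ∀ x₂ : {i // ¬ p i} → Ω, (∀ i, x₂ i ∈ L₂ i) →
        ∑ i, x₁ i = ∑ i, x₂ i → ∑ i, x₁ i ∈ P0 := by
      intro x₁ hx₁ x₂ hx₂ he
      refine hsep _ (sum_mem_closure port1 hx₁ univ) ?_
      rw [he]
      exact sum_mem_closure port2 hx₂ univ
    have good1 : ∀ P : Finset Ω, P ⊆ P0 → (0 : Ω) ∈ P → (∀ s ∈ P, ∀ t ∈ P, s + t ∈ P) →
        Good (FB (n₁ + 1)) (extL P L₁) := by
      intro P hP hP0 hPadd
      have hport : IsPort A₁ P := ⟨hP0, hPadd, fun s hs hs0 => (hmem s (hP hs) hs0).1,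
        (Finset.card_le_card hP).trans hcard⟩
      have := ih₁ (Option {i // p i}) (extL P L₁) (by
        intro o
        cases o with
        | none => exact hport
        | some i => exact port1 i)
      rwa [Fintype.card_option] at this
    have good2 : ∀ P : Finset Ω, P ⊆ P0 → (0 : Ω) ∈ P → (∀ s ∈ P, ∀ t ∈ P, s + t ∈ P) →
        Good (FB (n₂ + 1)) (extL P L₂) := by
      intro P hP hP0 hPadd
      have hport : IsPort A₂ P := ⟨hP0, hPadd, fun s hs hs0 => (hmem s (hP hs) hs0).2,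
        (Finset.card_le_card hP).trans hcard⟩
      have := ih₂ (Option {i // ¬ p i}) (extL P L₂) (by
        intro o
        cases o with
        | none => exact hport
        | some i => exact port2 i)
      rwa [Fintype.card_option] at this
    have hgs := good_sum (fun i => (port1 i).zero_mem) (fun i => (port1 i).add_mem)
      (fun i => (port2 i).zero_mem) (fun i => (port2 i).add_mem) P0 h0 hadd hcard hsep'
      (FB_four _) (FB_four _) good1 good2
    have hgs2 : Good (FB (Fintype.card ι)) (Sum.elim L₁ L₂) := by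
      refine hgs.mono ?_
      rw [← hn]
      exact FB_add hsmall1 hsmall2
    refine good_equiv (Equiv.sumCompl p) ?_
    have : (fun k => L ((Equiv.sumCompl p) k)) = Sum.elim L₁ L₂ := by
      funext k
      cases k with
      | inl i => simp [hL₁]
      | inr i => simp [hL₂]
    rw [this]
    exact hgs2

end Pool.Agent.Helper546Reg
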