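import Pool.Agent.Helper546_reg.Seymour

set_option linter.unusedSectionVars false
set_option linter.unusedSimpArgs false

namespace Pool.Agent.Helper546Reg

open Finset

universe u

section map

variable {Ω Ω' : Type u} [AddCommGroup Ω] [Module (ZMod 2) Ω] [AddCommGroup Ω']
  [Module (ZMod 2) Ω']

theorem mem_closure_image {j : Ω →ₗ[ZMod 2] Ω'} {A : Set Ω} {y : Ω'}
    (hy : y ∈ AddSubgroup.closure (j '' A)) : ∃ x ∈ AddSubgroup.closure A, j x = y := by
  have h1 : AddSubgroup.closure (j '' A) = (AddSubgroup.closure A).map j.toAddMonoidHom := by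
    rw [AddMonoidHom.map_closure]; rfl
  rw [h1] at hy
  exact hy

theorem RegSet.map {A : Set Ω} (h : RegSet A) (j : Ω →ₗ[ZMod 2] Ω')
    (hj : Function.Injective j) : RegSet (j '' A) := by
  classical
  obtain ⟨r, hr⟩ := LinearMap.exists_leftInverse_of_injective j (LinearMap.ker_eq_bot.mpr hj)
  have hr' : ∀ x, r (j x) = x := fun x => by
    have := LinearMap.congr_fun hr x
    simpa using this
  induction h with
  | graphic A W φ hinj hA =>
    refine RegSet.graphic _ W (φ.comp r.toAddMonoidHom) ?_ ?_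
    · intro y hy hy0
      obtain ⟨x, hx, rfl⟩ := mem_closure_image hy
      have h1 : φ x = 0 := by
        have h2 : φ (r (j x)) = 0 := hy0
        rwa [hr'] at h2
      rw [hinj x hx h1, map_zero]
    · rintro _ ⟨a, ha, rfl⟩
      have h2 : (φ.comp r.toAddMonoidHom) (j a) = φ a := by
        change φ (r (j a)) = φ a
        rw [hr']
      rw [h2]; exact hA a ha
  | cographic A K e1 e2 h =>
    have h1 : (j '' (A : Set Ω)) = ((A.image j : Finset Ω') : Set Ω') := by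
      rw [Finset.coe_image]
    rw [h1]
    refine RegSet.cographic _ K (fun y => e1 (r y)) (fun y => e2 (r y)) ?_
    intro X hX
    have hXim : X = (A.filter (fun a => j a ∈ X)).image j := by
      ext y
      rw [Finset.mem_image]
      constructor
      · intro hy
        obtain ⟨a, ha, rfl⟩ := Finset.mem_image.mp (hX hy)
        exact ⟨a, Finset.mem_filter.mpr ⟨ha, hy⟩, rfl⟩
      · rintro ⟨a, ha, rfl⟩
        exact (Finset.mem_filter.mp ha).2
    have hsum : ∑ y ∈ X, y = j (∑ a ∈ A.filter (fun a => j a ∈ X), a) := by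
      conv_lhs => rw [hXim]
      rw [Finset.sum_image (fun a _ b _ hab => hj hab), map_sum]
    rw [hsum]
    have hzero : j (∑ a ∈ A.filter (fun a => j a ∈ X), a) = 0 ↔
        ∑ a ∈ A.filter (fun a => j a ∈ X), a = 0 := by
      constructor
      · intro h0
        exact hj (by rw [h0, map_zero])
      · intro h0; rw [h0, map_zero]
    rw [hzero, h _ (Finset.filter_subset _ _)]
    constructor
    · rintro ⟨U, hU⟩
      refine ⟨U, ?_⟩
      intro y hy
      obtain ⟨a, ha, rfl⟩ := Finset.mem_image.mp hy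
      have h2 := hU a ha
      rw [Finset.mem_filter] at h2
      simp only [hr']
      rw [← h2]
      exact ⟨fun h => ⟨ha, h⟩, fun h => h.2⟩
    · rintro ⟨U, hU⟩
      refine ⟨U, ?_⟩
      intro a ha
      have h2 := hU (j a) (Finset.mem_image_of_mem _ ha)
      simp only [hr'] at h2
      rw [Finset.mem_filter, ← h2]
      exact ⟨fun h => h.2, fun h => ⟨ha, h⟩⟩
  | small A T hT h =>
    refine RegSet.small _ (T.image j) (Finset.card_image_le.trans hT) ?_
    intro y hy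
    obtain ⟨x, hx, rfl⟩ := mem_closure_image hy
    exact Finset.mem_image_of_mem _ (h x hx)
  | sum A₁ A₂ P0 h₁ h₂ h0 hadd hcard hmem hsep ih₁ ih₂ =>
    rw [Set.image_union]
    refine RegSet.sum _ _ (P0.image j) ih₁ ih₂ ?_ ?_ (Finset.card_image_le.trans hcard) ?_ ?_
    · exact Finset.mem_image.mpr ⟨0, h0, map_zero j⟩
    · intro s hs t ht
      obtain ⟨a, ha, rfl⟩ := Finset.mem_image.mp hs
      obtain ⟨b, hb, rfl⟩ := Finset.mem_image.mp ht
      rw [← map_add]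
      exact Finset.mem_image_of_mem _ (hadd a ha b hb)
    · intro s hs hs0
      obtain ⟨a, ha, rfl⟩ := Finset.mem_image.mp hs
      have ha0 : a ≠ 0 := by
        rintro rfl
        exact hs0 (map_zero j)
      obtain ⟨m1, m2⟩ := hmem a ha ha0
      exact ⟨⟨a, m1, rfl⟩, ⟨a, m2, rfl⟩⟩
    · intro y hy1 hy2
      obtain ⟨x, hx, rfl⟩ := mem_closure_image hy1
      obtain ⟨x', hx', he⟩ := mem_closure_image hy2
      have : x' = x := hj he
      subst this
      exact Finset.mem_image_of_mem _ (hsep x' hx hx')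
  | subset A B h hBA ih =>
    exact RegSet.subset _ _ ih (Set.image_mono hBA)

end map

section glue

variable {α : Type u} {Ω₁ Ω₂ : Type u} [AddCommGroup Ω₁] [Module (ZMod 2) Ω₁]
  [AddCommGroup Ω₂] [Module (ZMod 2) Ω₂]

/-- The subspace of sums of the pairs `(x₁ t, x₂ t)`. -/
def glueSub (x₁ : α → Ω₁) (x₂ : α → Ω₂) (T : Finset α) : Submodule (ZMod 2) (Ω₁ × Ω₂) where
  carrier := {z | ∃ S : Finset α, S ⊆ T ∧ z = (∑ t ∈ S, x₁ t, ∑ t ∈ S, x₂ t)}
  zero_mem' := ⟨∅, Finset.empty_subset _, by simp; rfl⟩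
  add_mem' := by
    classical
    rintro _ _ ⟨S, hS, rfl⟩ ⟨S', hS', rfl⟩
    refine ⟨symmDiff S S', ?_, ?_⟩
    · intro e he
      rw [Finset.mem_symmDiff] at he
      rcases he with he | he
      · exact hS he.1
      · exact hS' he.1
    · rw [sum_symmDiff, sum_symmDiff]; rfl
  smul_mem' := by
    rintro c _ ⟨S, hS, rfl⟩
    rcases zmod_cases c with rfl | rfl
    · exact ⟨∅, Finset.empty_subset _, by simp; rfl⟩
    · exact ⟨S, hS, by simp⟩

theorem mem_glueSub {x₁ : α → Ω₁} {x₂ : α → Ω₂} {T : Finset α} {z : Ω₁ × Ω₂} :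
    z ∈ glueSub x₁ x₂ T ↔
      ∃ S : Finset α, S ⊆ T ∧ z = (∑ t ∈ S, x₁ t, ∑ t ∈ S, x₂ t) := Iff.rfl

/-- The amalgam of two spaces along the images of `T`. -/
abbrev Glue (x₁ : α → Ω₁) (x₂ : α → Ω₂) (T : Finset α) : Type u :=
  (Ω₁ × Ω₂) ⧸ glueSub x₁ x₂ T

def inc₁ (x₁ : α → Ω₁) (x₂ : α → Ω₂) (T : Finset α) : Ω₁ →ₗ[ZMod 2] Glue x₁ x₂ T :=
  (glueSub x₁ x₂ T).mkQ.comp (LinearMap.inl (ZMod 2) Ω₁ Ω₂)

def inc₂ (x₁ : α → Ω₁) (x₂ : α → Ω₂) (T : Finset α) : Ω₂ →ₗ[ZMod 2] Glue x₁ x₂ T :=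
  (glueSub x₁ x₂ T).mkQ.comp (LinearMap.inr (ZMod 2) Ω₁ Ω₂)

theorem inc_add_eq_zero {x₁ : α → Ω₁} {x₂ : α → Ω₂} {T : Finset α} (y₁ : Ω₁) (y₂ : Ω₂) :
    inc₁ x₁ x₂ T y₁ + inc₂ x₁ x₂ T y₂ = 0 ↔
      ∃ S : Finset α, S ⊆ T ∧ y₁ = ∑ t ∈ S, x₁ t ∧ y₂ = ∑ t ∈ S, x₂ t := by
  have h1 : inc₁ x₁ x₂ T y₁ + inc₂ x₁ x₂ T y₂ = (glueSub x₁ x₂ T).mkQ (y₁, y₂) := by
    simp only [inc₁, inc₂, LinearMap.comp_apply]
    rw [← map_add]
    congr 1
    simp
  rw [h1, Submodule.mkQ_apply, Submodule.Quotient.mk_eq_zero, mem_glueSub]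
  simp only [Prod.mk.injEq]

theorem inc_eq_of_mem {x₁ : α → Ω₁} {x₂ : α → Ω₂} {T : Finset α} {t : α} (ht : t ∈ T) :
    inc₁ x₁ x₂ T (x₁ t) = inc₂ x₁ x₂ T (x₂ t) := by
  apply eq_of_add_eq_zero'
  rw [inc_add_eq_zero]
  exact ⟨{t}, by simpa using ht, by simp, by simp⟩

/-- the compatibility condition -/
def Compat (x₁ : α → Ω₁) (x₂ : α → Ω₂) (T : Finset α) : Prop :=
  ∀ S : Finset α, S ⊆ T → (∑ t ∈ S, x₁ t = 0 ↔ ∑ t ∈ S, x₂ t = 0)

theorem inc₁_injective {x₁ : α → Ω₁} {x₂ : α → Ω₂} {T : Finset α} (h : Compat x₁ x₂ T) :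
    Function.Injective (inc₁ x₁ x₂ T) := by
  rw [injective_iff_map_eq_zero]
  intro y hy
  have h1 : inc₁ x₁ x₂ T y + inc₂ x₁ x₂ T 0 = 0 := by rw [hy, map_zero, add_zero]
  rw [inc_add_eq_zero] at h1
  obtain ⟨S, hS, h2, h3⟩ := h1
  rw [h2]
  exact (h S hS).mpr h3.symm

theorem inc₂_injective {x₁ : α → Ω₁} {x₂ : α → Ω₂} {T : Finset α} (h : Compat x₁ x₂ T) :
    Function.Injective (inc₂ x₁ x₂ T) := by
  rw [injective_iff_map_eq_zero]
  intro y hy
  have h1 : inc₁ x₁ x₂ T 0 + inc₂ x₁ x₂ T y = 0 := by rw [hy, map_zero, add_zero]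
  rw [inc_add_eq_zero] at h1
  obtain ⟨S, hS, h2, h3⟩ := h1
  rw [h3]
  exact (h S hS).mp h2.symm

/-- Gluing regular sets. -/
theorem RegSet.glue {A₁ : Set Ω₁} {A₂ : Set Ω₂} (h₁ : RegSet A₁) (h₂ : RegSet A₂)
    {x₁ : α → Ω₁} {x₂ : α → Ω₂} {T : Finset α} (hc : Compat x₁ x₂ T) (hcard : T.card ≤ 3)
    (hx₁ : ∀ t ∈ T, x₁ t ≠ 0 → x₁ t ∈ A₁) (hx₂ : ∀ t ∈ T, x₂ t ≠ 0 → x₂ t ∈ A₂)
    (htri : ∀ s ∈ T, ∀ t ∈ T, s ≠ t → ∃ r ∈ T, x₁ s + x₁ t = x₁ r) :
    RegSet (inc₁ x₁ x₂ T '' A₁ ∪ inc₂ x₁ x₂ T '' A₂) := by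
  classical
  set j₁ := inc₁ x₁ x₂ T with hj₁
  set j₂ := inc₂ x₁ x₂ T with hj₂
  set P0 : Finset (Glue x₁ x₂ T) := insert 0 (T.image (fun t => j₁ (x₁ t))) with hP0
  have hadd : ∀ s ∈ P0, ∀ t ∈ P0, s + t ∈ P0 := by
    intro s hs t ht
    rw [hP0, Finset.mem_insert] at hs ht
    rcases hs with rfl | hs
    · rw [zero_add, hP0, Finset.mem_insert]; exact ht
    rcases ht with rfl | ht
    · rw [add_zero, hP0, Finset.mem_insert]; exact Or.inr hs
    obtain ⟨a, ha, rfl⟩ := Finset.mem_image.mp hs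
    obtain ⟨b, hb, rfl⟩ := Finset.mem_image.mp ht
    by_cases hab : a = b
    · subst hab
      have : j₁ (x₁ a) + j₁ (x₁ a) = 0 := add_self' _
      simp only [this, hP0]
      exact Finset.mem_insert_self _ _
    · obtain ⟨r, hr, he⟩ := htri a ha b hb hab
      have : j₁ (x₁ a) + j₁ (x₁ b) = j₁ (x₁ r) := by rw [← map_add, he]
      simp only [this, hP0]
      exact Finset.mem_insert_of_mem (Finset.mem_image_of_mem (fun t => j₁ (x₁ t)) hr)
  refine RegSet.sum _ _ P0 (h₁.map j₁ (inc₁_injective hc)) (h₂.map j₂ (inc₂_injective hc))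
    (Finset.mem_insert_self _ _) hadd ?_ ?_ ?_
  · refine (Finset.card_insert_le _ _).trans ?_
    have := Finset.card_image_le (s := T) (f := fun t => j₁ (x₁ t))
    omega
  · intro s hs hs0
    rw [hP0, Finset.mem_insert] at hs
    have hs' := hs.resolve_left hs0
    obtain ⟨t, ht, rfl⟩ := Finset.mem_image.mp hs'
    have h10 : x₁ t ≠ 0 := by
      intro h0
      apply hs0
      rw [h0, map_zero]
    have he : j₁ (x₁ t) = j₂ (x₂ t) := inc_eq_of_mem ht
    have h20 : x₂ t ≠ 0 := by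
      intro h0
      apply hs0
      rw [he, h0, map_zero]
    refine ⟨⟨_, hx₁ t ht h10, rfl⟩, ?_⟩
    rw [he]
    exact ⟨_, hx₂ t ht h20, rfl⟩
  · intro y hy1 hy2
    obtain ⟨z₁, _, hz₁⟩ := mem_closure_image hy1
    obtain ⟨z₂, _, hz₂⟩ := mem_closure_image hy2
    have h3 : j₁ z₁ + j₂ z₂ = 0 := by rw [hz₁, hz₂]; exact add_self' _
    rw [hj₁, hj₂, inc_add_eq_zero] at h3
    obtain ⟨S, hS, h4, _⟩ := h3
    rw [← hz₁, h4, map_sum]
    have key : ∀ S : Finset α, S ⊆ T → ∑ t ∈ S, j₁ (x₁ t) ∈ P0 := by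
      intro S
      induction S using Finset.induction_on with
      | empty =>
        intro _
        rw [Finset.sum_empty]
        exact Finset.mem_insert_self _ _
      | insert a S ha ih =>
        intro hS
        rw [Finset.sum_insert ha]
        apply hadd
        · exact Finset.mem_insert_of_mem (Finset.mem_image_of_mem (fun t => j₁ (x₁ t))
            (hS (Finset.mem_insert_self _ _)))
        · exact ih fun e he => hS (Finset.mem_insert_of_mem he)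
    exact key S hS

end glue

end Pool.Agent.Helper546Reg
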