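import Pool.Agent.Helper546_reg.Class
import Pool.Agent.Helper546_reg.Count

set_option linter.unusedSectionVars false
set_option linter.unusedSimpArgs false

namespace Pool.Agent.Helper546Reg

open Finset

universe u

section rep

variable {α : Type u} {Ω : Type*} [AddCommGroup Ω] [Module (ZMod 2) Ω]

/-- The independent sets are those with no nonempty zero-sum subset. -/
def Rep (M : Matroid α) (x : α → Ω) : Prop :=
  ∀ I ⊆ M.E, (M.Indep I ↔ ∀ S : Finset α, (S : Set α) ⊆ I → ∑ e ∈ S, x e = 0 → S = ∅)

theorem zmod_cases (c : ZMod 2) : c = 0 ∨ c = 1 := by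
  revert c; decide

theorem linIndepOn_iff_sum (x : α → Ω) (I : Set α) :
    LinearIndepOn (ZMod 2) x I ↔
      ∀ S : Finset α, (S : Set α) ⊆ I → ∑ e ∈ S, x e = 0 → S = ∅ := by
  classical
  rw [linearIndepOn_iff]
  constructor
  · intro h S hS hsum
    have h1 := h (∑ e ∈ S, Finsupp.single e 1) ?_ ?_
    · by_contra hne
      obtain ⟨e, he⟩ := Finset.nonempty_iff_ne_empty.mpr hne
      have h2 : (∑ e ∈ S, Finsupp.single e (1 : ZMod 2)) e = 0 := by rw [h1]; rfl
      rw [Finsupp.finsetSum_apply] at h2
      simp [Finsupp.single_apply, he] at h2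
    · apply Submodule.sum_mem
      intro e he
      exact Finsupp.single_mem_supported _ _ (hS he)
    · rw [map_sum]
      simpa using hsum
  · intro h l hl hsum
    have h1 := h l.support ?_ ?_
    · exact Finsupp.support_eq_empty.mp h1
    · exact (Finsupp.mem_supported _ _).mp hl
    · rw [← hsum, Finsupp.linearCombination_apply, Finsupp.sum]
      apply Finset.sum_congr rfl
      intro e he
      rcases zmod_cases (l e) with h0 | h0
      · exact absurd h0 (Finsupp.mem_support_iff.mp he)
      · rw [h0, one_smul]

theorem sum_symmDiff [DecidableEq α] (x : α → Ω) (S T : Finset α) :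
    ∑ e ∈ symmDiff S T, x e = ∑ e ∈ S, x e + ∑ e ∈ T, x e := by
  have h1 : ∑ e ∈ S, x e = ∑ e ∈ S \ T, x e + ∑ e ∈ S ∩ T, x e := by
    rw [← Finset.sum_union (Finset.disjoint_sdiff_inter S T), Finset.sdiff_union_inter]
  have h2 : ∑ e ∈ T, x e = ∑ e ∈ T \ S, x e + ∑ e ∈ S ∩ T, x e := by
    rw [Finset.inter_comm, ← Finset.sum_union (Finset.disjoint_sdiff_inter T S),
      Finset.sdiff_union_inter]
  have h3 : ∑ e ∈ symmDiff S T, x e = ∑ e ∈ S \ T, x e + ∑ e ∈ T \ S, x e := by
    rw [← Finset.sum_union disjoint_sdiff_sdiff]
    rfl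
  rw [h3, h1, h2]
  have : ∑ e ∈ S \ T, x e + ∑ e ∈ S ∩ T, x e + (∑ e ∈ T \ S, x e + ∑ e ∈ S ∩ T, x e) =
      ∑ e ∈ S \ T, x e + ∑ e ∈ T \ S, x e + (∑ e ∈ S ∩ T, x e + ∑ e ∈ S ∩ T, x e) := by abel
  rw [this, add_self', add_zero]

theorem IsCycleSet.subset_ground {M : Matroid α} {C : Set α} (h : IsCycleSet M C) :
    C ⊆ M.E := by
  induction h with
  | empty => exact Set.empty_subset _
  | union C D _ hD _ ih => exact Set.union_subset ih hD.subset_ground

theorem circuit_isCycleSet {M : Matroid α} {D : Set α} (h : M.IsCircuit D) : IsCycleSet M D := by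
  have := IsCycleSet.union ∅ D IsCycleSet.empty h (Set.empty_disjoint D)
  rwa [Set.empty_union] at this

theorem IsCycleSet.exists_circuit {M : Matroid α} {C : Set α} (h : IsCycleSet M C)
    (hne : C.Nonempty) : ∃ D ⊆ C, M.IsCircuit D := by
  cases h with
  | empty => exact absurd hne Set.not_nonempty_empty
  | union C D _ hD _ => exact ⟨D, Set.subset_union_right, hD⟩

/-- A circuit of a represented matroid has zero sum. -/
theorem Rep.circuit_sum {M : Matroid α} {x : α → Ω} (h : Rep M x) {D : Finset α}
    (hD : M.IsCircuit (D : Set α)) : ∑ e ∈ D, x e = 0 := by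
  have h1 : ¬ M.Indep (D : Set α) := hD.not_indep
  rw [h _ hD.subset_ground] at h1
  push Not at h1
  obtain ⟨S, hS, hsum, hne⟩ := h1
  have h2 : ¬ M.Indep (S : Set α) := by
    rw [h _ (hS.trans hD.subset_ground)]
    intro h3
    exact absurd (h3 S (subset_refl _) hsum) (Finset.nonempty_iff_ne_empty.mp hne)
  have h3 := hD.eq_of_not_indep_subset h2 hS
  rw [Finset.coe_inj] at h3
  rw [← h3]; exact hsum

/-- Cycles are the zero-sum sets. -/
theorem Rep.cycle_iff {M : Matroid α} {x : α → Ω} (h : Rep M x) (C : Finset α)
    (hC : (C : Set α) ⊆ M.E) : IsCycleSet M (C : Set α) ↔ ∑ e ∈ C, x e = 0 := by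
  classical
  constructor
  · intro hcyc
    have key : ∀ C' : Set α, IsCycleSet M C' → ∀ C : Finset α, (C : Set α) = C' →
        ∑ e ∈ C, x e = 0 := by
      intro C' hC'
      induction hC' with
      | empty =>
        intro C hC
        have : C = ∅ := by exact_mod_cast hC
        rw [this]; simp
      | union C' D _ hD hdis ih =>
        intro C hC
        have h1 : ((C.filter (fun e => e ∈ C') : Finset α) : Set α) = C' := by
          ext e
          simp only [Finset.coe_filter, Set.mem_ofPred_eq]
          constructor
          · exact fun h => h.2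
          · intro h
            refine ⟨?_, h⟩
            have : e ∈ (C : Set α) := by rw [hC]; exact Or.inl h
            exact_mod_cast this
        have h2 : ((C.filter (fun e => e ∉ C') : Finset α) : Set α) = D := by
          ext e
          simp only [Finset.coe_filter, Set.mem_ofPred_eq]
          constructor
          · rintro ⟨h3, h4⟩
            have : e ∈ (C : Set α) := by exact_mod_cast h3
            rw [hC] at this
            exact this.resolve_left h4
          · intro h
            refine ⟨?_, fun h' => (Set.disjoint_left.mp hdis) h' h⟩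
            have : e ∈ (C : Set α) := by rw [hC]; exact Or.inr h
            exact_mod_cast this
        rw [← Finset.sum_filter_add_sum_filter_not C (fun e => e ∈ C'), ih _ h1, zero_add]
        exact h.circuit_sum (by rw [h2]; exact hD)
    exact key _ hcyc C rfl
  · intro hsum
    induction C using Finset.strongInduction with
    | H C ih =>
      rcases C.eq_empty_or_nonempty with rfl | hne
      · rw [Finset.coe_empty]; exact IsCycleSet.empty
      · have h1 : ¬ M.Indep (C : Set α) := by
          rw [h _ hC]
          intro h3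
          exact absurd (h3 C (subset_refl _) hsum) (Finset.nonempty_iff_ne_empty.mp hne)
        have h2 : M.Dep (C : Set α) := ⟨h1, hC⟩
        obtain ⟨D, hDC, hD⟩ := h2.exists_isCircuit_subset
        have h3 : ((C.filter (fun e => e ∈ D) : Finset α) : Set α) = D := by
          ext e
          simp only [Finset.coe_filter, Set.mem_ofPred_eq]
          exact ⟨fun h => h.2, fun h => ⟨by exact_mod_cast hDC h, h⟩⟩
        have h4 : ∑ e ∈ C.filter (fun e => e ∈ D), x e = 0 :=
          h.circuit_sum (by rw [h3]; exact hD)
        have h5 : ∑ e ∈ C.filter (fun e => e ∉ D), x e = 0 := by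
          rw [← Finset.sum_filter_add_sum_filter_not C (fun e => e ∈ D), h4, zero_add] at hsum
          exact hsum
        have h6 : C.filter (fun e => e ∉ D) ⊂ C := by
          rw [Finset.filter_ssubset]
          obtain ⟨e, he⟩ := hD.nonempty
          exact ⟨e, by exact_mod_cast hDC he, by simpa using he⟩
        have h7 := ih _ h6 ((Finset.coe_subset.mpr h6.1).trans hC) h5
        have h8 : (C : Set α) = ((C.filter (fun e => e ∉ D) : Finset α) : Set α) ∪ D := by
          ext e
          simp only [Finset.coe_filter, Set.mem_union, Set.mem_ofPred_eq, Finset.mem_coe]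
          constructor
          · intro he
            by_cases heD : e ∈ D
            · exact Or.inr heD
            · exact Or.inl ⟨he, heD⟩
          · rintro (he | he)
            · exact he.1
            · exact_mod_cast hDC he
        rw [h8]
        refine IsCycleSet.union _ _ h7 hD ?_
        rw [Set.disjoint_left]
        intro e he
        simp only [Finset.coe_filter, Set.mem_ofPred_eq] at he
        exact he.2

theorem rep_of_cycle {M : Matroid α} (hfin : M.E.Finite) {x : α → Ω}
    (h : ∀ C : Finset α, (C : Set α) ⊆ M.E →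
      (IsCycleSet M (C : Set α) ↔ ∑ e ∈ C, x e = 0)) : Rep M x := by
  classical
  intro I hI
  constructor
  · intro hind S hS hsum
    by_contra hne
    have h1 := (h S (hS.trans hI)).mpr hsum
    obtain ⟨D, hDS, hD⟩ := h1.exists_circuit
      (by exact_mod_cast Finset.nonempty_iff_ne_empty.mpr hne)
    exact hD.not_indep (hind.subset (hDS.trans hS))
  · intro hz
    by_contra hni
    have h1 : M.Dep I := ⟨hni, hI⟩
    obtain ⟨D, hDI, hD⟩ := h1.exists_isCircuit_subset
    have hDfin : D.Finite := hfin.subset hD.subset_ground
    have h2 : (hDfin.toFinset : Set α) = D := hDfin.coe_toFinset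
    have h3 := (h hDfin.toFinset (by rw [h2]; exact hD.subset_ground)).mp
      (by rw [h2]; exact circuit_isCycleSet hD)
    have h4 := hz hDfin.toFinset (by rw [h2]; exact hDI) h3
    obtain ⟨e, he⟩ := hD.nonempty
    have h5 : e ∈ hDfin.toFinset := hDfin.mem_toFinset.mpr he
    rw [h4] at h5
    exact absurd h5 (Finset.notMem_empty e)

end rep

end Pool.Agent.Helper546Reg
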