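import Pool.Agent.Helper546_reg.Token

set_option linter.unusedSectionVars false

namespace Pool.Agent.Helper546Reg

open Finset

universe u v

variable {Ω : Type u} [AddCommGroup Ω] [Module (ZMod 2) Ω]
variable {ι : Type v} [Fintype ι]

/-- the final bound for a system with `N` ports -/
def FB (N : ℕ) : ℕ := (800 * max 1 (N - 2)) ^ 15

theorem port_mem_closure {A : Set Ω} {P : Finset Ω} (h : IsPort A P) {s : Ω} (hs : s ∈ P) :
    s ∈ AddSubgroup.closure A := by
  by_cases h0 : s = 0
  · rw [h0]; exact zero_mem _
  · exact AddSubgroup.subset_closure (h.mem_of_ne s hs h0)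

theorem sum_mem_closure {A : Set Ω} {L : ι → Finset Ω} (h : ∀ i, IsPort A (L i)) {z : ι → Ω}
    (hz : ∀ i, z i ∈ L i) (J : Finset ι) : ∑ i ∈ J, z i ∈ AddSubgroup.closure A :=
  sum_mem fun i _ => port_mem_closure (h i) (hz i)

theorem good_of_tokens {A : Set Ω} {L : ι → Finset Ω} (h : ∀ i, IsPort A (L i)) (M : ℕ)
    (hMpos : 1 ≤ M)
    (H : ∀ (w : ι → Ω → ℕ) (l : ℕ), (∀ i, w i 0 = 0) →
      (∀ i, ∀ s ∈ L i, ∀ t ∈ L i, w i (s + t) ≤ w i s + w i t) →
      (∀ y ∈ Sol L, y ≠ 0 → l ≤ ∑ i, w i (y i)) →
      ∀ p : ℕ, {y | y ∈ Sol L ∧ 2 * ∑ i, w i (y i) < p * l}.ncard ≤ M ^ p) :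
    Good (M ^ 3) L := by
  refine good_of_weight (fun i => (h i).add_mem) ?_
  intro w l w0 ww girth p hp
  refine (H w l w0 ww girth (p + 2)).trans ?_
  rw [← pow_mul]
  exact Nat.pow_le_pow_right hMpos (by omega)

theorem good_small {A : Set Ω} (T : Finset Ω) (hT : T.card ≤ 32)
    (hAT : ∀ x ∈ AddSubgroup.closure A, x ∈ T) {L : ι → Finset Ω}
    (h : ∀ i, IsPort A (L i)) : Good (FB (Fintype.card ι)) L := by
  have h1 : Good ((32 * (4 * Fintype.card ι + 1)) ^ 3) L := by
    refine good_of_tokens h _ (by omega) ?_
    intro w l w0 ww girth p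
    refine token_count L (fun i => (h i).zero_mem) (fun i => (h i).add_mem)
      (fun i => (h i).card_le) Set.univ (Set.mem_univ _) ?_ 32 ?_ w l w0 ww girth p
    · intro z _ J hJ _
      obtain ⟨j, hj⟩ := hJ
      exact ⟨j, hj, Set.mem_univ _⟩
    · intro S hS _ hinj
      refine le_trans (Set.ncard_le_ncard_of_injOn (t := (T : Set Ω)) _ ?_ hinj
        (Finset.finite_toSet _)) ?_
      · intro z hz
        exact hAT _ (sum_mem_closure h (hS z hz) univ)
      · rw [Set.ncard_coe_finset]; exact hT
  refine h1.mono ?_
  unfold FB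
  have h2 : 32 * (4 * Fintype.card ι + 1) ≤ 800 * max 1 (Fintype.card ι - 2) := by omega
  calc (32 * (4 * Fintype.card ι + 1)) ^ 3 ≤ (800 * max 1 (Fintype.card ι - 2)) ^ 3 :=
        Nat.pow_le_pow_left h2 3
    _ ≤ _ := Nat.pow_le_pow_right (by omega) (by norm_num)

theorem card_small_subsets {W : Type*} [DecidableEq W] (S : Finset W) (k : ℕ) :
    (S.powerset.filter (fun T => T.card ≤ k)).card ≤ (S.card + 1) ^ k := by
  induction k with
  | zero =>
    rw [pow_zero, Finset.card_le_one]
    intro a ha b hb
    simp only [Finset.mem_filter, Nat.le_zero, Finset.card_eq_zero] at ha hb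
    rw [ha.2, hb.2]
  | succ k ih =>
    have hsub : S.powerset.filter (fun T => T.card ≤ k + 1) ⊆
        ((S.powerset.filter (fun T => T.card ≤ k)) ×ˢ (Finset.insertNone S)).image
          (fun q => q.1 ∪ q.2.toFinset) := by
      intro T hT
      simp only [Finset.mem_filter, Finset.mem_powerset] at hT
      rw [Finset.mem_image]
      rcases T.eq_empty_or_nonempty with rfl | ⟨x, hx⟩
      · refine ⟨(∅, none), ?_, by simp⟩
        simp
      · refine ⟨(T.erase x, some x), ?_, ?_⟩
        · simp only [Finset.mem_product, Finset.mem_filter, Finset.mem_powerset,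
            Finset.some_mem_insertNone]
          refine ⟨⟨(Finset.erase_subset _ _).trans hT.1, ?_⟩, hT.1 hx⟩
          rw [Finset.card_erase_of_mem hx]; omega
        · ext y
          simp only [Option.toFinset_some, Finset.mem_union, Finset.mem_erase,
            Finset.mem_singleton]
          constructor
          · rintro (⟨_, h⟩ | rfl)
            · exact h
            · exact hx
          · intro hy
            by_cases hyx : y = x
            · exact Or.inr hyx
            · exact Or.inl ⟨hyx, hy⟩
    refine (Finset.card_le_card hsub).trans (Finset.card_image_le.trans ?_)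
    rw [Finset.card_product, Finset.card_insertNone, pow_succ]
    exact Nat.mul_le_mul_right _ ih

theorem zmod_two_add {a b : ZMod 2} (ha : a ≠ 0) (hb : b ≠ 0) : a + b = 0 := by
  revert a b; decide

theorem finsupp_ext_support {W : Type*} {f g : W →₀ ZMod 2} (h : f.support = g.support) :
    f = g := by
  ext u
  have h1 : u ∈ f.support ↔ u ∈ g.support := by rw [h]
  simp only [Finsupp.mem_support_iff] at h1
  have key : ∀ a b : ZMod 2, (a ≠ 0 ↔ b ≠ 0) → a = b := by decide
  exact key _ _ h1

theorem good_graphic {A : Set Ω} {W : Type} (φ : Ω →+ (W →₀ ZMod 2))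
    (hinj : ∀ x ∈ AddSubgroup.closure A, φ x = 0 → x = 0)
    (hA : ∀ a ∈ A, (φ a).support.card ≤ 2) {L : ι → Finset Ω}
    (h : ∀ i, IsPort A (L i)) : Good (FB (Fintype.card ι)) L := by
  classical
  have hcard : ∀ i, ∀ s ∈ L i, (φ s).support.card ≤ 2 := by
    intro i s hs
    by_cases h0 : s = 0
    · rw [h0]; simp
    · exact hA s ((h i).mem_of_ne s hs h0)
  have h1 : Good (((8 * Fintype.card ι + 1) ^ 4 * (4 * Fintype.card ι + 1)) ^ 3) L := by
    refine good_of_tokens h _ (Nat.one_le_iff_ne_zero.mpr (by positivity)) ?_
    intro w l w0 ww girth p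
    refine token_count L (fun i => (h i).zero_mem) (fun i => (h i).add_mem)
      (fun i => (h i).card_le) {s | (φ s).support.card ≤ 2} (by simp) ?_ _ ?_ w l w0 ww girth p
    · intro z hz J hJ hs
      set s := ∑ i ∈ J, z i with hsdef
      by_cases hφ : φ s = 0
      · obtain ⟨j, hj⟩ := hJ
        refine ⟨j, hj, ?_⟩
        simp only [Set.mem_ofPred_eq, map_add, hφ, zero_add]
        exact hcard j _ (hz j)
      · obtain ⟨u, hu⟩ := Finsupp.support_nonempty_iff.mpr hφ
        have hu' : φ s u ≠ 0 := Finsupp.mem_support_iff.mp hu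
        have hsum : φ s u = ∑ i ∈ J, φ (z i) u := by
          rw [hsdef, map_sum, Finsupp.finsetSum_apply]
        rw [hsum] at hu'
        obtain ⟨j, hj, hju⟩ := Finset.exists_ne_zero_of_sum_ne_zero hu'
        refine ⟨j, hj, ?_⟩
        simp only [Set.mem_ofPred_eq, map_add]
        have hsub : (φ s + φ (z j)).support ⊆
            (φ s).support.erase u ∪ (φ (z j)).support.erase u := by
          intro v hv
          have hv0 : v ≠ u := by
            rintro rfl
            have : (φ s + φ (z j)) v = 0 := by
              rw [Finsupp.add_apply]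
              exact zmod_two_add (by rwa [hsum]) hju
            exact Finsupp.mem_support_iff.mp hv this
          have := Finsupp.support_add hv
          rw [Finset.mem_union] at this ⊢
          rcases this with h | h
          · exact Or.inl (Finset.mem_erase.mpr ⟨hv0, h⟩)
          · exact Or.inr (Finset.mem_erase.mpr ⟨hv0, h⟩)
        have c1 : ((φ s).support.erase u).card ≤ 1 := by
          rw [Finset.card_erase_of_mem hu]
          have : (φ s).support.card ≤ 2 := hs
          omega
        have c2 : ((φ (z j)).support.erase u).card ≤ 1 := by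
          rw [Finset.card_erase_of_mem (Finsupp.mem_support_iff.mpr hju)]
          have := hcard j _ (hz j)
          omega
        exact (Finset.card_le_card hsub).trans ((Finset.card_union_le _ _).trans (by omega))
    · intro S hS hSR hSinj
      set W' : Finset W := univ.biUnion (fun i => (L i).biUnion (fun t => (φ t).support)) with hW'
      have cW : W'.card ≤ 8 * Fintype.card ι := by
        refine (Finset.card_biUnion_le).trans ?_
        have : ∀ i ∈ (univ : Finset ι), ((L i).biUnion (fun t => (φ t).support)).card ≤ 8 := by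
          intro i _
          refine (Finset.card_biUnion_le).trans ?_
          refine (Finset.sum_le_card_nsmul _ _ 2 (fun t ht => hcard i t ht)).trans ?_
          have := (h i).card_le
          rw [smul_eq_mul]; omega
        refine (Finset.sum_le_card_nsmul _ _ 8 this).trans ?_
        rw [Finset.card_univ, smul_eq_mul]; omega
      have hmem : ∀ z ∈ S, (φ (∑ i, z i)).support ∈
          W'.powerset.filter (fun T => T.card ≤ 4) := by
        intro z hz
        rw [Finset.mem_filter, Finset.mem_powerset]
        constructor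
        · intro v hv
          have hv' : φ (∑ i, z i) v ≠ 0 := Finsupp.mem_support_iff.mp hv
          rw [map_sum, Finsupp.finsetSum_apply] at hv'
          obtain ⟨j, _, hju⟩ := Finset.exists_ne_zero_of_sum_ne_zero hv'
          rw [hW', Finset.mem_biUnion]
          refine ⟨j, Finset.mem_univ _, ?_⟩
          rw [Finset.mem_biUnion]
          exact ⟨z j, hS z hz j, Finsupp.mem_support_iff.mpr hju⟩
        · obtain ⟨r, hr, r', hr', he⟩ := hSR z hz
          rw [he, map_add]
          have := Finset.card_le_card (Finsupp.support_add (g₁ := φ r) (g₂ := φ r'))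
          have h3 := Finset.card_union_le (φ r).support (φ r').support
          have h4 : (φ r).support.card ≤ 2 := hr
          have h5 : (φ r').support.card ≤ 2 := hr'
          omega
      have hcount : S.ncard ≤ (W'.powerset.filter (fun T => T.card ≤ 4)).card := by
        rw [← Set.ncard_coe_finset]
        refine Set.ncard_le_ncard_of_injOn (fun z => (φ (∑ i, z i)).support) hmem ?_
          (Finset.finite_toSet _)
        intro x hx y hy hxy
        have e1 := finsupp_ext_support hxy
        have e2 : φ (∑ i, x i + ∑ i, y i) = 0 := by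
          rw [map_add, e1]
          ext u
          rw [Finsupp.add_apply]
          have key : ∀ a : ZMod 2, a + a = 0 := by decide
          exact key _
        have e3 := hinj _ (add_mem (sum_mem_closure h (hS x hx) univ)
          (sum_mem_closure h (hS y hy) univ)) e2
        exact hSinj hx hy (eq_of_add_eq_zero' e3)
      refine hcount.trans ((card_small_subsets W' 4).trans ?_)
      exact Nat.pow_le_pow_left (by omega) 4
  refine h1.mono ?_
  unfold FB
  set N := Fintype.card ι
  have h2 : 8 * N + 1 ≤ 800 * max 1 (N - 2) := by omega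
  calc ((8 * N + 1) ^ 4 * (4 * N + 1)) ^ 3 ≤ ((8 * N + 1) ^ 4 * (8 * N + 1)) ^ 3 :=
        Nat.pow_le_pow_left (Nat.mul_le_mul_left _ (by omega)) 3
    _ = (8 * N + 1) ^ 15 := by ring
    _ ≤ _ := Nat.pow_le_pow_left h2 15

end Pool.Agent.Helper546Reg
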