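import Pool.Agent.Helper546_reg.Defs

set_option linter.unusedSectionVars false

namespace Pool.Agent.Helper546Reg

open Finset Pointwise

universe u v

variable {Ω : Type u} [AddCommGroup Ω] [Module (ZMod 2) Ω]
variable {ι : Type v} [Fintype ι]

open Classical in
/-- restriction of a vector to a set of coordinates -/
noncomputable def restr (J : Finset ι) (z : ι → Ω) : ι → Ω := fun i => if i ∈ J then z i else 0

theorem restr_mem {L : ι → Finset Ω} (h0 : ∀ i, (0 : Ω) ∈ L i) {z : ι → Ω}
    (hz : ∀ i, z i ∈ L i) (J : Finset ι) (i : ι) : restr J z i ∈ L i := by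
  unfold restr; split_ifs
  · exact hz i
  · exact h0 i

theorem sum_restr (J : Finset ι) (z : ι → Ω) : ∑ i, restr J z i = ∑ i ∈ J, z i := by
  classical
  unfold restr
  rw [Finset.sum_ite_mem]; simp

theorem weight_restr {w : ι → Ω → ℕ} (w0 : ∀ i, w i 0 = 0) (J : Finset ι) (z : ι → Ω) :
    ∑ i, w i (restr J z i) = ∑ i ∈ J, w i (z i) := by
  classical
  have : ∀ i, w i (restr J z i) = if i ∈ J then w i (z i) else 0 := by
    intro i
    unfold restr; split_ifs
    · rfl
    · exact w0 i
  simp_rw [this]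
  rw [Finset.sum_ite_mem]; simp

/-- The token lemma. -/
theorem token_count (L : ι → Finset Ω) (h0 : ∀ i, (0 : Ω) ∈ L i)
    (hadd : ∀ i, ∀ s ∈ L i, ∀ t ∈ L i, s + t ∈ L i) (hcard : ∀ i, (L i).card ≤ 4)
    (R : Set Ω) (h0R : (0 : Ω) ∈ R)
    (hex : ∀ z : ι → Ω, (∀ i, z i ∈ L i) → ∀ J : Finset ι, J.Nonempty →
      ∑ i ∈ J, z i ∈ R → ∃ j ∈ J, (∑ i ∈ J, z i) + z j ∈ R)
    (M : ℕ)
    (hM : ∀ S : Set (ι → Ω), (∀ z ∈ S, ∀ i, z i ∈ L i) →
      (∀ z ∈ S, ∃ r ∈ R, ∃ r' ∈ R, ∑ i, z i = r + r') →
      Set.InjOn (fun z => ∑ i, z i) S → S.ncard ≤ M)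
    (w : ι → Ω → ℕ) (l : ℕ) (w0 : ∀ i, w i 0 = 0)
    (ww : ∀ i, ∀ s ∈ L i, ∀ t ∈ L i, w i (s + t) ≤ w i s + w i t)
    (girth : ∀ y ∈ Sol L, y ≠ 0 → l ≤ ∑ i, w i (y i)) (p : ℕ) :
    {y | y ∈ Sol L ∧ 2 * ∑ i, w i (y i) < p * l}.ncard
      ≤ (M * (4 * Fintype.card ι + 1)) ^ p := by
  classical
  set Light : Set (ι → Ω) := {z | (∀ i, z i ∈ L i) ∧ 2 * ∑ i, w i (z i) < l ∧
    ∃ r ∈ R, ∃ r' ∈ R, ∑ i, z i = r + r'} with hLight
  have finL : Light.Finite := (finite_box L).subset fun _ hx => hx.1
  have cardL : Light.ncard ≤ M := by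
    refine hM Light (fun z hz => hz.1) (fun z hz => hz.2.2) ?_
    intro x hx y hy hxy
    by_contra hne
    have hz : x + y ≠ 0 := fun h0 => hne (fun_eq_of_add h0)
    have hmem : x + y ∈ Sol L := by
      refine ⟨fun i => hadd i _ (hx.1 i) _ (hy.1 i), ?_⟩
      have hxy' : ∑ i, x i = ∑ i, y i := hxy
      simp only [Pi.add_apply, Finset.sum_add_distrib, hxy', add_self']
    have h1 := girth _ hmem hz
    have h2 : ∑ i, w i ((x + y) i) ≤ ∑ i, (w i (x i) + w i (y i)) :=
      Finset.sum_le_sum fun i _ => ww i _ (hx.1 i) _ (hy.1 i)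
    rw [Finset.sum_add_distrib] at h2
    have h3 := hx.2.1
    have h4 := hy.2.1
    omega
  set LF := finL.toFinset with hLF
  have cardLF : LF.card ≤ M := by
    rw [← Set.ncard_eq_toFinset_card Light finL]; exact cardL
  set Sg : Finset (ι → Ω) := insert 0 ((univ.sigma (fun i => L i)).image
    (fun q : (_ : ι) × Ω => Pi.single q.1 q.2)) with hSg
  have cardSg : Sg.card ≤ 4 * Fintype.card ι + 1 := by
    refine (Finset.card_insert_le _ _).trans ?_
    have h1 := Finset.card_image_le (s := univ.sigma (fun i => L i))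
      (f := fun q : (_ : ι) × Ω => (Pi.single q.1 q.2 : ι → Ω))
    rw [Finset.card_sigma] at h1
    have h2 : ∑ i : ι, (L i).card ≤ ∑ _i : ι, 4 := Finset.sum_le_sum fun i _ => hcard i
    rw [Finset.sum_const, Finset.card_univ, smul_eq_mul] at h2
    omega
  set Tok := LF + Sg with hTok
  have cardTok : Tok.card ≤ M * (4 * Fintype.card ι + 1) :=
    (Finset.card_add_le).trans (Nat.mul_le_mul cardLF cardSg)
  have claim : ∀ k : ℕ, ∀ z : ι → Ω, (∀ i, z i ∈ L i) → ∑ i, z i ∈ R →
      2 * ∑ i, w i (z i) < k * l → z ∈ k • Tok := by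
    intro k
    induction k with
    | zero => intro z _ _ h; simp at h
    | succ k ih =>
      intro z hz hzR hzw
      have inner : ∀ n : ℕ, ∀ J : Finset ι, J.card = n → ∑ i ∈ J, z i ∈ R →
          2 * ∑ i ∈ Jᶜ, w i (z i) < l → z ∈ (k + 1) • Tok := by
        intro n
        induction n with
        | zero =>
          intro J hJ _ hw
          have hJ' : J = ∅ := Finset.card_eq_zero.mp hJ
          subst hJ'
          rw [Finset.compl_empty] at hw
          have hzL : z ∈ LF := by
            rw [hLF, Set.Finite.mem_toFinset]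
            exact ⟨hz, hw, _, hzR, 0, h0R, by simp⟩
          have h0L : (0 : ι → Ω) ∈ LF := by
            rw [hLF, Set.Finite.mem_toFinset]
            refine ⟨fun i => h0 i, ?_, 0, h0R, 0, h0R, by simp⟩
            have : ∑ i, w i ((0 : ι → Ω) i) = 0 := Finset.sum_eq_zero fun i _ => w0 i
            rw [this]; omega
          have h0S : (0 : ι → Ω) ∈ Sg := Finset.mem_insert_self _ _
          have h0T : (0 : ι → Ω) ∈ Tok := by
            rw [hTok]; exact Finset.mem_add.mpr ⟨0, h0L, 0, h0S, by simp⟩
          have hzT : z ∈ Tok := by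
            rw [hTok]; exact Finset.mem_add.mpr ⟨z, hzL, 0, h0S, by simp⟩
          rw [succ_nsmul]
          exact Finset.mem_add.mpr ⟨0, Finset.zero_mem_nsmul h0T, z, hzT, by simp⟩
        | succ n ihn =>
          intro J hJ hJR hw
          have hne : J.Nonempty := by
            rw [← Finset.card_pos]; omega
          obtain ⟨j, hjJ, hjR⟩ := hex z hz J hne hJR
          have hfe : (∑ i ∈ J, z i) + z j = ∑ i ∈ J.erase j, z i := by
            rw [← Finset.sum_erase_add J z hjJ, add_add_cancel']
          rw [hfe] at hjR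
          have hcompl : (J.erase j)ᶜ = insert j Jᶜ := by
            rw [Finset.compl_erase]
          have hjc : j ∉ Jᶜ := by simpa using hjJ
          by_cases hlt : 2 * ∑ i ∈ (J.erase j)ᶜ, w i (z i) < l
          · exact ihn (J.erase j) (by rw [Finset.card_erase_of_mem hjJ]; omega) hjR hlt
          · push Not at hlt
            rw [hcompl, Finset.sum_insert hjc] at hlt
            -- split z
            have hP : restr Jᶜ z ∈ LF := by
              rw [hLF, Set.Finite.mem_toFinset]
              refine ⟨restr_mem h0 hz _, ?_, ?_⟩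
              · rw [weight_restr w0]; exact hw
              · refine ⟨_, hzR, _, hJR, ?_⟩
                rw [sum_restr, ← Finset.sum_compl_add_sum J z, add_add_cancel']
            have hS : (Pi.single j (z j) : ι → Ω) ∈ Sg := by
              refine Finset.mem_insert_of_mem (Finset.mem_image.mpr ⟨⟨j, z j⟩, ?_, rfl⟩)
              simp [hz j]
            have hrest : restr (J.erase j) z ∈ k • Tok := by
              refine ih _ (restr_mem h0 hz _) ?_ ?_
              · rw [sum_restr]; exact hjR
              · rw [weight_restr w0]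
                have h1 := Finset.sum_compl_add_sum J (fun i => w i (z i))
                have h2 := Finset.add_sum_erase J (fun i => w i (z i)) hjJ
                have h3 : (k + 1) * l = k * l + l := by ring
                rw [h3] at hzw
                omega
            rw [succ_nsmul]
            refine Finset.mem_add.mpr ⟨_, hrest, _, Finset.mem_add.mpr ⟨_, hP, _, hS, rfl⟩, ?_⟩
            funext i
            simp only [Pi.add_apply, restr]
            by_cases hij : i = j
            · subst hij
              simp [hjJ]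
            · by_cases hiJ : i ∈ J
              · simp [hiJ, hij]
              · simp [hiJ, hij]
      by_cases hl : l = 0
      · subst hl; simp at hzw
      · refine inner _ univ rfl hzR ?_
        rw [Finset.compl_univ, Finset.sum_empty]; omega
  have hsub : {y | y ∈ Sol L ∧ 2 * ∑ i, w i (y i) < p * l} ⊆ ↑(p • Tok) := by
    rintro y ⟨hy, hyw⟩
    exact claim p y hy.1 (by rw [hy.2]; exact h0R) hyw
  refine (Set.ncard_le_ncard hsub (Finset.finite_toSet _)).trans ?_
  rw [Set.ncard_coe_finset]
  exact (Finset.card_nsmul_le).trans (Nat.pow_le_pow_left cardTok p)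

end Pool.Agent.Helper546Reg
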